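import Pool.Agent.Work.MP_74021c_co.SB.Defs

/-!
# Block SB: statements with complete proofs (captain helper84)

Item `X`: statement `S_X`, file `SB/I_X.lean`, theorem `pr_X`, auxiliary lemmas in the namespace
`DT.SB.IX_X`. Everything of `G7a.lean` (`WalkAxis.*`: `sq_of_dist`, `cross_in`, `abs_cy_lt`,
`X_lt_right`, `right_of`, `left_eq`, `right_eq`, `cr_axis`, `OnC.sq_a`, ...), of `Bd/B01.lean`
(`circ_param`, `upper_param`, `lower_param`, `chord_up`, `chord_low`, `OnC.dist_ab`, `W_range`,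
`W_facts`, `W_der`, `G3a_cr_low`, `pencil_step`, ...) and of `G9b.lean` (`DSys.of_general`) may be used.
Symbols in the docstrings: bars are parameters measured from the left: `P = π/2 + w - p`,
`Q = π/2 - w - q`, so `P + Q = π - (p + q)`.
-/

set_option autoImplicit false

open Real Set

namespace DT.SB

/-! ### Analysis -/

/-- D1 (EASY-MEDIUM). Proof. By the series (alternating, decreasing terms for `q <= 1.6`)
`sin q - q cos q <= q^3/3 - q^5/30 + q^7/840`, `q - sin q >= q^3/6 - q^5/120`, `sin q >= q - q^3/6` (for the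
first one: both sides vanish at `0`, derivatives `q sin q <= q (q - q^3/6 + q^5/120)`). All factors are
nonnegative, so after division by `q` it is enough to prove the polynomial inequality
`2.6 (q^2/3 - q^4/30 + q^6/840) <= (7.43 - q)(.014 + q^3/6 - q^5/120)(1 - q^2/6)` on `[0, 1.6]`
(the quotient right/left is at least 1.05): split `[0, 1.6]` into some intervals and use Bernstein
coefficients (identity by `ring`, nonnegative coefficients) or `nlinarith`. -/
def S_D1 : Prop := ∀ q : ℝ, 0 < q → q ≤ π / 2 →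
  13 / 5 * (sin q - q * cos q) ≤ (743 / 100 - q) * (q - sin q + 7 / 500) * sin q

/-- D2 (EASY-MEDIUM). Proof. The quotient right/left is at least 1.75. On `[π/2, 11/5]`:
`sin q - q cos q` is increasing (derivative `q sin q`), `q - sin q` is increasing, `sin q` and
`743/100 - q` are decreasing; split into 3 or 4 intervals, e.g. at `1.8, 2` (use `sin q = cos (q - π/2)`,
`cos q = - sin (q - π/2)` and Taylor bounds for `sin`, `cos` on `[0, 0.64]`). -/
def S_D2 : Prop := ∀ q : ℝ, π / 2 ≤ q → q ≤ 11 / 5 →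
  8 / 5 * (sin q - q * cos q) ≤ (743 / 100 - q) * (q - sin q + 7 / 500) * sin q

/-- D3 (EASY). Proof. `sin q = sin (π - q) <= π - q` gives it for `q >= 2.27`
(`2.6 (π - q) <= q` iff `q >= 2.6 π/3.6 = 2.269`); for `11/5 <= q <= 2.27` use that `sin` is decreasing on
`[π/2, π]` and `sin (11/5) = sin (π - 11/5) <= .8086` (`sin x <= x - x^3/6 + x^5/120`, `x = .9416`),
`2.6 * .8086 = 2.1024 <= 2.214`. -/
def S_D3 : Prop := ∀ q : ℝ, 11 / 5 ≤ q → q ≤ π → 13 / 5 * sin q ≤ q + 7 / 500

/-- DI (EASY-MEDIUM, uses S_D1, S_D2, S_D3). The dichotomy. Proof. `sin p, sin q > 0`. If `cos p <= 0`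
the left side is `<= 0` (`sin q - q cos q >= 0` on `[0, π]`) and the right side is positive. Let
`cos p > 0`. Case `q <= π/2`: `sin (p + q) <= sin p + sin q` (`cos <= 1`), so
`13/5 sin p > q - sin q + 7/500 > 0`; multiply: `cos p (sin q - q cos q) <= sin q - q cos q <=` (D1)
`(5/13)(743/100 - q)(q - sin q + 7/500) sin q <= (743/100 - q) sin p sin q`. Case `q > π/2`:
`cos q < 0` gives `sin (p + q) <= sin q`, so `8/5 sin p > q - sin q + 7/500`; also `p < π - q < π/2`, so
`sin p <= sin q` and `13/5 sin q > q + 7/500`, so by D3 `q < 11/5`; conclude with D2 as before. -/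
def S_DI : Prop := ∀ p q : ℝ, 0 < p → 0 < q → p + q < π →
  q + 7 / 500 < 8 / 5 * sin p + sin (p + q) →
  cos p * (sin q - q * cos q) ≤ (743 / 100 - q) * sin p * sin q

/-- HS (EASY). Proof. Expand `cos (p - w)`, `cos (p + q)`:
`HH w p q = sin p sin q (15/2 - sin w - q cos w) - cos w cos p (sin q - q cos q)
>= sin p sin q (15/2 - sin w - (743/100) cos w) >= 0`, because
`sin w + (743/100) cos w <= sqrt (1 + 7.43^2) < 15/2` (`7.43^2 + 1 = 56.2049 < 56.25`). -/
def S_HS : Prop := ∀ w p q : ℝ, 0 ≤ cos w → 0 ≤ sin p → 0 ≤ sin q →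
  cos p * (sin q - q * cos q) ≤ (743 / 100 - q) * sin p * sin q → 0 ≤ HH w p q

/-- BT (EASY-MEDIUM). The derivative (checked numerically). Proof. `W_der` (B01) gives the
derivative of `W κ k`; differentiate the quotient; with `w = W κ k ω`,
`sin w = k sin ω + sin κ cos ω`, everything is a polynomial identity in `sin, cos` of `ω, κ, w` (as in
`hasDerivAt_Phi_piece` and `outer_identity`): note `P = (π - ω + w + κ)/2`, `Q = (π - ω - w - κ)/2`,
`P + Q = π - ω`, `P - Q = w + κ`, `2 sin P sin Q = cos (w + κ) + cos ω`,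
`2 sin Q cos (P - w) = sin (P + Q - w) - sin (P - Q - w) = sin (ω + w) - sin κ`, `cos (P + Q) = - cos ω`,
so `2 HH = 15/2 (cos (w + κ) + cos ω) - sin (ω + w) + sin κ - (π - ω - w - κ) cos w cos ω`. -/
def S_BT : Prop := ∀ κ k : ℝ, |κ| < π / 2 → |k| < cos κ → ∀ ω ∈ Ioo 0 π,
  HasDerivAt (Bt κ k) (2 * HH (W κ k ω) ((π - ω + W κ k ω + κ) / 2) ((π - ω - W κ k ω - κ) / 2) /
    (cos (W κ k ω) * sin ω ^ 2)) ω

/-- CMP (EASY). Proof. Suppose `f x1 < min (f x0) C =: M`. The set of the `x` in `[x0, x1]` with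
`M <= f x` is closed and contains `x0`; let `s` be its supremum, `s < x1`. On `(s, x1]` we have
`f x < M <= C`, so `f' >= 0` there and `f` is monotone on `[s, x1]`: `M <= f s <= f x1`. Contradiction. -/
def S_CMP : Prop := ∀ (f f' : ℝ → ℝ) (x0 x1 C : ℝ), x0 ≤ x1 →
  (∀ x ∈ Icc x0 x1, HasDerivAt f (f' x) x) → (∀ x ∈ Icc x0 x1, f x < C → 0 ≤ f' x) →
  min (f x0) C ≤ f x1

/-- FIN (EASY). Proof. The left side is affine in `h`, so check `h = 1` and `h = cos w`. `h = 1`:
`cos w = sin (π/2 - w) >= (2/π)(π/2 - w)` (Jordan), so `(π/2 - w)/cos w <= π/2 < 1.5708`. `h = cos w`: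
`π/2 - w + 15/2 (1 - cos w) + 29/1000 <= 1.5998 - w + (15/4) w^2 <= 1.5998` if `w <= .26`, and
`sin w <= .257` gives `w <= .26` (`sin w >= w - w^3/6`, `sin` is increasing, `.26 - .26^3/6 > .257`). -/
def S_FIN : Prop := ∀ w h : ℝ, 0 ≤ w → w < π / 2 → sin w ≤ 257 / 1000 → cos w ≤ h → h ≤ 1 →
  h * (π / 2 - w) / cos w + 15 / 2 * (1 - h) + 29 / 1000 ≤ 8 / 5

/-! ### Circles -/

/-- PAR (EASY-MEDIUM). Proof. `|o.im| < r` by `abs_cy_lt`; `circ_param`, `upper_param`, `lower_param`
(B01) give `w, p, q`; `√(r² - o.im²) = r cos w`; `p = π/2 + w` or `p = 0` would give `a.im = 0`, the same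
for `q`. -/
def S_PAR : Prop := ∀ (a b o : ℂ) (r : ℝ), 0 < a.im → b.im < 0 → dist o a = r → dist o b = r →
  ∃ w p q, Par a b o r w p q ∧ |o.im| < r ∧ xL o r = o.re - r * cos w ∧ xR o r = o.re + r * cos w ∧
    0 < p ∧ p < π / 2 + w ∧ 0 < q ∧ q < π / 2 - w

/-- CH (EASY-MEDIUM). The chords. Proof. Coordinates: `(cos x - cos y)^2 + (sin x - sin y)^2 =
(2 sin ((x - y)/2))^2`; the left end of the axis has the angle `π + w` on the upper arc (parameter
`p = π/2 + w`) and `π - w` on the lower arc, the right end has the parameters `p = 0`, `q = 0`. All sines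
are nonnegative in the given ranges. The last one is `OnC.dist_ab`. -/
def S_CH : Prop := ∀ (a b o : ℂ) (r w p q : ℝ), Par a b o r w p q →
  dist (((o.re - r * cos w : ℝ)) : ℂ) a = 2 * r * sin (π / 2 + w - p) ∧
  dist (((o.re - r * cos w : ℝ)) : ℂ) b = 2 * r * sin (π / 2 - w - q) ∧
  dist (((o.re + r * cos w : ℝ)) : ℂ) a = 2 * r * sin p ∧
  dist (((o.re + r * cos w : ℝ)) : ℂ) b = 2 * r * sin q ∧
  dist a b = 2 * r * sin (p + q)

/-- PEN (MEDIUM). Parametrization of the pencil. Proof. As in `pencil_step` (B01, whose proof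
contains all formulas): take `w, p, q` for `(o, r)` (S_PAR), `κ = w - p + q`, `ω = p + q`, `m = r sin ω`,
`k = (sin w - cos ω sin κ)/sin ω`, `M = (a.re + b.re)/2`; `a = (M + m sin κ, m (k + cos κ))`,
`b = (M - m sin κ, m (k - cos κ))`, so `|κ| < π/2`, `|k| < cos κ`. `Pen`: for every `ω ∈ (0, π)` the numbers
satisfy `OnC` (`W_range` for the ranges, coordinates by trigonometry). The centre `o'` is on the
bisector: `o' = (a + b)/2 + s' n`, `n = (cos κ, - sin κ)`, `o = (a + b)/2 + s n` with `s = - m cot ω`; the last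
condition of `Fw` says `(s' - s) >= 0`; let `ω' ∈ (0, π)` with `- m cot ω' = s'`. -/
def S_PEN : Prop := ∀ (a b o : ℂ) (r : ℝ) (o' : ℂ) (r' : ℝ), Fw a b o r o' r' →
  ∃ κ k m M ω ω', Pen a b κ k m M ∧ Mem κ k m M ω o r ∧ Mem κ k m M ω' o' r' ∧ ω ≤ ω'

/-- MF (EASY). Proof. `a - b = (2 m sin κ, 2 m cos κ)` and the centre is
`(M, m k) - m cot ω (cos κ, - sin κ)` (from `OnC` for the two parameters), `- cot` is increasing on
`(0, π)`; distances from `OnC` (`OnC.sq_a`, `OnC.sq_b`); `0 < a.im`, `b.im < 0` are hypotheses. -/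
def S_MF : Prop := ∀ (a b : ℂ) (κ k m M ω ω' : ℝ) (o : ℂ) (r : ℝ) (o' : ℂ) (r' : ℝ), 0 < a.im →
  b.im < 0 → Pen a b κ k m M → Mem κ k m M ω o r → Mem κ k m M ω' o' r' → ω ≤ ω' →
  Fw a b o r o' r'

/-- FWO (EASY). Proof. `f z = |z - o|² - r²`, `f' z = |z - o'|² - r'²`; `f - f'` is affine and vanishes
at `a, b`, so `o' - o = τ n` with `n = (a.im - b.im, -(a.re - b.re))` and `f z - f' z = 2 τ n·(z - b)`.
`n·(c - b) = - cr b a c > 0` and `f c >= 0 = f' c`, so `τ >= 0` (if `2 τ n·(c-b) >= 0`), and the last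
condition of `Fw` is `τ |n|² >= 0`. (No need to introduce `τ`: the two equations
`(o' - o)·(a - b) = 0`, `(o' - o)·(c - b) >= 0` are linear.) -/
def S_FWO : Prop := ∀ (a b c o : ℂ) (r : ℝ) (o' : ℂ) (r' : ℝ), 0 < a.im → b.im < 0 →
  dist o a = r → dist o b = r → dist o' a = r' → dist o' b = r' → dist o' c = r' →
  r ≤ dist o c → cr b a c < 0 → Fw a b o r o' r'

/-- FWM (EASY-MEDIUM). The intersections with the axis move to the right. Proof. Symbols of
FWO, `τ >= 0`. `L = (xL o r, 0)` satisfies `f L = 0` and `L` is left of the crossing point `X` of `a b`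
(`X` is inside the circle, `cross_in`), so `n·(L - b) = - cr b a L < 0` and `f' L = - 2 τ n·(L - b) >= 0`:
`L` is not inside the second circle and left of `X`, so `xL o r <= xL o' r'`. In the same way
`R' = (xR o' r', 0)` satisfies `f' R' = 0`, `n·(R' - b) > 0`, `f R' >= 0`, so `xR o r <= xR o' r'`. -/
def S_FWM : Prop := ∀ (a b o : ℂ) (r : ℝ) (o' : ℂ) (r' : ℝ), Fw a b o r o' r' →
  xL o r ≤ xL o' r' ∧ xR o r ≤ xR o' r'

/-- FWX (EASY, uses S_FWM). A long edge does not change the side of the centre. Proof. Let `o''` be the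
point of the segment `o o'` on the axis, `r'' = |o'' - a| = |o'' - b|`. Then `Fw a b o r o'' r''` and
`Fw a b o'' r'' o' r'`, so by FWM `0 <= xL o r <= o''.re - r''` and `o''.re + r'' <= xR o' r' <= 1`, so
`2 r'' <= 1` and `|ab| <= 2 r''`. -/
def S_FWX : Prop := ∀ (a b o : ℂ) (r : ℝ) (o' : ℂ) (r' : ℝ), Fw a b o r o' r' → Ax o r →
  Ax o' r' → (o.im ≤ 0 ∧ 0 ≤ o'.im ∨ 0 ≤ o.im ∧ o'.im ≤ 0) → dist a b ≤ 1

/-- HD (EASY). Proof. `(a.re - o.re)² + a.im² = r² - o.im² + 2 a.im o.im <= r² - o.im²`, so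
`(a.re - xL)(a.re - xR) + a.im² <= 0`, so `xL <= a.re <= xR` and, as `0 <= xL`, `xR <= 1`,
`a.re (a.re - 1) + a.im² <= 0`: `|a|² + |a - 1|² <= 1`. -/
def S_HD : Prop := ∀ (a o : ℂ) (r : ℝ), Ax o r → o.im ≤ 0 → dist o a = r → 0 < a.im →
  dist 0 a < 1 ∧ dist a 1 < 1 ∧ dist 0 a + dist a 1 ≤ 8 / 5

/-- MA (EASY). The lower arc is the minor arc. Proof. By HD reflected (`b.im < 0`, `0 <= o.im`) the
points `b, b'` (also a point of the axis on the circle) are in the closed disc with diameter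
`[xL, xR]`, whose diameter is `<= 1`. (`(z.re - c)² + z.im² <= h²` with `c = o.re`, `h² = r² - o.im²`, for
both points; the distance is at most `2 h <= 1`.) -/
def S_MA : Prop := ∀ (b b' o : ℂ) (r : ℝ), Ax o r → 0 ≤ o.im → dist o b = r → dist o b' = r →
  b.im ≤ 0 → b'.im ≤ 0 → dist b b' ≤ 1

/-- RB (EASY). Proof. Let `h = √(r² - o.im²)`, `2h = xR - xL <= 1`. `h² = r² - o.im² >=
(1 - .257²) r² > .9339 * r²`, so `r² < .25/.9339`, `r <= .5174`, and `h² > .9339/4`, `2h > .966`, so
`xL + (1 - xR) = 1 - 2h < .034`. If `o.im = 0` then `2r = 2h <= 1`. -/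
def S_RB : Prop := ∀ (o : ℂ) (r : ℝ), Ax o r → 1 / 2 < r → |o.im| ≤ 257 / 1000 * r →
  r ≤ 5174 / 10000 ∧ xL o r ≤ 34 / 1000 ∧ 966 / 1000 ≤ xR o r ∧ o.im ≠ 0

/-! ### The left bound -/

/-- L0 (EASY). Proof. Parameter `q` of `b` (`lower_param`), `xL = o.re - r cos w = 0` is the left
intersection, `dist 0 b = 2 r sin Q <= 2 r Q`, `Q = π/2 - w - q >= 0`. -/
def S_L0 : Prop := ∀ (b o : ℂ) (r : ℝ), 0 < r → |o.im| < r → dist o b = r → b.im < 0 →
  xL o r = 0 → LB o r b (dist 0 b)

/-- LM (EASY-MEDIUM). Proof. Let `p, q` be the parameters of `a, b` and `q'` the one of `b'`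
(`lower_param`; `w = arcsin (o.im/r)` is the same). `G3a_cr_low`:
`cr b a b' = 4 r² sin (p + q') sin (q' - q) sin (p + q) < 0` gives `q' < q` (`G3a_lt`);
`dist b b' <= 2 r (q - q')` by `chord_low`. (The `q` in `LB` is the parameter of `b`, it can be used
directly.) -/
def S_LM : Prop := ∀ (a b b' o : ℂ) (r D : ℝ), dist o a = r → dist o b = r →
  dist o b' = r → 0 < a.im → b.im < 0 → b'.im < 0 → cr b a b' < 0 → LB o r b D →
  LB o r b' (D + dist b b')

/-- AL (MEDIUM, uses S_DI, S_HS, S_BT, S_CMP, S_PEN, S_MF, S_FWM, S_CH, S_PAR). The pencil step for a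
short edge. Proof. Take the pencil (PEN) with `(o, r)` at `ω0`, `(o', r')` at `ω1`. For `ω ∈ [ω0, ω1]` let
`w = W κ k ω`, `P = π/2 + w - p`, `Q = π/2 - w - q`, `r(ω) = m/sin ω`, `x(ω) = pc - r(ω) cos w` the left
intersection and `B(ω) = 2 r(ω) Q + 15/2 x(ω) + 29/2000 = m Bt κ k ω + 15/2 M + 29/2000`. The bound `LB`
at `o` resp. `o'` is `D <= B(ω0)` resp. `D <= B(ω1)` (the parameters `w, q` of a lower point are unique).
Let `C = 8/5 |a| + |ab|`. By CMP it is enough to show: if `B(ω) < C` then the derivative of `B` at `ω` is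
`>= 0`, i.e. (BT) `HH w P Q >= 0`. `x(ω) >= xL o r >= 0` (MF, FWM) and `r(ω) <= max r r' <= .5174`
(`sin ω >= min (sin ω0) (sin ω1)`, concavity). `|a| <= x + 2r sin P`, `|ab| = 2r sin (P + Q)` (CH), so
`B(ω) < C` gives `2rQ + 29/2000 < 8/5 * 2r sin P + 2r sin (P + Q)` (as `8/5 x <= 15/2 x`), and division by
`2r <= 1.0348` gives `Q + 7/500 < 8/5 sin P + sin (P + Q)` (`.0145/1.0348 > .014`). DI (with `P, Q > 0`,
`P + Q = π - ω < π`) and HS give the claim. -/
def S_AL : Prop := ∀ (a b o : ℂ) (r : ℝ) (o' : ℂ) (r' D : ℝ), Fw a b o r o' r' → Ax o r →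
  Ax o' r' → r ≤ 5174 / 10000 → r' ≤ 5174 / 10000 → D ≤ 8 / 5 * dist 0 a + dist a b →
  LB o r b D → LB o' r' b D

/-- AM (MEDIUM, uses S_HS, S_BT, S_PEN, S_MF, S_FWM, S_CH, S_PAR). The pencil step if `a` is not near
`0`. Proof. As in AL, now we show `HH w P Q >= 0` for all `ω ∈ [ω0, ω1]`, so `B(ω0) <= B(ω1)`. The
imaginary part of the centre is affine in `- cot ω`, so it is `>= 0` on `[ω0, ω1]`, `w >= 0`. The left
intersection satisfies `0 <= x(ω) <= xL o' r' <= .034`, `r(ω) <= .5174`, so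
`2 r sin P = |a - x| >= .21 - .034 = .176`, `sin P >= .17`, `cos P <= √(1 - .17²) <= .9855 <= 5.859 sin P`.
`0 < Q <= π/2` as `w >= 0`, so `cos Q >= 0` and `cos P (sin Q - Q cos Q) <= max 0 (cos P) sin Q <=
5.859 sin P sin Q <= (743/100 - Q) sin P sin Q` (`Q <= π/2 < 1.571`). Now HS. -/
def S_AM : Prop := ∀ (a b o : ℂ) (r : ℝ) (o' : ℂ) (r' D : ℝ), Fw a b o r o' r' → Ax o r →
  Ax o' r' → r ≤ 5174 / 10000 → r' ≤ 5174 / 10000 → 0 ≤ o.im → 0 ≤ o'.im →
  xL o' r' ≤ 34 / 1000 → 21 / 100 ≤ dist 0 a → LB o r b D → LB o' r' b D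

/-- SUM (EASY-MEDIUM, uses S_FIN, S_RB). The left bound and its mirror image at a large circle.
Proof. The parameters: `w, q` from the first `LB`; the mirror image of `b` has on the mirror image of
the circle (centre `mir o`, same `w`) the parameter `π/2 - w - q` (unique). So
`D + D' <= 2 r (π/2 - w) + 15/2 (xL + 1 - xR) + 29/1000` with `xL = o.re - r cos w`,
`xR = o.re + r cos w`; put `h = xR - xL = 2 r cos w <= 1`; `r > 1/2` gives `h > cos w`. `w >= 0` as
`0 <= o.im`, `sin w <= 257/1000`. So this is FIN. -/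
def S_SUM : Prop := ∀ (o b : ℂ) (r D D' : ℝ), Ax o r → 1 / 2 < r → 0 ≤ o.im →
  |o.im| ≤ 257 / 1000 * r → dist o b = r → b.im < 0 → LB o r b D → LB (mir o) r (mir b) D' →
  D + D' ≤ 8 / 5

/-! ### Chains -/

/-- CF (MEDIUM, uses S_FWO). Facts of chains. Proof. `0 < r i` (two different points on the circle),
`|(o i).im| < r i` (`abs_cy_lt`; the circle `i` contains `a i, b i` or (`i = n + 1`) `a n, b n`). The
crossing point `X_i` of `a i, b i` satisfies `0 < X_0 < X_1 < ... < X_n < 1` (`f0`, `f1`, `step`,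
`cr_axis_pos`, `cr_axis_neg`, `X_lt_up`, `X_lt_low`). `0` and `1` are in `S`, so not inside the circle,
and `X_i` (resp. `X_(i-1)`) is inside: so `0 <= xL` and `xR <= 1` (as in `right_of`). `Fw`: by FWO with the
point `c` = the new one of `a (i+1), b (i+1)` (or `1` if `i = n`), which is on the circle `i + 1` and not
inside the circle `i` (`emp`). -/
def S_CF : Prop := ∀ (S : Finset ℂ) (G : ℂ → ℂ → Prop) (n : ℕ) (a b o : ℕ → ℂ) (r : ℕ → ℝ),
  Ctx S G → Chain S n a b o r → (∀ i ≤ n + 1, Ax (o i) (r i)) ∧ (xL (o 0) (r 0) = 0) ∧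
    ∀ i ≤ n, Fw (a i) (b i) (o i) (r i) (o (i + 1)) (r (i + 1))

/-- MO (EASY, uses S_CF, S_FWM). Proof. Induction on `j`. -/
def S_MO : Prop := ∀ (S : Finset ℂ) (G : ℂ → ℂ → Prop) (n : ℕ) (a b o : ℕ → ℂ) (r : ℕ → ℝ),
  Ctx S G → Chain S n a b o r → ∀ i j, i ≤ j → j ≤ n + 1 →
    xL (o i) (r i) ≤ xL (o j) (r j) ∧ xR (o i) (r i) ≤ xR (o j) (r j)

/-- BIG (EASY, uses S_CF, S_RB). Proof. `block` and RB for the circles with `1/2 < r i`. -/
def S_BIG : Prop := ∀ (S : Finset ℂ) (G : ℂ → ℂ → Prop) (n : ℕ) (a b o : ℕ → ℂ) (r : ℕ → ℝ),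
  Ctx S G → Chain S n a b o r → ∀ i ≤ n + 1, r i ≤ 5174 / 10000 ∧ (1 / 2 < r i →
    |(o i).im| ≤ 257 / 1000 * r i ∧ xL (o i) (r i) ≤ 34 / 1000 ∧ 966 / 1000 ≤ xR (o i) (r i) ∧
    (o i).im ≠ 0)

/-- CE (MEDIUM-HARD). Existence of the chain. Proof. `DSys.of_general` (G9b) gives a `DSys` with
`Tri a b c` (points of `S`, not collinear, on an empty circle) and `Adj` (on an empty circle).
`start` for `0, 1`: if `Adj 0 1` then `G 0 1` (`edge`, `dist 0 1 = 1`). Otherwise there is `Tri 0 b' a'`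
with `0 < cr 0 b' a'`, `0 <= cr 0 b' 1`, `0 <= cr 0 1 a'`, i.e. `b'.im <= 0 <= a'.im`; if `b'.im = 0` or
`a'.im = 0` then this point is `1` (no three collinear points) and `0, 1` are on an empty circle: `G 0 1`.
So `b'.im < 0 < a'.im`, circle 0 is the circle of `0, a', b'`. Then walk: for a state (`a, b` on an empty
circle with a third point `e` behind, `0 < cr b a e`, `Tri a b e`, crossing point `X < 1`) `flip` with
`s = 1` gives `c`, `Tri a b c`, `cr b a c < 0`, on a common empty circle (`o', r'`). `c.im = 0` only for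
`c = 1` (collinear with `0, 1` otherwise; `c ≠ 0` as `cr b a 0 > 0`, because `X > 0`): end. Otherwise
replace `a` or `b` by `c`. Termination: the crossing point increases, finitely many pairs (`ahead`,
`ahead_card_lt`; compare `walk_state` and `next_axis` in G7a, whose proofs contain all the steps). To
get the sequences: prove by strong induction on `(ahead S (X a b)).card` that from each state there is
a finite continuation (functions `ℕ → ℂ` with `a 0 = a`, `b 0 = b`, ... satisfying the conditions of `Chain`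
except `o0`, `f0`, with `o 0 = o`, `r 0 = r` given), prepend with `Nat.casesOn`. -/
def S_CE : Prop := ∀ (S : Finset ℂ) (G : ℂ → ℂ → Prop), Ctx S G →
  G 0 1 ∨ ∃ (n : ℕ) (a b o : ℕ → ℂ) (r : ℕ → ℝ), Chain S n a b o r

/-- RT (EASY). Transport of paths. Proof. Induction on `Reach`; both maps are isometries; for the
third one reverse the path (`G` symmetric; `reach_trans`). -/
def S_RT : Prop := ∀ (G : ℂ → ℂ → Prop),
  (∀ x y D, Reach (fun u v => G (mir u) (mir v)) x y D → Reach G (mir x) (mir y) D) ∧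
  (∀ x y D, Reach (fun u v => G ((starRingEnd ℂ) u) ((starRingEnd ℂ) v)) x y D →
    Reach G ((starRingEnd ℂ) x) ((starRingEnd ℂ) y) D) ∧
  ((∀ u v, G u v → G v u) → ∀ x y D, Reach G x y D → Reach G y x D)

/-- XM (EASY-MEDIUM, uses S_RT). Mirror image of the situation. Proof. `mir` is an isometric
involution, `(mir z).re = 1 - z.re`, `(mir z).im = z.im`, `mir 0 = 1`, `cr (mir a) (mir b) (mir c) =
- cr a b c`, `xL (mir o) r = 1 - xR o r`. `ih0` and `ih1` are exchanged (`Reach` is reversed by RT).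
For the transport of `Reach G` to the mirrored relation apply RT to the mirrored relation. -/
def S_XM : Prop := ∀ (S : Finset ℂ) (G : ℂ → ℂ → Prop), Ctx S G →
  Ctx (S.image mir) (fun u v => G (mir u) (mir v))

/-- XC (EASY-MEDIUM, uses S_RT). The same for the complex conjugation, which fixes `0, 1`. -/
def S_XC : Prop := ∀ (S : Finset ℂ) (G : ℂ → ℂ → Prop), Ctx S G →
  Ctx (S.image (starRingEnd ℂ)) (fun u v => G ((starRingEnd ℂ) u) ((starRingEnd ℂ) v))

/-- CM (EASY-MEDIUM). Mirror image of a chain (reversed). Proof. Directly; for `step` at `i` use the old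
one at `n - i - 1`: `cr (mir x) (mir y) (mir z) = - cr x y z` and the antisymmetry of `cr`. -/
def S_CM : Prop := ∀ (S : Finset ℂ) (n : ℕ) (a b o : ℕ → ℂ) (r : ℕ → ℝ), Chain S n a b o r →
  Chain (S.image mir) n (fun i => mir (a (n - i))) (fun i => mir (b (n - i)))
    (fun i => mir (o (n + 1 - i))) (fun i => r (n + 1 - i))

/-- CC (EASY). Conjugate chain (`a` and `b` exchanged). Proof. Directly,
`cr (conj x) (conj y) (conj z) = - cr x y z = cr y x z`. -/
def S_CC : Prop := ∀ (S : Finset ℂ) (n : ℕ) (a b o : ℕ → ℂ) (r : ℕ → ℝ), Chain S n a b o r →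
  Chain (S.image (starRingEnd ℂ)) n (fun i => (starRingEnd ℂ) (b i))
    (fun i => (starRingEnd ℂ) (a i)) (fun i => (starRingEnd ℂ) (o i)) r

/-- LL (MEDIUM, uses S_CF, S_MO, S_BIG, S_L0, S_LM, S_AL, S_AM, S_FWX, S_HD, S_MA). The left lemma.
Proof. Induction on `i` for both statements together. Start: `b 0` on the circle 0 (through `0`,
`xL = 0`): `dist 0 (b 0) <= 1` (if `r 0 <= 1/2` it is a chord; else `Up` and MA), so `G 0 (b 0)` (`edge`);
L0. Pencil step from `(o i, r i)` to `(o (i+1), r (i+1))` (second statement from the first): let `D` be the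
bound at the circle `i`, `a = a i`, `b = b i`. Case `|ab| <= 1`, `|a| + |a - 1| <= 8/5`, `|a| < 1`: `ih0` and
the edge `a b` give a path of length `<= 8/5 |a| + |ab|` to `b`; take the shorter one of the two paths
and AL. Case `|ab| <= 1` and (`|a| + |a-1| > 8/5` or `|a| >= 1`): `|a| >= 21/100` (as `|a-1| <= |a| + 1`) and
both centres have positive imaginary part by HD; AM. Case `|ab| > 1`: `2 r >= |ab| > 1` for both circles,
so by `Up` both centres are above the axis; `¬ LP` gives `|a| >= 21/100`; AM. Edge step (first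
statement for `i + 1` from the second one for `i`): if `b (i+1) = b i` nothing; if `a (i+1) = a i` then
`b i, b (i+1)` are on the circle `i + 1`, `dist <= 1` (chord of a circle with `r <= 1/2`, or `Up` and MA), so
`G (b i) (b (i+1))` (`b i ≠ b (i+1)` as `cr (b i) (a i) (b i) = 0`) and LM. The hypothesis on `xL` is
inherited downwards by MO. -/
def S_LL : Prop := ∀ (S : Finset ℂ) (G : ℂ → ℂ → Prop) (n : ℕ) (a b o : ℕ → ℂ) (r : ℕ → ℝ),
  Ctx S G → Chain S n a b o r → Up n o r → ∀ i ≤ n,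
    ((∀ j < i, ¬ LP a b j) → xL (o i) (r i) ≤ 34 / 1000 →
      ∃ D, Reach G 0 (b i) D ∧ LB (o i) (r i) (b i) D) ∧
    ((∀ j ≤ i, ¬ LP a b j) → xL (o (i + 1)) (r (i + 1)) ≤ 34 / 1000 →
      ∃ D, Reach G 0 (b i) D ∧ LB (o (i + 1)) (r (i + 1)) (b i) D)

/-- NB (EASY-MEDIUM, uses S_PAR, S_CH, S_RB). The lower end of a long edge with upper end near `0` is
near the right intersection, the upper end is near the left one. Proof. Parameters `w > 0`
(`sin w <= .257`, so `w <= .26`), `p, q`, `P, Q`. `2r sin P = |a - xL| <= .21 + .034 = .244`, `2r > 1`: `sin P <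
.244`, so `P < .2468` (`P <= π/2 + w`, so `P > π - .2468` is impossible). `1 < |ab| = 2r sin (p + q)` and
`2r cos w <= 1` give `sin (p + q) > cos w`, so `p + q < π/2 + w`, so `q < P < .2468`.
`b = xR - 2r sin q (sin (q + w), cos (q + w))`: `xR - b.re = 2 r sin q sin (q + w)`,
`- b.im = 2 r sin q cos (q + w)`, `2 r sin q <= 1.0348 * .244 < .26`, `0 <= tan (q + w) <= tan .507 < .56`.
`a = xL + 2r sin P (sin (P - w), cos (P - w))`, `|tan (P - w)| <= tan .26 < .27`. -/
def S_NB : Prop := ∀ (a b o : ℂ) (r : ℝ), Ax o r → 1 / 2 < r → 0 < o.im →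
  |o.im| ≤ 257 / 1000 * r → dist o a = r → dist o b = r → 0 < a.im → b.im < 0 →
  1 < dist a b → dist 0 a < 21 / 100 →
  (-b.im ≤ 26 / 100 ∧ 0 ≤ xR o r - b.re ∧ xR o r - b.re ≤ 56 / 100 * (-b.im)) ∧
  (a.im ≤ 26 / 100 ∧ |a.re - xL o r| ≤ 27 / 100 * a.im)

/-- OC (EASY). Pure algebra. Proof. `β u' <= ...`: (1) `γ v >= - β u >= - .56 β v`, so `γ >= - .56 β`;
(2) `γ v' <= β u' <= .56 β v'`, so `γ <= .56 β`; so `|γ (v - v')| <= .56 β * .26`, and
`β (t - u - u') <= γ (v - v')` with `t - u - u' >= .93 - 2 * .56 * .26 > .63 > .56 * .26`: `β <= 0`, so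
`β = 0` and `γ = 0`. -/
def S_OC : Prop := ∀ β γ t u v u' v' : ℝ, 0 ≤ β → 93 / 100 ≤ t → 0 < v → v ≤ 26 / 100 → 0 < v' →
  v' ≤ 26 / 100 → |u| ≤ 56 / 100 * v → |u'| ≤ 56 / 100 * v' → 0 ≤ β * u + γ * v →
  0 ≤ β * u' - γ * v' → β * (t - u - u') ≤ γ * (v - v') → β = 0 ∧ γ = 0

/-- ON (MEDIUM, uses S_CF, S_MO, S_BIG, S_NB, S_OC). `LP` and `RP` do not occur in the same chain.
Proof. Let `LP i`, `RP j`. Both edges are long, so the circles `i` and `j` are large, centres above the
axis (`Up`), near-diametral (BIG). `i = j` is impossible (`|a| < .21`, `|a - 1| < .21`). RP is LP for the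
mirror image: NB for the mirrored circle and points gives that `b j` is near the left intersection of the
circle `j` and `a j` near its right intersection. Let `f_i z = |z - o i|² - (r i)²`; for two circles
`i < j` the function `ℓ = f_i - f_j = α + β x + γ y` is affine, `β = 2 (re (o j) - re (o i)) >= 0` (MO, the
real part of the centre is `(xL + xR)/2`), `ℓ <= 0` in `a i, b i` (`f_i = 0`, `f_j >= 0` by `emp`) and in the
left intersection of the circle `j` (it is in `[xL_i, xR_i]`), `ℓ >= 0` in `a j, b j` and in the right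
intersection of the circle `i`. Case `LP i`, `RP j`, `i < j`: apply OC with `t = xR_i - xL_j`,
`b i = (xR_i - u, - v)`, `b j = (xL_j + u', - v')`: `ℓ(xR_i) - ℓ(b i) = β u + γ v >= 0`,
`ℓ(b j) - ℓ(xL_j) = β u' - γ v' >= 0`, `ℓ(b i) <= ℓ(b j)`. Case `RP i`, `LP j`, `i < j`: the same with the
upper points `a i = (xR_i - u, v)`, `a j = (xL_j + u', v')` and `- γ` for `γ`. So `β = γ = 0`: the centres
are equal and `ℓ = α` with `ℓ(xL_j) <= 0 <= ℓ(xR_i)`: the circles are equal, and `a i, b i, a j, b j` are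
four different points on it (`a i, a j` are near different ends, the `b` also): contradiction to `nc4`. -/
def S_ON : Prop := ∀ (S : Finset ℂ) (G : ℂ → ℂ → Prop) (n : ℕ) (a b o : ℕ → ℂ) (r : ℕ → ℝ),
  Ctx S G → Chain S n a b o r → Up n o r → ∀ i ≤ n, ∀ j ≤ n, LP a b i → RP a b j → False

/-- PA (EASY-MEDIUM, uses S_LL, S_XM, S_CM, S_RT, S_BIG, S_CF, S_SUM). Proof. The circle `i` is large:
BIG. Left bound for the circle `i` and the point `b' = b (i - 1)` (`b 0` if `i = 0`): LL, second statement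
for `i - 1` (first statement for `i = 0`). Right bound: the mirror image of the chain (XM, CM; `Up` is
inherited) at the index `n + 1 - i`, first statement of LL for the point `mir (b (i - 1))`,
`i - 1 = n - (n + 1 - i)` (for `i = 0`: second statement for the index `n`, point `mir (b 0)`); `LP` of the
mirror image at `j` is `RP` of the chain at `n - j`; `xL` of the mirror image is `1 - xR <= .034`. The path
from `0` of the mirror image is a path from `b'` to `1` (RT). Add the two paths (`reach_trans`) and use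
SUM. -/
def S_PA : Prop := ∀ (S : Finset ℂ) (G : ℂ → ℂ → Prop) (n : ℕ) (a b o : ℕ → ℂ) (r : ℕ → ℝ),
  Ctx S G → Chain S n a b o r → Up n o r → ∀ i ≤ n + 1, 1 / 2 < r i → (∀ j < i, ¬ LP a b j) →
    (∀ j, i ≤ j → j ≤ n → ¬ RP a b j) → ∃ D, Reach G 0 1 D ∧ D ≤ 8 / 5

/-- PB (EASY-MEDIUM, uses S_PA, S_ON, S_XM, S_CM, S_RT). Proof. If there is an `LP` index `i ≤ n`, take the
smallest one: the circle `i` contains the long edge, so `r i > 1/2`; no `RP` at all (ON): PA. If there
is no `LP` but an `RP` index: the mirror image has an `LP` index and no `RP` (the conclusion is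
transported back with RT). If there is neither: PA with the given index. -/
def S_PB : Prop := ∀ (S : Finset ℂ) (G : ℂ → ℂ → Prop) (n : ℕ) (a b o : ℕ → ℂ) (r : ℕ → ℝ),
  Ctx S G → Chain S n a b o r → Up n o r → (∃ i ≤ n + 1, 1 / 2 < r i) →
    ∃ D, Reach G 0 1 D ∧ D ≤ 8 / 5

/-- PO (MEDIUM, uses S_CF). The potential. Proof. All circles have `r i <= 1/2`, so any two points
of `S` on the circle `i` have distance `<= 1` and are joined in `G` (`edge`) if different. As in
`walk_state` (G7a) but along the chain: for `i <= n` there are `Da, Db, w, p, q` with `Reach G 0 (a i) Da`,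
`Reach G 0 (b i) Db`, `|Da - Db| <= dist (a i) (b i)`, `Par` for the circle `i` and
`P.V (o i).re (r i) w p q Da Db <= 0`. Start: `V_start` with `z = 0` (the left intersection of the circle
0, S_CF; `Da = |a 0|`, `Db = |b 0|`). Step: `pencil_step` with `c` = the new point (the new centre is
`o (i+1)`), then `move_A` or `move_B` with `Dc = min (Da + |ac|) (Db + |bc|)` etc. exactly as in `walk_state`.
End: at the circle `n + 1` (after `pencil_step` with `c = 1`) `V_end` with `z = 1` (the right intersection,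
`right_eq`): `D - 8/5 <= 0` for `D = min (Da + |a 1|) (Db + |b 1|)`. -/
def S_PO : Prop := ∀ (_ : Pot (8 / 5)) (S : Finset ℂ) (G : ℂ → ℂ → Prop) (n : ℕ) (a b o : ℕ → ℂ)
  (r : ℕ → ℝ), Ctx S G → Chain S n a b o r → (∀ i ≤ n + 1, r i ≤ 1 / 2) →
    ∃ D, Reach G 0 1 D ∧ D ≤ 8 / 5

/-- TH (MEDIUM, uses S_CF, S_BIG, S_FWX, S_FWM). Slope. Proof. Let `s = 153/20 = 7.65` and
`T i = (o i).im - s (o i).re`. (1) A large circle with centre below the axis has `T < - s/2`: let
`sin w = |im|/r <= .257`, `h = xR - xL = 2 r cos w`, `re = (xL + xR)/2`; `sin w >= s (1 - cos w)` (since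
`(1 + cos w)/sin w >= 1.9664/.257 > s`), so `- im = r sin w > (1/2) sin w`... precisely
`- im = r sin w`, `1 - h = 1 - 2 r cos w < 1 - cos w` and `r > 1/2`, so
`- im > (1/2) sin w >= (s/2)(1 - cos w) > (s/2)(1 - h)`, so
`T = im - s re < - (s/2)(xL + 1 - xR) - (s/2)(xL + xR) = - (s/2)(1 + 2 xL) <= - s/2`. (If `w = 0` then
`r <= 1/2`.) (2) In the same way a large circle with centre above has
`T > (s/2)(xL + 1 - xR) - (s/2)(xL + xR) = (s/2)(1 - 2 xR) >= - s/2`. (3) Suppose no `k` as claimed exists.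
By induction `T k < - s/2` for `i <= k <= j`, which contradicts (2) for `k = j`. Step: if
`|a k b k| <= 1` then `(b k).re - (a k).re <= s ((a k).im - (b k).im)`; the centre moves by
`τ (a.im - b.im, - (a.re - b.re))`, `τ >= 0` (`Fw` and the equal distances), so
`Δ im = τ (b.re - a.re) <= s τ (a.im - b.im) = s Δ re` and `T (k+1) <= T k`. If `|a k b k| > 1` then the circles
`k` and `k + 1` are large; by (2) the centre `k` is below the axis, by FWX so is the centre `k + 1` (centre
`≠ 0` by BIG), and (1) applies. -/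
def S_TH : Prop := ∀ (S : Finset ℂ) (G : ℂ → ℂ → Prop) (n : ℕ) (a b o : ℕ → ℂ) (r : ℕ → ℝ),
  Ctx S G → Chain S n a b o r → ∀ i j, i < j → j ≤ n + 1 → 1 / 2 < r i → (o i).im < 0 →
    1 / 2 < r j → 0 < (o j).im → ∃ k, i ≤ k ∧ k < j ∧ dist (a k) (b k) ≤ 1 ∧
      153 / 20 * ((a k).im - (b k).im) < (b k).re - (a k).re

/-- DR (EASY-MEDIUM). A nearly horizontal chord of a near-diametral circle. Proof. Let `c = o.re`,
`h = √(r² - o.im²)`, `2h = xR - xL ∈ [.932, 1]`, `y = o.im`. `a.im - b.im < 20/153 < .131` (as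
`b.re - a.re <= 1`), both `a.im > 0`, `- b.im > 0`. For `z` on the circle `(z.re - c)² = h² + 2 y z.im -
z.im²`; for `z = a, b`: `|2 y z.im - z.im²| <= |z.im| (.364 + .131) <= .065`, so `|z.re - c| >=
√(.2171 - .065) > .38`. If `a.re, b.re` were on the same side of `c`:
`|a.re - b.re| * .76 <= |(a.re-c)² - (b.re-c)²| = (a.im - b.im) |2y - a.im - b.im| <= (a.im - b.im) * .63`,
contradiction to the slope. So `a.re < c < b.re` (`a.re < b.re`), and
`|a.re - xL| = |h - |a.re - c|| = |h² - (a.re-c)²|/(h + |a.re - c|) <= a.im * .495/(.466 + .38) <= .6 a.im`.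
So `|a| <= xL + .6 a.im + a.im`, in the same way `|b - 1| <= (1 - xR) + 1.6 |b.im|`: sum
`<= .068 + 1.6 * .131 < .3`. -/
def S_DR : Prop := ∀ (a b o : ℂ) (r : ℝ), Ax o r → |o.im| ≤ 182 / 1000 → xL o r ≤ 34 / 1000 →
  966 / 1000 ≤ xR o r → dist o a = r → dist o b = r → 0 < a.im → b.im < 0 → dist a b ≤ 1 →
  153 / 20 * (a.im - b.im) < b.re - a.re → dist 0 a + dist b 1 ≤ 3 / 10

/-- MX (EASY-MEDIUM, uses S_TH, S_DR, S_MO, S_BIG, S_CF). Large circles on both sides. Proof. Take `k` from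
TH. The circle `k` has `xL <= xL (o j) <= .034`, `xR >= xR (o i) >= .966` (MO, BIG), and
`|(o k).im| <= .182`: if `r k > 1/2` then `<= .257 * .5174`; else
`im² = r² - ((xR - xL)/2)² <= .25 - .2171`. DR: `|a| + |b - 1| <= .3`, so `a, b` satisfy the hypotheses of
`ih0` resp. `ih1` (`|a - 1| <= 1 + |a|`), and `G (a k) (b k)` (`edge`). The path
`0 .. a k, b k .. 1` has length `<= 8/5 * 3/10 + 1 = 1.48`. -/
def S_MX : Prop := ∀ (S : Finset ℂ) (G : ℂ → ℂ → Prop) (n : ℕ) (a b o : ℕ → ℂ) (r : ℕ → ℝ),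
  Ctx S G → Chain S n a b o r → ∀ i j, i < j → j ≤ n + 1 → 1 / 2 < r i → (o i).im < 0 →
    1 / 2 < r j → 0 < (o j).im → ∃ D, Reach G 0 1 D ∧ D ≤ 8 / 5

/-- CT (EASY-MEDIUM, uses S_CE, S_PO, S_PB, S_MX, S_XC, S_CC, S_RT, S_BIG). Proof. If `G 0 1` take
`D = 1`. Otherwise take a chain (CE). If all `r i <= 1/2`: PO. Otherwise some circle is large;
centres of large circles are not on the axis (BIG). If all large circles have centres above: PB. If all
have centres below: conjugate (XC, CC), PB, and transport back (RT). If both sides occur at `i` (below)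
and `j` (above): `i < j`: MX; `j < i`: conjugate and MX. -/
def S_CT : Prop := ∀ (_ : Pot (8 / 5)) (S : Finset ℂ) (G : ℂ → ℂ → Prop), Ctx S G →
  ∃ D, Reach G 0 1 D ∧ D ≤ 8 / 5

/-! ### Assembly -/

/-- GI (EASY-MEDIUM). A generic point. Proof. The bad points are: the points of `S`, of the lines through
two points of `S` and of the circles through three points of `S` (each at most one circle, as the three
points are not collinear): a finite union of closed sets with empty interior (or of Lebesgue measure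
zero, or nowhere dense), so its complement is dense. (Lines: `{z | cr a b z = 0}`, circles:
`{z | dist o z = r}`: e.g. the polynomial `t ↦` of the restriction to a line through a good direction, or
use that spheres and hyperplanes have empty interior and `interior_union_of_..`, `dense` open sets:
finite intersection of open dense sets is dense.) -/
def S_GI : Prop := ∀ (S : Finset ℂ), NC3 S → NC4 S → ∀ (t : ℂ) (δ : ℝ), 0 < δ →
  ∃ x, dist x t < δ ∧ NC3 (insert x S) ∧ NC4 (insert x S)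

/-- GX (EASY, uses S_GI). Proof. Induction on the list. -/
def S_GX : Prop := ∀ (S : Finset ℂ), NC3 S → NC4 S → ∀ (T : List ℂ) (δ : ℝ), 0 < δ →
  ∃ X : Finset ℂ, NC3 (S ∪ X) ∧ NC4 (S ∪ X) ∧ (∀ t ∈ T, ∃ x ∈ X, dist x t < δ) ∧
    ∀ x ∈ X, ∃ t ∈ T, dist x t < δ

/-- BL (EASY-MEDIUM). The blocking points. Proof. Suppose `|o.im| > .257 r`, by symmetry `o.im > .257 r`.
`0 <= o.re <= 1` (centre of `[xL, xR]`), `o.im < r`. Choose `k <= 10` with `|o.re - k/10| <= 1/20` and
`x ∈ X` near `t = k/10 + 5/8 i`. Then `dist o x < r`: `|x.re - o.re| <= .0503`,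
`|x.im - o.im|`: if `o.im <= 5/8`: `<= .625 - .257 r + .0003`, and
`.0503² + (.6253 - .257 r)² < r²` for `r > 1/2` (at `r = 1/2`: `.00254 + .24679 < .25`, then monotone); if
`o.im > 5/8`: `<= r - .6247` and `.0503² + (r - .6247)² < r²` (`r > .33`). Contradiction to `Emp`. -/
def S_BL : Prop := ∀ (S : Finset ℂ), (∀ k : ℕ, k ≤ 10 → ∀ e : ℝ, (e = 5 / 8 ∨ e = -(5 / 8)) →
    ∃ x ∈ S, dist x (⟨k / 10, e⟩ : ℂ) < 3 / 10000) →
  ∀ (o : ℂ) (r : ℝ), Ax o r → 1 / 2 < r → Emp S o r → |o.im| ≤ 257 / 1000 * r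

/-- FX (EASY). The blocking points are outside the ellipse. Proof. With `t = ⟨k/10, e⟩`:
`|t| + |t - 1| >= |t + (1 - conj t)...|`: by the triangle inequality for the reflected point
`dist 0 t + dist t 1 >= 2 √(1/4 + 25/64) = √(89)/ ... > 1.6007` (Minkowski:
`√(x² + e²) + √((1-x)² + e²) >= √(1 + 4e²) = √(1 + 25/16) = √41/4 > 1.6007`), and `x` is within
`.0003` of `t`. -/
def S_FX : Prop := ∀ (k : ℕ) (e : ℝ), (e = 5 / 8 ∨ e = -(5 / 8)) → ∀ x : ℂ,
  dist x (⟨k / 10, e⟩ : ℂ) < 3 / 10000 → 8 / 5 < dist 0 x + dist x 1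

/-- AV (EASY-MEDIUM). Short paths avoid the points outside the ellipse. Proof. Let `W` be a path
of length `D <= 8/5` from `0` to `1` for the relation `H`. Each vertex `v` on it satisfies
`dist 0 v + dist v 1 <= D <= 8/5` (prove by induction: if `Reach H 0 v D1` then for all the vertices before
...; a convenient form: by induction on `Reach H 0 v D`: if `D + dist v 1 <= 8/5` then
`Reach K 0 v D`, where `K` is the good relation: the last edge `u v` of the path has
`D' + dist u v = D`, so `D' + dist u 1 <= 8/5` by the triangle inequality, `dist 0 u <= D'`, so `u` and `v`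
are both inside the ellipse, and the hypothesis turns the edge into one of `K`). Apply it to `v = 1`. -/
def S_AV : Prop := ∀ (H K : ℂ → ℂ → Prop), (∀ u v, dist 0 u + dist u 1 ≤ 8 / 5 →
    dist 0 v + dist v 1 ≤ 8 / 5 → H u v → K u v) →
  ∀ D, Reach H 0 1 D → D ≤ 8 / 5 → Reach K 0 1 D

/-- NO (EASY-MEDIUM, uses S_CT, S_GX, S_BL, S_FX, S_AV). The normalized theorem. Proof. `X` from GX for the
22 targets `k/10 ± 5/8 i` and `δ = 3/10000`, `S' = S ∪ X`, `H u v := sAdj S 1 u v ∨ sAdj S' 1 u v`.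
`Ctx S' H`: `edge` by definition; `ih0`: `a ∈ S'` with `dist 0 a + dist a 1 <= 8/5` is not in `X` (FX), so it
is in `S` and the induction hypothesis for `(0, a)` gives a path in `sAdj S (dist 0 a)`, so in `H` (the
lengths of the edges are `< 1`); the same for `ih1`; `block` by BL. CT gives `Reach H 0 1 D`, `D <= 8/5`; AV
with `K = sAdj S 1`: an edge of `sAdj S' 1` with both ends inside the ellipse has its ends in `S`, and an
empty circle for `S'` is empty for `S`. -/
def S_NO : Prop := ∀ (_ : Pot (8 / 5)) (S : Finset ℂ), NC3 S → NC4 S → (0 : ℂ) ∈ S → (1 : ℂ) ∈ S →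
  (∀ u ∈ S, ∀ v ∈ S, dist u v < 1 → ∃ D, Reach (sAdj S (dist u v)) u v D ∧
    D ≤ 8 / 5 * dist u v) →
  ∃ D, Reach (sAdj S 1) 0 1 D ∧ D ≤ 8 / 5

/-- SI (EASY-MEDIUM, uses S_NO). Proof. Strong induction on the number of pairs of `S × S` with a
smaller distance than `dist p q`. `p = q`: `D = 0`. Otherwise let `φ z = (z - p)/(q - p)`; it multiplies
distances by `1/dist p q`, and `cr` by `1/dist² > 0`, so `S.image φ` satisfies `NC3, NC4` and contains
`0, 1`; empty circles go to empty circles (centre `φ o`, radius `r/dist p q`), so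
`sAdj (S.image φ) (l/dist p q) (φ u) (φ v) ↔ sAdj S l u v`, and `Reach` is transported with the factor
`1/dist p q`. The induction hypothesis gives the hypothesis of NO for `S.image φ`. -/
def S_SI : Prop := ∀ (_ : Pot (8 / 5)) (S : Finset ℂ), NC3 S → NC4 S → ∀ p ∈ S, ∀ q ∈ S,
  ∃ D, Reach (sAdj S (dist p q)) p q D ∧ D ≤ 8 / 5 * dist p q

end DT.SB
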