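import Pool.Agent.Work.MP_74021c_co.Final
import Pool.Agent.Work.MP_74021c_co.SB.Stmts

/-!
# Block SB: transport of the theorem to the Euclidean plane
-/

set_option autoImplicit false

open Real Set

namespace DT.SB

lemma walk_of_reach_le {G : SimpleGraph Plane} {Adj : ℂ → ℂ → Prop} {l : ℝ}
    (hA : ∀ a b, Adj a b → G.Adj (eC.symm a) (eC.symm b)) (hl : ∀ a b, Adj a b → dist a b ≤ l)
    {p q : ℂ} {D : ℝ} (h : Reach Adj p q D) :
    ∃ W : G.Walk (eC.symm p) (eC.symm q), walkLength W = D ∧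
      ∀ u v, s(u, v) ∈ W.edges → dist u v ≤ l := by
  induction h with
  | refl => exact ⟨SimpleGraph.Walk.nil, by simp [walkLength], by simp⟩
  | @step a b D _ hab ih =>
    obtain ⟨W, hW, hWl⟩ := ih
    refine ⟨W.append (SimpleGraph.Walk.cons (hA a b hab) SimpleGraph.Walk.nil), ?_, ?_⟩
    · rw [walkLength_append, hW]
      simp only [walkLength]
      rw [eC_symm_dist, add_zero]
    · intro u v huv
      rw [SimpleGraph.Walk.edges_append, List.mem_append] at huv
      rcases huv with huv | huv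
      · exact hWl u v huv
      · simp only [SimpleGraph.Walk.edges_cons, SimpleGraph.Walk.edges_nil, List.mem_cons,
          List.not_mem_nil, or_false] at huv
        rw [Sym2.eq_iff] at huv
        rcases huv with ⟨rfl, rfl⟩ | ⟨rfl, rfl⟩
        · rw [eC_symm_dist]; exact hl a b hab
        · rw [eC_symm_dist, dist_comm]; exact hl a b hab

theorem of_SI (hSI : S_SI) (S : Finset Plane) (hS : GeneralPosition S) :
    ∀ p ∈ S, ∀ q ∈ S, ∃ W : (emptyCircleGraph S).Walk p q,
      walkLength W ≤ 8 / 5 * dist p q ∧ ∀ u v, s(u, v) ∈ W.edges → dist u v ≤ dist p q := by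
  intro p hp q hq
  obtain ⟨P⟩ := pot
  have inj : ∀ {x y : ℂ}, x ≠ y → eC.symm x ≠ eC.symm y := fun h h1 => h (eC.symm.injective h1)
  have h3 : NC3 (imC S) := by
    intro a ha b hb c hc hab hac hbc hcr
    rw [mem_imC] at ha hb hc
    refine hS.1 _ ha _ hb _ hc (inj hab) (inj hac) (inj hbc) ?_
    refine collinear_of_cr (inj hab) ?_
    rw [eC.apply_symm_apply, eC.apply_symm_apply, eC.apply_symm_apply]
    exact hcr
  have h4 : NC4 (imC S) := by
    rintro a ha b hb c hc d hd hab hac had hbc hbd hcd ⟨o, r, h1, h2, h3, h4⟩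
    rw [mem_imC] at ha hb hc hd
    refine hS.2 _ ha _ hb _ hc _ hd (inj hab) (inj hac) (inj had) (inj hbc) (inj hbd) (inj hcd)
      ⟨eC.symm o, r, ?_, ?_, ?_, ?_⟩
    · rw [eC_symm_dist, dist_comm]; exact h1
    · rw [eC_symm_dist, dist_comm]; exact h2
    · rw [eC_symm_dist, dist_comm]; exact h3
    · rw [eC_symm_dist, dist_comm]; exact h4
  obtain ⟨D, hD, hDt⟩ := hSI P (imC S) h3 h4 (eC p) (mem_imC' hp) (eC q) (mem_imC' hq)
  have h1 : ∃ W : (emptyCircleGraph S).Walk (eC.symm (eC p)) (eC.symm (eC q)), walkLength W = D ∧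
      ∀ u v, s(u, v) ∈ W.edges → dist u v ≤ dist (eC p) (eC q) := by
    refine walk_of_reach_le (Adj := sAdj (imC S) (dist (eC p) (eC q))) ?_ ?_ hD
    · rintro a b ⟨hab, ha, hb, -, o, r, h1, h2, h3⟩
      refine ⟨inj hab, mem_imC.1 ha, mem_imC.1 hb, eC.symm o, r, ?_, ?_, ?_⟩
      · rw [eC_symm_dist, dist_comm]; exact h1
      · rw [eC_symm_dist, dist_comm]; exact h2
      · intro s hs
        have h4 := h3 (eC s) (mem_imC' hs)
        have h5 : dist s (eC.symm o) = dist o (eC s) := by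
          rw [← eC_dist s, eC.apply_symm_apply, dist_comm]
        rw [h5]
        exact h4
    · rintro a b ⟨-, -, -, h, -⟩
      exact h
  rw [eC_dist] at hDt
  rw [LinearIsometryEquiv.symm_apply_apply, LinearIsometryEquiv.symm_apply_apply, eC_dist] at h1
  obtain ⟨W, hW, hWl⟩ := h1
  exact ⟨W, hW ▸ hDt, hWl⟩

end DT.SB
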