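import Pool.Agent.Work.MP_74021c_co.G7a
import Pool.Agent.Work.MP_74021c_co.G9b

/-!
# Block SB (strong 8/5 spanner, MP_74021c_co): definitions

Theorem SB: the Delaunay triangulation of a finite set in general position contains for all `p, q`
a path of length at most `(8/5)|pq|` all of whose edges have length at most `|pq|`.
The plane is `ℂ`; after a similarity `p = 0`, `q = 1`. `mir z = 1 - conj z` exchanges `0` and `1`.
-/

set_option autoImplicit false

open Real Set

namespace DT.SB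

/-- left intersection of the circle `(o, r)` with the real axis -/
noncomputable def xL (o : ℂ) (r : ℝ) : ℝ := o.re - √(r ^ 2 - o.im ^ 2)

/-- right intersection of the circle `(o, r)` with the real axis -/
noncomputable def xR (o : ℂ) (r : ℝ) : ℝ := o.re + √(r ^ 2 - o.im ^ 2)

/-- no point of `S` is inside the circle `(o, r)` -/
def Emp (S : Finset ℂ) (o : ℂ) (r : ℝ) : Prop := ∀ s ∈ S, r ≤ dist o s

/-- no three points of `S` are collinear -/
def NC3 (S : Finset ℂ) : Prop := ∀ a ∈ S, ∀ b ∈ S, ∀ c ∈ S, a ≠ b → a ≠ c → b ≠ c → cr a b c ≠ 0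

/-- no four points of `S` are on a circle -/
def NC4 (S : Finset ℂ) : Prop := ∀ a ∈ S, ∀ b ∈ S, ∀ c ∈ S, ∀ d ∈ S, a ≠ b → a ≠ c → a ≠ d →
  b ≠ c → b ≠ d → c ≠ d → ¬ ∃ (o : ℂ) (r : ℝ), dist o a = r ∧ dist o b = r ∧ dist o c = r ∧
    dist o d = r

/-- A circle which meets the real axis in two points of `[0, 1]`. -/
def Ax (o : ℂ) (r : ℝ) : Prop := 0 < r ∧ |o.im| < r ∧ 0 ≤ xL o r ∧ xR o r ≤ 1

/-- The situation: `0, 1 ∈ S`, `G` contains the edges of length at most `1` with an empty circle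
(`edge`), some points are reached from `0` (to `1`) by short paths (`ih0`, `ih1`), and large empty
circles which cross the segment `[0, 1]` are almost centred on the axis (`block`). -/
structure Ctx (S : Finset ℂ) (G : ℂ → ℂ → Prop) : Prop where
  zero : (0 : ℂ) ∈ S
  one : (1 : ℂ) ∈ S
  nc3 : NC3 S
  nc4 : NC4 S
  symm : ∀ u v, G u v → G v u
  edge : ∀ u ∈ S, ∀ v ∈ S, u ≠ v → dist u v ≤ 1 → ∀ (o : ℂ) (r : ℝ), dist o u = r → dist o v = r →
    Emp S o r → G u v
  ih0 : ∀ a ∈ S, dist 0 a + dist a 1 ≤ 8 / 5 → dist 0 a < 1 →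
    ∃ D, Reach G 0 a D ∧ D ≤ 8 / 5 * dist 0 a
  ih1 : ∀ a ∈ S, dist 0 a + dist a 1 ≤ 8 / 5 → dist a 1 < 1 →
    ∃ D, Reach G a 1 D ∧ D ≤ 8 / 5 * dist a 1
  block : ∀ (o : ℂ) (r : ℝ), Ax o r → 1 / 2 < r → Emp S o r → |o.im| ≤ 257 / 1000 * r

/-- The chain of the triangles crossed by the segment `[0, 1]`: crossing edges `a i, b i`
(`0 ≤ i ≤ n`, `a i` above, `b i` below the axis) and empty circles `(o i, r i)`, `0 ≤ i ≤ n + 1`;
the circle `i` passes through `a i, b i` and the circle `i + 1` passes through `a i, b i`; the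
first circle passes through `0`, the last one through `1`. In each step one of `a, b` changes and
the new point is on the right side of the old edge (`cr (b i) (a i) _ < 0`). -/
structure Chain (S : Finset ℂ) (n : ℕ) (a b o : ℕ → ℂ) (r : ℕ → ℝ) : Prop where
  aS : ∀ i ≤ n, a i ∈ S
  bS : ∀ i ≤ n, b i ∈ S
  apos : ∀ i ≤ n, 0 < (a i).im
  bneg : ∀ i ≤ n, (b i).im < 0
  emp : ∀ i ≤ n + 1, Emp S (o i) (r i)
  oa : ∀ i ≤ n, dist (o i) (a i) = r i
  ob : ∀ i ≤ n, dist (o i) (b i) = r i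
  oa' : ∀ i ≤ n, dist (o (i + 1)) (a i) = r (i + 1)
  ob' : ∀ i ≤ n, dist (o (i + 1)) (b i) = r (i + 1)
  o0 : dist (o 0) 0 = r 0
  o1 : dist (o (n + 1)) 1 = r (n + 1)
  f0 : 0 < cr (b 0) (a 0) 0
  f1 : cr (b n) (a n) 1 < 0
  step : ∀ i < n, (a (i + 1) = a i ∧ cr (b i) (a i) (b (i + 1)) < 0) ∨
    (b (i + 1) = b i ∧ cr (b i) (a i) (a (i + 1)) < 0)

/-- Two circles through `a` (above the axis) and `b` (below); the second one is obtained from the
first by moving the centre forward (to the right) along the bisector of `a b`. -/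
def Fw (a b o : ℂ) (r : ℝ) (o' : ℂ) (r' : ℝ) : Prop :=
  0 < a.im ∧ b.im < 0 ∧ dist o a = r ∧ dist o b = r ∧ dist o' a = r' ∧ dist o' b = r' ∧
    0 ≤ (o'.re - o.re) * (a.im - b.im) - (o'.im - o.im) * (a.re - b.re)

/-- `w, p, q` are the parameters of the circle `(o, r)` and of its points `a` (above) and `b` -/
def Par (a b o : ℂ) (r w p q : ℝ) : Prop := OnC o.re r w p q a b ∧ o.im = r * sin w

/-- The parameter functions of a pencil: centre (real part) and radius for `0 < ω < π`. -/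
noncomputable def pr (m ω : ℝ) : ℝ := m / sin ω
noncomputable def pc (κ m M ω : ℝ) : ℝ := M - m * (cos ω / sin ω) * cos κ
noncomputable def pp (κ k ω : ℝ) : ℝ := (ω + W κ k ω - κ) / 2
noncomputable def pq (κ k ω : ℝ) : ℝ := (ω - W κ k ω + κ) / 2

/-- `(a, b)` is the base of the pencil with parameters `κ, k, m, M` -/
def Pen (a b : ℂ) (κ k m M : ℝ) : Prop := |κ| < π / 2 ∧ |k| < cos κ ∧ 0 < m ∧ dist a b = 2 * m ∧
  ∀ ω ∈ Ioo 0 π, OnC (pc κ m M ω) (pr m ω) (W κ k ω) (pp κ k ω) (pq κ k ω) a b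

/-- `(o, r)` is the circle with parameter `ω` of the pencil -/
def Mem (κ k m M ω : ℝ) (o : ℂ) (r : ℝ) : Prop :=
  ω ∈ Ioo 0 π ∧ r = pr m ω ∧ o.re = pc κ m M ω ∧ o.im = r * sin (W κ k ω)

/-- THE LEFT BOUND: the point `b` of the lower arc of the circle `(o, r)` has the parameter `q` and
`D` is at most the length of the arc from the left intersection to `b` plus `15/2 xL + 29/2000`. -/
def LB (o : ℂ) (r : ℝ) (b : ℂ) (D : ℝ) : Prop := ∃ w q, 0 < r ∧ |w| < π / 2 ∧ o.im = r * sin w ∧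
  0 ≤ q ∧ q ≤ π / 2 - w ∧ b.re = o.re + r * cos (2 * q + w) ∧
  b.im = r * sin w - r * sin (2 * q + w) ∧
  D ≤ 2 * r * (π / 2 - w - q) + 15 / 2 * (o.re - r * cos w) + 29 / 2000

/-- the left bound divided by `m` along a pencil (up to a constant) -/
noncomputable def Bt (κ k ω : ℝ) : ℝ :=
  (π - W κ k ω - ω - κ - 15 / 2 * (cos ω * cos κ + cos (W κ k ω))) / sin ω

/-- the expression whose sign is the sign of the derivative of the left bound; `p, q` are the
parameters measured from the left -/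
noncomputable def HH (w p q : ℝ) : ℝ :=
  15 / 2 * sin p * sin q - sin q * cos (p - w) + q * cos w * cos (p + q)

/-- long crossing edge with upper end near `0` -/
def LP (a b : ℕ → ℂ) (i : ℕ) : Prop := 1 < dist (a i) (b i) ∧ dist 0 (a i) < 21 / 100

/-- long crossing edge with upper end near `1` -/
def RP (a b : ℕ → ℂ) (i : ℕ) : Prop := 1 < dist (a i) (b i) ∧ dist (a i) 1 < 21 / 100

/-- reflection which exchanges `0` and `1` -/
noncomputable def mir (z : ℂ) : ℂ := 1 - (starRingEnd ℂ) z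

/-- Large circles of the chain have their centres above the axis -/
def Up (n : ℕ) (o : ℕ → ℂ) (r : ℕ → ℝ) : Prop := ∀ i ≤ n + 1, 1 / 2 < r i → 0 < (o i).im

/-- the short edges with empty circles -/
def sAdj (S : Finset ℂ) (l : ℝ) (u v : ℂ) : Prop := u ≠ v ∧ u ∈ S ∧ v ∈ S ∧ dist u v ≤ l ∧
  ∃ (o : ℂ) (r : ℝ), dist o u = r ∧ dist o v = r ∧ Emp S o r

end DT.SB
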