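import Pool.Agent.Work.MP_74021c_co.SB.Stmts

/-!
# Block SB, items AL and AM: the pencil steps of the left bound
-/

set_option autoImplicit false

open Real Set

namespace DT.SB

namespace IX_AL

/-- uniqueness of the parameters -/
lemma uniq {r w w' q q' : ℝ} (hr : 0 < r) (hw : |w| < π / 2) (hw' : |w'| < π / 2)
    (h1 : r * sin w = r * sin w') (hq0 : 0 ≤ q) (hq1 : q ≤ π / 2 - w) (hq0' : 0 ≤ q')
    (hq1' : q' ≤ π / 2 - w') (h2 : r * cos (2 * q + w) = r * cos (2 * q' + w'))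
    (h3 : r * sin (2 * q + w) = r * sin (2 * q' + w')) : w = w' ∧ q = q' := by
  have e1 : sin w = sin w' := mul_left_cancel₀ hr.ne' h1
  obtain ⟨a1, a2⟩ := abs_lt.1 hw
  obtain ⟨b1, b2⟩ := abs_lt.1 hw'
  have hww : w = w' := injOn_sin ⟨a1.le, a2.le⟩ ⟨b1.le, b2.le⟩ e1
  refine ⟨hww, ?_⟩
  subst hww
  have e2 : cos (2 * q + w) = cos (2 * q' + w) := mul_left_cancel₀ hr.ne' h2
  have e3 : sin (2 * q + w) = sin (2 * q' + w) := mul_left_cancel₀ hr.ne' h3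
  have e4 : cos (2 * q + w - (2 * q' + w)) = 1 := by
    rw [cos_sub, e2, e3]
    nlinarith [sin_sq_add_cos_sq (2 * q' + w)]
  have e5 := (cos_eq_one_iff_of_lt_of_lt (by linarith) (by linarith)).1 e4
  linarith

lemma xL_eq {o : ℂ} {r w : ℝ} (hr : 0 < r) (hw : |w| < π / 2) (h : o.im = r * sin w) :
    xL o r = o.re - r * cos w := by
  have hc : 0 < cos w := cos_pos_of_mem_Ioo ⟨(abs_lt.1 hw).1, (abs_lt.1 hw).2⟩
  unfold xL
  rw [h]
  have : r ^ 2 - (r * sin w) ^ 2 = (r * cos w) ^ 2 := by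
    nlinarith [sin_sq_add_cos_sq w]
  rw [this, sqrt_sq (by positivity)]

/-- the bound as a function on the pencil -/
noncomputable def f (κ k m M ω : ℝ) : ℝ := m * Bt κ k ω + 15 / 2 * M + 29 / 2000

lemma fval {κ k m M ω : ℝ} (hω : ω ∈ Ioo 0 π) : f κ k m M ω =
    2 * pr m ω * (π / 2 - W κ k ω - pq κ k ω) + 15 / 2 * (pc κ m M ω - pr m ω * cos (W κ k ω)) +
      29 / 2000 := by
  have hs : sin ω ≠ 0 := (sin_pos_of_mem_Ioo hω).ne'
  unfold f Bt pr pc pq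
  field_simp
  ring

lemma to_f {a b o : ℂ} {κ k m M ω r D : ℝ} (hP : Pen a b κ k m M) (hM : Mem κ k m M ω o r)
    (hLB : LB o r b D) : D ≤ f κ k m M ω := by
  obtain ⟨hκ, hk, hm, -, hon⟩ := hP
  obtain ⟨hω, hr, hre, him⟩ := hM
  have h := hon ω hω
  obtain ⟨w, q, h1, h2, h3, h4, h5, h6, h7, h8⟩ := hLB
  rw [fval hω]
  have e1 : r * sin w = r * sin (W κ k ω) := by rw [← h3, him]
  have e2 : r * cos (2 * q + w) = r * cos (2 * pq κ k ω + W κ k ω) := by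
    have := h.bre
    rw [h6, ← hr, hre] at this
    linarith
  have e3 : r * sin (2 * q + w) = r * sin (2 * pq κ k ω + W κ k ω) := by
    have := h.bim
    rw [h7, ← hr] at this
    linarith
  obtain ⟨hww, hqq⟩ := uniq h1 h2 h.hw e1 h4 h5 h.hq0 h.hq1 e2 e3
  rw [← hr, ← hre, ← hww, ← hqq]
  exact h8

lemma of_f {a b o : ℂ} {κ k m M ω r D : ℝ} (hP : Pen a b κ k m M) (hM : Mem κ k m M ω o r)
    (hD : D ≤ f κ k m M ω) : LB o r b D := by
  obtain ⟨hκ, hk, hm, -, hon⟩ := hP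
  obtain ⟨hω, hr, hre, him⟩ := hM
  have h := hon ω hω
  rw [fval hω] at hD
  refine ⟨W κ k ω, pq κ k ω, ?_, h.hw, him, h.hq0, h.hq1, ?_, ?_, ?_⟩
  · rw [hr]; exact h.hr
  · rw [hre, hr]; exact h.bre
  · rw [hr]; exact h.bim
  · rw [hre, hr]; exact hD

/-- facts for an intermediate circle -/
lemma mid (hMF : S_MF) (hFWM : S_FWM) (hCH : S_CH) {a b o o' : ℂ} {r r' κ k m M ω0 ω1 x : ℝ}
    (ha : 0 < a.im) (hb : b.im < 0) (hP : Pen a b κ k m M) (hM0 : Mem κ k m M ω0 o r)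
    (hM1 : Mem κ k m M ω1 o' r') (hx : x ∈ Icc ω0 ω1) (hr : r ≤ 5174 / 10000)
    (hr' : r' ≤ 5174 / 10000) :
    x ∈ Ioo 0 π ∧ 0 < pr m x ∧ pr m x ≤ 5174 / 10000 ∧
      xL o r ≤ pc κ m M x - pr m x * cos (W κ k x) ∧
      pc κ m M x - pr m x * cos (W κ k x) ≤ xL o' r' ∧
      dist (((pc κ m M x - pr m x * cos (W κ k x) : ℝ)) : ℂ) a =
        2 * pr m x * sin ((π - x + W κ k x + κ) / 2) ∧
      dist a b = 2 * pr m x * sin x ∧ 0 < (π - x + W κ k x + κ) / 2 ∧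
      0 < (π - x - W κ k x - κ) / 2 := by
  have hxm : x ∈ Ioo 0 π := ⟨lt_of_lt_of_le hM0.1.1 hx.1, lt_of_le_of_lt hx.2 hM1.1.2⟩
  have hon := hP.2.2.2.2 x hxm
  have hsx : 0 < sin x := sin_pos_of_mem_Ioo hxm
  have hm := hP.2.2.1
  set ox : ℂ := ⟨pc κ m M x, pr m x * sin (W κ k x)⟩ with hox
  have hMx : Mem κ k m M x ox (pr m x) := ⟨hxm, rfl, rfl, rfl⟩
  have h1 := hFWM a b o r ox (pr m x) (hMF a b κ k m M ω0 x o r ox (pr m x) ha hb hP hM0 hMx hx.1)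
  have h2 := hFWM a b ox (pr m x) o' r'
    (hMF a b κ k m M x ω1 ox (pr m x) o' r' ha hb hP hMx hM1 hx.2)
  have hxL : xL ox (pr m x) = pc κ m M x - pr m x * cos (W κ k x) := xL_eq hon.hr hon.hw rfl
  rw [hxL] at h1 h2
  have hPar : Par a b ox (pr m x) (W κ k x) (pp κ k x) (pq κ k x) := ⟨hon, rfl⟩
  obtain ⟨c1, c2, -, -, c5⟩ := hCH a b ox (pr m x) _ _ _ hPar
  have eP : π / 2 + W κ k x - pp κ k x = (π - x + W κ k x + κ) / 2 := by unfold pp; ring
  have eQ : π / 2 - W κ k x - pq κ k x = (π - x - W κ k x - κ) / 2 := by unfold pq; ring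
  have eS : pp κ k x + pq κ k x = x := by unfold pp pq; ring
  rw [eP] at c1
  rw [eQ] at c2
  rw [eS] at c5
  have hP0 : 0 ≤ (π - x + W κ k x + κ) / 2 := by
    have := hon.hp1
    rw [← eP]; linarith
  have hQ0 : 0 ≤ (π - x - W κ k x - κ) / 2 := by
    have := hon.hq1
    rw [← eQ]; linarith
  refine ⟨hxm, hon.hr, ?_, h1.1, h2.1, c1, c5, ?_, ?_⟩
  · have hmin := strictConcaveOn_sin_Icc.concaveOn.min_le_of_mem_Icc
      (show ω0 ∈ Icc 0 π from ⟨hM0.1.1.le, hM0.1.2.le⟩)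
      (show ω1 ∈ Icc 0 π from ⟨hM1.1.1.le, hM1.1.2.le⟩) hx
    unfold pr
    rw [div_le_iff₀ hsx]
    rcases min_le_iff.1 hmin with h | h
    · have h3 := hM0.2.1
      have h4 : 0 < sin ω0 := sin_pos_of_mem_Ioo hM0.1
      have h5 : m = r * sin ω0 := by
        rw [h3]; unfold pr; rw [div_mul_cancel₀ _ h4.ne']
      rw [h5]
      have : r * sin ω0 ≤ 5174 / 10000 * sin ω0 := mul_le_mul_of_nonneg_right hr h4.le
      linarith
    · have h3 := hM1.2.1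
      have h4 : 0 < sin ω1 := sin_pos_of_mem_Ioo hM1.1
      have h5 : m = r' * sin ω1 := by
        rw [h3]; unfold pr; rw [div_mul_cancel₀ _ h4.ne']
      rw [h5]
      have : r' * sin ω1 ≤ 5174 / 10000 * sin ω1 := mul_le_mul_of_nonneg_right hr' h4.le
      linarith
  · refine lt_of_le_of_ne hP0 fun h0 => ?_
    rw [← h0, sin_zero, mul_zero, dist_eq_zero] at c1
    rw [← c1] at ha
    simp at ha
  · refine lt_of_le_of_ne hQ0 fun h0 => ?_
    rw [← h0, sin_zero, mul_zero, dist_eq_zero] at c2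
    rw [← c2] at hb
    simp at hb

lemma der (hBT : S_BT) {κ k m M x : ℝ} (hκ : |κ| < π / 2) (hk : |k| < cos κ) (hx : x ∈ Ioo 0 π) :
    HasDerivAt (f κ k m M) (m * (2 * HH (W κ k x) ((π - x + W κ k x + κ) / 2)
      ((π - x - W κ k x - κ) / 2) / (cos (W κ k x) * sin x ^ 2))) x := by
  have h := ((hBT κ k hκ hk x hx).const_mul m).add_const (15 / 2 * M + 29 / 2000)
  refine h.congr_of_eventuallyEq ?_
  filter_upwards with y
  unfold f
  ring

lemma der_nonneg {κ k m x H : ℝ} (hm : 0 < m) (hκ : |κ| < π / 2) (hk : |k| < cos κ)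
    (hx : x ∈ Ioo 0 π) (hH : 0 ≤ H) :
    0 ≤ m * (2 * H / (cos (W κ k x) * sin x ^ 2)) := by
  have h1 := (G4a.W_facts (ω := x) hκ hk).2.2
  have h2 : 0 < sin x := sin_pos_of_mem_Ioo hx
  positivity

end IX_AL

open IX_AL

theorem pr_AL (hDI : S_DI) (hHS : S_HS) (hBT : S_BT) (hCMP : S_CMP) (hPEN : S_PEN) (hMF : S_MF)
    (hFWM : S_FWM) (hCH : S_CH) : S_AL := by
  intro a b o r o' r' D hF hA hA' hr hr' hD hLB
  obtain ⟨κ, k, m, M, ω0, ω1, hP, hM0, hM1, hle⟩ := hPEN a b o r o' r' hF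
  obtain ⟨ha, hb, -⟩ := hF
  have hκ := hP.1
  have hk := hP.2.1
  have hm := hP.2.2.1
  have h0 := to_f hP hM0 hLB
  apply of_f hP hM1
  have key := hCMP (f κ k m M) (fun x => m * (2 * HH (W κ k x) ((π - x + W κ k x + κ) / 2)
      ((π - x - W κ k x - κ) / 2) / (cos (W κ k x) * sin x ^ 2))) ω0 ω1
      (8 / 5 * dist 0 a + dist a b) hle ?_ ?_
  · exact (le_min h0 hD).trans key
  · intro x hx
    exact der hBT hκ hk (mid hMF hFWM hCH ha hb hP hM0 hM1 hx hr hr').1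
  · intro x hx hlt
    obtain ⟨hxm, hr0, hr1, hx0, hx1, c1, c5, hPp, hQp⟩ :=
      mid hMF hFWM hCH ha hb hP hM0 hM1 hx hr hr'
    apply der_nonneg hm hκ hk hxm
    rw [fval hxm] at hlt
    have eQ : π / 2 - W κ k x - pq κ k x = (π - x - W κ k x - κ) / 2 := by unfold pq; ring
    rw [eQ] at hlt
    set L : ℝ := pc κ m M x - pr m x * cos (W κ k x) with hL
    set P : ℝ := (π - x + W κ k x + κ) / 2 with hPd
    set Q : ℝ := (π - x - W κ k x - κ) / 2 with hQd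
    have hPQ : P + Q = π - x := by rw [hPd, hQd]; ring
    have hsum : sin (P + Q) = sin x := by rw [hPQ, sin_pi_sub]
    have hL0 : 0 ≤ L := hA.2.2.1.trans hx0
    have hd : dist 0 a ≤ L + 2 * pr m x * sin P := by
      have h1 := dist_triangle (0 : ℂ) ((L : ℝ) : ℂ) a
      have h2 : dist (0 : ℂ) ((L : ℝ) : ℂ) = L := by
        rw [dist_comm, dist_zero_right]
        rw [Complex.norm_real, norm_eq_abs, abs_of_nonneg hL0]
      rw [h2, c1] at h1
      exact h1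
    have hWc := (G4a.W_facts (ω := x) hκ hk).2.2
    have hsP : 0 < sin P := sin_pos_of_pos_of_lt_pi hPp (by linarith [hxm.1])
    have hsQ : 0 < sin Q := sin_pos_of_pos_of_lt_pi hQp (by linarith [hxm.1])
    refine hHS _ _ _ hWc.le hsP.le hsQ.le ?_
    apply hDI P Q hPp hQp (by linarith [hxm.1])
    by_contra hc
    push Not at hc
    rw [hsum] at hc
    have h3 : 2 * pr m x * (8 / 5 * sin P + sin x) ≤ 2 * pr m x * (Q + 7 / 500) :=
      mul_le_mul_of_nonneg_left hc (by linarith)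
    rw [c5] at hlt
    nlinarith

end DT.SB
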