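import Pool.Agent.Work.MP_74021c_co.SB.Stmts

/-!
# Block SB, item AV: short paths avoid the points outside the ellipse
-/

set_option autoImplicit false

open Real Set

namespace DT.SB

namespace IX_AV

theorem dist_le {H : ℂ → ℂ → Prop} {v : ℂ} {D : ℝ} (h : Reach H 0 v D) : dist 0 v ≤ D := by
  induction h with
  | refl => simp
  | step h1 hadj ih =>
    rename_i a b D'
    have := dist_triangle 0 a b
    linarith

theorem main {H K : ℂ → ℂ → Prop} (hHK : ∀ u v, dist 0 u + dist u 1 ≤ 8 / 5 →
    dist 0 v + dist v 1 ≤ 8 / 5 → H u v → K u v) {v : ℂ} {D : ℝ} (h : Reach H 0 v D) :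
    D + dist v 1 ≤ 8 / 5 → Reach K 0 v D := by
  induction h with
  | refl => exact fun _ => Reach.refl
  | step h1 hadj ih =>
    rename_i a b D'
    intro hD
    have h2 := dist_triangle a b 1
    have h3 := dist_le h1
    have h4 := dist_triangle 0 a b
    refine Reach.step (ih (by linarith)) (hHK a b (by linarith) (by linarith) hadj)

end IX_AV

theorem pr_AV : S_AV := by
  intro H K hHK D h hD
  exact IX_AV.main hHK h (by rw [dist_self]; linarith)

end DT.SB
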