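import Pool.Agent.Work.MP_74021c_co.SB.Stmts

/-!
# Block SB, item BIG: the large circles of a chain
-/

set_option autoImplicit false

open Real Set

namespace DT.SB

theorem pr_BIG (hCF : S_CF) (hRB : S_RB) : S_BIG := by
  intro S G n a b o r hC hch i hi
  obtain ⟨hAx, -, -⟩ := hCF S G n a b o r hC hch
  have key : 1 / 2 < r i → |(o i).im| ≤ 257 / 1000 * r i := fun h =>
    hC.block (o i) (r i) (hAx i hi) h (hch.emp i hi)
  refine ⟨?_, fun h => ⟨key h, (hRB _ _ (hAx i hi) h (key h)).2⟩⟩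
  rcases le_or_gt (r i) (1 / 2) with h | h
  · linarith
  · exact (hRB _ _ (hAx i hi) h (key h)).1

end DT.SB
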