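import Pool.Agent.Work.MP_74021c_co.SB.Stmts

set_option autoImplicit false

/-!
# Block SB: item BL (the blocking points)
-/

open Real Set

namespace DT.SB

namespace IX_BL

theorem core (X v Y r : ℝ) (hr : 1 / 2 < r) (hX : |X| ≤ 503 / 10000) (h1 : 257 / 1000 * r < v)
    (h2 : v < r) (hY : |Y - 5 / 8| < 3 / 10000) : X ^ 2 + (v - Y) ^ 2 < r ^ 2 := by
  obtain ⟨a1, a2⟩ := abs_le.1 hX
  obtain ⟨b1, b2⟩ := abs_lt.1 hY
  have hX2 : X ^ 2 ≤ (503 / 10000) ^ 2 := by nlinarith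
  rcases le_or_gt v Y with h | h
  · have c1 : 0 ≤ Y - v := by linarith
    have c2 : Y - v ≤ 6253 / 10000 - 257 / 1000 * r := by linarith
    have c3 : (v - Y) ^ 2 ≤ (6253 / 10000 - 257 / 1000 * r) ^ 2 := by nlinarith
    nlinarith
  · have c1 : 0 < v - Y := by linarith
    have c2 : v - Y < r - 6247 / 10000 := by linarith
    have c3 : (v - Y) ^ 2 ≤ (r - 6247 / 10000) ^ 2 := by nlinarith
    nlinarith

theorem near (S : Finset ℂ) (hS : ∀ k : ℕ, k ≤ 10 → ∀ e : ℝ, (e = 5 / 8 ∨ e = -(5 / 8)) →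
    ∃ x ∈ S, dist x (⟨k / 10, e⟩ : ℂ) < 3 / 10000) (t : ℝ) (h0 : 0 ≤ t) (h1 : t ≤ 1) (e : ℝ)
    (he : e = 5 / 8 ∨ e = -(5 / 8)) :
    ∃ x ∈ S, |t - x.re| ≤ 503 / 10000 ∧ |x.im - e| < 3 / 10000 := by
  have hk0 : (0 : ℝ) ≤ 10 * t + 1 / 2 := by linarith
  have k1 := Nat.floor_le hk0
  have k2 := Nat.lt_floor_add_one (10 * t + 1 / 2)
  have k3 : ⌊10 * t + 1 / 2⌋₊ ≤ 10 := by
    rw [← Nat.lt_succ_iff, Nat.floor_lt hk0]
    push_cast
    linarith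
  obtain ⟨x, hx, hd⟩ := hS _ k3 e he
  have hd' : ‖x - (⟨(⌊10 * t + 1 / 2⌋₊ : ℝ) / 10, e⟩ : ℂ)‖ < 3 / 10000 := by
    rwa [dist_eq_norm] at hd
  have r1 := (Complex.abs_re_le_norm _).trans_lt hd'
  have r2 := (Complex.abs_im_le_norm _).trans_lt hd'
  rw [Complex.sub_re] at r1
  rw [Complex.sub_im] at r2
  refine ⟨x, hx, ?_, r2⟩
  obtain ⟨q1, q2⟩ := abs_lt.1 r1
  simp only at q1 q2
  rw [abs_le]
  constructor <;> linarith

theorem dist_lt (o x : ℂ) (r : ℝ) (hr : 0 < r)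
    (h : (o.re - x.re) ^ 2 + (o.im - x.im) ^ 2 < r ^ 2) : dist o x < r := by
  rw [Complex.dist_eq_re_im]
  exact (Real.sqrt_lt' hr).2 h

end IX_BL

open IX_BL in
/-- ITEM BL. -/
theorem pr_BL : S_BL := by
  intro S hS o r hA hr hE
  obtain ⟨hr0, him, hL, hR⟩ := hA
  unfold xL at hL
  unfold xR at hR
  have hsq := Real.sqrt_nonneg (r ^ 2 - o.im ^ 2)
  have t0 : 0 ≤ o.re := by linarith
  have t1 : o.re ≤ 1 := by linarith
  obtain ⟨m1, m2⟩ := abs_lt.1 him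
  by_contra hcon
  rw [not_le, lt_abs] at hcon
  rcases hcon with hc | hc
  · obtain ⟨x, hx, x1, x2⟩ := near S hS o.re t0 t1 (5 / 8) (Or.inl rfl)
    have := core (o.re - x.re) o.im x.im r hr x1 hc m2 x2
    exact absurd (hE x hx) (not_le.2 (dist_lt o x r hr0 this))
  · obtain ⟨x, hx, x1, x2⟩ := near S hS o.re t0 t1 (-(5 / 8)) (Or.inr rfl)
    have x3 : |-x.im - 5 / 8| < 3 / 10000 := by
      rw [← abs_neg]
      rw [show -(-x.im - 5 / 8) = x.im - -(5 / 8) by ring]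
      exact x2
    have := core (o.re - x.re) (-o.im) (-x.im) r hr x1 hc (by linarith) x3
    refine absurd (hE x hx) (not_le.2 (dist_lt o x r hr0 ?_))
    nlinarith
end DT.SB
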