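import Pool.Agent.Work.MP_74021c_co.SB.Stmts

/-!
# Block SB, item BT: the derivative of the left bound along a pencil
-/

set_option autoImplicit false

open Real Set

namespace DT.SB

namespace IX_BT

lemma two_HH (κ ω w : ℝ) : 2 * HH w ((π - ω + w + κ) / 2) ((π - ω - w - κ) / 2) =
    15 / 2 * (cos (w + κ) + cos ω) - sin (ω + w) + sin κ - (π - ω - w - κ) * cos w * cos ω := by
  set P : ℝ := (π - ω + w + κ) / 2 with hP
  set Q : ℝ := (π - ω - w - κ) / 2 with hQ
  have e1 : P - Q = w + κ := by rw [hP, hQ]; ring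
  have e2 : P + Q = π - ω := by rw [hP, hQ]; ring
  have e3 : Q + (P - w) = π - (ω + w) := by rw [hP, hQ]; ring
  have e4 : Q - (P - w) = -κ := by rw [hP, hQ]; ring
  have h1 : 2 * sin P * sin Q = cos (w + κ) + cos ω := by
    have : 2 * sin P * sin Q = cos (P - Q) - cos (P + Q) := by rw [cos_sub, cos_add]; ring
    rw [this, e1, e2, cos_pi_sub]; ring
  have h2 : 2 * sin Q * cos (P - w) = sin (ω + w) - sin κ := by
    have : 2 * sin Q * cos (P - w) = sin (Q + (P - w)) + sin (Q - (P - w)) := by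
      rw [sin_add Q, sin_sub Q]; ring
    rw [this, e3, e4, sin_pi_sub, sin_neg]; ring
  have h3 : cos (P + Q) = - cos ω := by rw [e2, cos_pi_sub]
  unfold HH
  rw [h3]
  have h4 : Q * 2 = π - ω - w - κ := by rw [hQ]; ring
  linear_combination (15 / 2) * h1 - h2 - cos w * cos ω * h4

end IX_BT

open IX_BT

theorem pr_BT : S_BT := by
  intro κ k hκ hk ω hω
  obtain ⟨hW, hsin, hcos⟩ := G4a.W_facts (ω := ω) hκ hk
  have hso : 0 < sin ω := sin_pos_of_mem_Ioo hω
  have hWd := G4a.W_der (ω := ω) hκ hk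
  set W' : ℝ := (k * cos ω - sin κ * sin ω) / cos (W κ k ω) with hW'
  have hn1 : HasDerivAt (fun ω => π - W κ k ω - ω - κ) (-W' - 1) ω := by
    have := (((hWd.const_sub π).sub (hasDerivAt_id ω)).sub_const κ)
    exact this
  have hn2 : HasDerivAt (fun ω => 15 / 2 * (cos ω * cos κ + cos (W κ k ω)))
      (15 / 2 * (-sin ω * cos κ + -sin (W κ k ω) * W')) ω :=
    (((hasDerivAt_cos ω).mul_const (cos κ)).add hWd.cos).const_mul (15 / 2)
  have htot := (hn1.sub hn2).div (hasDerivAt_sin ω) hso.ne'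
  refine (htot.congr_deriv ?_)
  simp only [Pi.sub_apply]
  have hD : W' * cos (W κ k ω) * sin ω = cos ω * sin (W κ k ω) - sin κ := by
    have h1 : W' * cos (W κ k ω) = k * cos ω - sin κ * sin ω := by
      rw [hW', div_mul_cancel₀ _ hcos.ne']
    rw [h1, hsin]
    have := sin_sq_add_cos_sq ω
    linear_combination (- sin κ) * this
  rw [two_HH]
  set w := W κ k ω with hw
  have a1 := sin_sq_add_cos_sq ω
  have a2 := sin_sq_add_cos_sq w
  rw [div_eq_div_iff (by positivity) (by positivity), cos_add, sin_add]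
  have key : cos w * ((-W' - 1 - 15 / 2 * (-sin ω * cos κ + -sin w * W')) * sin ω -
      (π - w - ω - κ - 15 / 2 * (cos ω * cos κ + cos w)) * cos ω) =
      15 / 2 * (cos w * cos κ - sin w * sin κ + cos ω) - (sin ω * cos w + cos ω * sin w) + sin κ -
      (π - ω - w - κ) * cos w * cos ω := by
    linear_combination (-1 + 15 / 2 * sin w) * hD + 15 / 2 * cos κ * cos w * a1 +
      15 / 2 * cos ω * a2
  linear_combination sin ω ^ 2 * key

end DT.SB
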