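import Pool.Agent.Work.MP_74021c_co.SB.Stmts

/-!
# Block SB (MP_74021c_co), item CC: the conjugate chain
-/

set_option autoImplicit false

open Real Set

namespace DT.SB

namespace IX_CC

theorem cr_conj (x y z : ℂ) :
    cr ((starRingEnd ℂ) x) ((starRingEnd ℂ) y) ((starRingEnd ℂ) z) = cr y x z := by
  simp only [cr, Complex.sub_re, Complex.sub_im, Complex.conj_re, Complex.conj_im]
  ring

theorem dist_conj (x y : ℂ) : dist ((starRingEnd ℂ) x) ((starRingEnd ℂ) y) = dist x y := by
  rw [Complex.dist_eq_re_im, Complex.dist_eq_re_im]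
  simp only [Complex.conj_re, Complex.conj_im]
  congr 1
  ring

end IX_CC

theorem pr_CC : S_CC := by
  intro S n a b o r h
  refine ⟨?_, ?_, ?_, ?_, ?_, ?_, ?_, ?_, ?_, ?_, ?_, ?_, ?_, ?_⟩
  · exact fun i hi => Finset.mem_image_of_mem _ (h.bS i hi)
  · exact fun i hi => Finset.mem_image_of_mem _ (h.aS i hi)
  · intro i hi
    rw [Complex.conj_im]
    linarith [h.bneg i hi]
  · intro i hi
    rw [Complex.conj_im]
    linarith [h.apos i hi]
  · intro i hi s hs
    obtain ⟨t, ht, rfl⟩ := Finset.mem_image.1 hs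
    rw [IX_CC.dist_conj]
    exact h.emp i hi t ht
  · intro i hi
    rw [IX_CC.dist_conj]
    exact h.ob i hi
  · intro i hi
    rw [IX_CC.dist_conj]
    exact h.oa i hi
  · intro i hi
    rw [IX_CC.dist_conj]
    exact h.ob' i hi
  · intro i hi
    rw [IX_CC.dist_conj]
    exact h.oa' i hi
  · rw [← map_zero (starRingEnd ℂ), IX_CC.dist_conj]
    exact h.o0
  · rw [← map_one (starRingEnd ℂ), IX_CC.dist_conj]
    exact h.o1
  · rw [← map_zero (starRingEnd ℂ), IX_CC.cr_conj]
    exact h.f0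
  · rw [← map_one (starRingEnd ℂ), IX_CC.cr_conj]
    exact h.f1
  · intro i hi
    rcases h.step i hi with ⟨h1, h2⟩ | ⟨h1, h2⟩
    · right
      refine ⟨by rw [h1], ?_⟩
      rw [IX_CC.cr_conj]
      exact h2
    · left
      refine ⟨by rw [h1], ?_⟩
      rw [IX_CC.cr_conj]
      exact h2

end DT.SB
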