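import Pool.Agent.Work.MP_74021c_co.SB.Stmts

set_option autoImplicit false

/-!
# Block SB, item CE: existence of the chain
-/

open Real Set

namespace DT.SB

namespace IX_CE

open WalkAxis

/-- the triangles of `DSys.of_general` -/
def Tr (S : Finset ℂ) (a b c : ℂ) : Prop := a ∈ S ∧ b ∈ S ∧ c ∈ S ∧ cr a b c ≠ 0 ∧
  ∃ (o : ℂ) (r : ℝ), dist o a = r ∧ dist o b = r ∧ dist o c = r ∧ ∀ s ∈ S, r ≤ dist o s

/-- the conditions of `Chain` except `o0`, `f0` -/
structure PC (S : Finset ℂ) (n : ℕ) (a b o : ℕ → ℂ) (r : ℕ → ℝ) : Prop where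
  aS : ∀ i ≤ n, a i ∈ S
  bS : ∀ i ≤ n, b i ∈ S
  apos : ∀ i ≤ n, 0 < (a i).im
  bneg : ∀ i ≤ n, (b i).im < 0
  emp : ∀ i ≤ n + 1, Emp S (o i) (r i)
  oa : ∀ i ≤ n, dist (o i) (a i) = r i
  ob : ∀ i ≤ n, dist (o i) (b i) = r i
  oa' : ∀ i ≤ n, dist (o (i + 1)) (a i) = r (i + 1)
  ob' : ∀ i ≤ n, dist (o (i + 1)) (b i) = r (i + 1)
  o1 : dist (o (n + 1)) 1 = r (n + 1)
  f1 : cr (b n) (a n) 1 < 0
  step : ∀ i < n, (a (i + 1) = a i ∧ cr (b i) (a i) (b (i + 1)) < 0) ∨
    (b (i + 1) = b i ∧ cr (b i) (a i) (a (i + 1)) < 0)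

/-- prepend an element to a sequence -/
def pre {α : Type} (x : α) (f : ℕ → α) : ℕ → α
  | 0 => x
  | i + 1 => f i

theorem pre_zero {α : Type} (x : α) (f : ℕ → α) : pre x f 0 = x := rfl
theorem pre_succ {α : Type} (x : α) (f : ℕ → α) (i : ℕ) : pre x f (i + 1) = f i := rfl

/-- one more link -/
theorem cons {S : Finset ℂ} {n : ℕ} {a b o : ℕ → ℂ} {r : ℕ → ℝ} (h : PC S n a b o r)
    {a0 b0 o0 : ℂ} {r0 : ℝ} (h1 : a0 ∈ S) (h2 : b0 ∈ S) (h3 : 0 < a0.im) (h4 : b0.im < 0)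
    (h5 : Emp S o0 r0) (h6 : dist o0 a0 = r0) (h7 : dist o0 b0 = r0) (h8 : dist (o 0) a0 = r 0)
    (h9 : dist (o 0) b0 = r 0) (h10 : (a 0 = a0 ∧ cr b0 a0 (b 0) < 0) ∨
      (b 0 = b0 ∧ cr b0 a0 (a 0) < 0)) :
    PC S (n + 1) (pre a0 a) (pre b0 b) (pre o0 o) (pre r0 r) := by
  refine ⟨?_, ?_, ?_, ?_, ?_, ?_, ?_, ?_, ?_, ?_, ?_, ?_⟩
  · rintro (_ | i) hi
    · exact h1
    · exact h.aS i (by omega)
  · rintro (_ | i) hi
    · exact h2
    · exact h.bS i (by omega)
  · rintro (_ | i) hi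
    · exact h3
    · exact h.apos i (by omega)
  · rintro (_ | i) hi
    · exact h4
    · exact h.bneg i (by omega)
  · rintro (_ | i) hi
    · exact h5
    · exact h.emp i (by omega)
  · rintro (_ | i) hi
    · exact h6
    · exact h.oa i (by omega)
  · rintro (_ | i) hi
    · exact h7
    · exact h.ob i (by omega)
  · rintro (_ | i) hi
    · exact h8
    · exact h.oa' i (by omega)
  · rintro (_ | i) hi
    · exact h9
    · exact h.ob' i (by omega)
  · exact h.o1
  · exact h.f1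
  · rintro (_ | i) hi
    · exact h10
    · exact h.step i (by omega)

/-- a chain with one crossing edge -/
theorem sing {S : Finset ℂ} {a0 b0 o0 o1 : ℂ} {r0 r1 : ℝ} (h1 : a0 ∈ S) (h2 : b0 ∈ S)
    (h3 : 0 < a0.im) (h4 : b0.im < 0) (h5 : Emp S o0 r0) (h6 : dist o0 a0 = r0)
    (h7 : dist o0 b0 = r0) (h5' : Emp S o1 r1) (h8 : dist o1 a0 = r1) (h9 : dist o1 b0 = r1)
    (h10 : dist o1 1 = r1) (h11 : cr b0 a0 1 < 0) :
    PC S 0 (fun _ => a0) (fun _ => b0) (pre o0 fun _ => o1) (pre r0 fun _ => r1) := by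
  refine ⟨fun _ _ => h1, fun _ _ => h2, fun _ _ => h3, fun _ _ => h4, ?_, ?_, ?_, ?_, ?_, h10,
    h11, ?_⟩
  · rintro (_ | i) hi
    · exact h5
    · exact h5'
  · rintro (_ | i) hi
    · exact h6
    · omega
  · rintro (_ | i) hi
    · exact h7
    · omega
  · rintro (_ | i) hi
    · exact h8
    · omega
  · rintro (_ | i) hi
    · exact h9
    · omega
  · intro i hi
    omega

/-- a point of the axis which is not inside the circle is right of the crossing point of the new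
edge -/
theorem conv {cx cy r x1 x2 : ℝ} (h1 : (x1 - cx) ^ 2 + cy ^ 2 ≤ r ^ 2)
    (h2 : (x2 - cx) ^ 2 + cy ^ 2 < r ^ 2) (h3 : r ^ 2 ≤ (1 - cx) ^ 2 + cy ^ 2) (h4 : x1 < 1) :
    x2 < 1 := by
  by_contra h5
  rw [not_lt] at h5
  rcases le_or_gt 1 cx with h6 | h6
  · have : (1 - cx) ^ 2 < (x1 - cx) ^ 2 := by nlinarith
    linarith
  · have : (1 - cx) ^ 2 ≤ (x2 - cx) ^ 2 := by nlinarith
    linarith

theorem cr_flip (a b z : ℂ) : cr a b z = - cr b a z := by
  unfold cr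
  simp only [Complex.sub_re, Complex.sub_im]
  ring

theorem nn {S : Finset ℂ} {o a : ℂ} {r : ℝ} (h : dist o a = r) : 0 ≤ r := by
  rw [← h]; exact dist_nonneg

theorem run {S : Finset ℂ} (hD : DSys S (Tr S) (fun a b => a ≠ b ∧ a ∈ S ∧ b ∈ S ∧
        ∃ (o : ℂ) (r : ℝ), dist o a = r ∧ dist o b = r ∧ ∀ s ∈ S, r ≤ dist o s))
    (hnc : NC3 S) (h0 : (0 : ℂ) ∈ S) (h1 : (1 : ℂ) ∈ S) (N : ℕ) :
    ∀ (a b e o : ℂ) (r : ℝ), (ahead S (X a b)).card = N → 0 < a.im → b.im < 0 → Tr S a b e →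
      0 < cr b a e → dist o a = r → dist o b = r → Emp S o r → X a b < 1 → 0 < X a b →
      ∃ (n : ℕ) (a' b' o' : ℕ → ℂ) (r' : ℕ → ℝ), PC S n a' b' o' r' ∧ a' 0 = a ∧ b' 0 = b ∧
        o' 0 = o ∧ r' 0 = r := by
  induction N using Nat.strong_induction_on with
  | _ N ih =>
  intro a b e o r hN ha hb htri he hoa hob hemp hX1 hX0
  have haS : a ∈ S := htri.1
  have hbS : b ∈ S := htri.2.1
  have hside1 : cr b a 1 < 0 := (cr_axis_neg ha hb Complex.one_im).mpr (by
    rw [Complex.one_re]; exact hX1)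
  obtain ⟨c, hc, hcs⟩ := hD.flip a b e htri 1 h1 (by
    rw [cr_flip a b 1, cr_flip a b e]
    nlinarith)
  have hside : cr b a c < 0 := by
    rw [cr_flip a b c, cr_flip a b e] at hcs
    by_contra h2
    have : 0 ≤ cr b a c * cr b a e := mul_nonneg (by linarith) he.le
    nlinarith
  obtain ⟨-, -, hcS, -, o1, r1, e1, e2, e3, e4⟩ := hc
  have sa := sq_of_dist e1
  have sb := sq_of_dist e2
  have sc := sq_of_dist e3
  have s1 := sq_of_le_dist (nn (S := S) e1) (e4 1 h1)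
  rw [Complex.one_re, Complex.one_im] at s1
  have hin := cross_in ha hb sa sb
  rcases lt_trichotomy c.im 0 with hc0 | hc0 | hc0
  · -- `c` below
    have hXX := X_lt_low ha hb hc0 hside
    have hlt := ahead_card_lt haS hcS ha hc0 hXX
    rw [hN] at hlt
    have hin2 := cross_in ha hc0 sa sc
    have hX1' : X a c < 1 := conv hin.le hin2 (by linarith) hX1
    have hs : 0 < cr c a b := by
      have : cr c a b = - cr b a c := by
        unfold cr
        simp only [Complex.sub_re, Complex.sub_im]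
        ring
      rw [this]; linarith
    have htri' : Tr S a c b := by
      refine ⟨haS, hcS, hbS, ?_, o1, r1, e1, e3, e2, e4⟩
      rw [cr_flip]
      linarith
    obtain ⟨n, a', b', o', r', hP, g1, g2, g3, g4⟩ :=
      ih _ hlt a c b o1 r1 rfl ha hc0 htri' hs e1 e3 e4 hX1' (by linarith)
    refine ⟨n + 1, pre a a', pre b b', pre o o', pre r r', cons hP haS hbS ha hb hemp hoa hob
      ?_ ?_ ?_, rfl, rfl, rfl, rfl⟩
    · rw [g3, g4]; exact e1
    · rw [g3, g4]; exact e2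
    · left
      rw [g1, g2]
      exact ⟨rfl, hside⟩
  · -- `c = 1`
    have hXc : X a b < c.re := (cr_axis_neg ha hb hc0).mp hside
    have hc1 : c = 1 := by
      by_contra h2
      have h3 : c ≠ 0 := by
        intro h3
        rw [h3, Complex.zero_re] at hXc
        linarith
      refine hnc 0 h0 1 h1 c hcS zero_ne_one (Ne.symm h3) (Ne.symm h2) ?_
      unfold cr
      simp [hc0]
    rw [hc1] at e3
    exact ⟨0, _, _, _, _, sing haS hbS ha hb hemp hoa hob e4 e1 e2 e3 hside1, rfl, rfl, rfl, rfl⟩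
  · -- `c` above
    have hXX := X_lt_up ha hb hc0 hside
    have hlt := ahead_card_lt hcS hbS hc0 hb hXX
    rw [hN] at hlt
    have hin2 := cross_in hc0 hb sc sb
    have hX1' : X c b < 1 := conv hin.le hin2 (by linarith) hX1
    have hs : 0 < cr b c a := by
      have : cr b c a = - cr b a c := by
        unfold cr
        simp only [Complex.sub_re, Complex.sub_im]
        ring
      rw [this]; linarith
    have htri' : Tr S c b a := by
      refine ⟨hcS, hbS, haS, ?_, o1, r1, e3, e2, e1, e4⟩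
      rw [cr_flip]
      linarith
    obtain ⟨n, a', b', o', r', hP, g1, g2, g3, g4⟩ :=
      ih _ hlt c b a o1 r1 rfl hc0 hb htri' hs e3 e2 e4 hX1' (by linarith)
    refine ⟨n + 1, pre a a', pre b b', pre o o', pre r r', cons hP haS hbS ha hb hemp hoa hob
      ?_ ?_ ?_, rfl, rfl, rfl, rfl⟩
    · rw [g3, g4]; exact e1
    · rw [g3, g4]; exact e2
    · right
      rw [g1, g2]
      exact ⟨rfl, hside⟩

end IX_CE

open IX_CE WalkAxis in
theorem pr_CE : S_CE := by
  intro S G hC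
  have hD := DSys.of_general S hC.nc3
  have h0 := hC.zero
  have h1 := hC.one
  have hedge : ∀ (o : ℂ) (r : ℝ), dist o 0 = r → dist o 1 = r → Emp S o r → G 0 1 :=
    fun o r e1 e2 e3 => hC.edge 0 h0 1 h1 zero_ne_one (by simp) o r e1 e2 e3
  rcases hD.start 0 h0 1 h1 zero_ne_one with ⟨-, -, -, o, r, e1, e2, e3⟩ |
    ⟨b, a, ⟨-, hbS, haS, hnd, o, r, e1, e2, e3, e4⟩, hpos, hb, ha⟩
  · exact Or.inl (hedge o r e1 e2 e3)
  have hb' : b.im ≤ 0 := by
    unfold cr at hb
    simp at hb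
    linarith
  have ha' : 0 ≤ a.im := by
    unfold cr at ha
    simp at ha
    linarith
  have hone : ∀ c ∈ S, c ≠ 0 → c.im = 0 → c = 1 := by
    intro c hc h2 h3
    by_contra h4
    refine hC.nc3 0 h0 1 h1 c hc zero_ne_one (Ne.symm h2) (Ne.symm h4) ?_
    unfold cr
    simp [h3]
  have hb0 : b ≠ 0 := by
    intro h
    apply hnd
    rw [h]
    unfold cr
    simp
  have ha0 : a ≠ 0 := by
    intro h
    apply hnd
    rw [h]
    unfold cr
    simp
  rcases hb'.eq_or_lt with hbz | hbz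
  · rw [hone b hbS hb0 hbz] at e2
    exact Or.inl (hedge o r e1 e2 e4)
  rcases ha'.eq_or_lt with haz | haz
  · rw [hone a haS ha0 haz.symm] at e3
    exact Or.inl (hedge o r e1 e3 e4)
  right
  have hs : 0 < cr b a 0 := by
    have : cr b a 0 = cr 0 b a := by
      unfold cr
      simp only [Complex.sub_re, Complex.sub_im, Complex.zero_re, Complex.zero_im]
      ring
    rw [this]; exact hpos
  have hX0 : 0 < X a b := by
    have := (cr_axis_pos haz hbz Complex.zero_im).mp hs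
    rwa [Complex.zero_re] at this
  have sa := sq_of_dist e3
  have sb := sq_of_dist e2
  have s0 := sq_of_dist e1
  have s1 := sq_of_le_dist (nn (S := S) e1) (e4 1 h1)
  rw [Complex.one_re, Complex.one_im] at s1
  rw [Complex.zero_re, Complex.zero_im] at s0
  have hX1 : X a b < 1 := conv (x1 := 0) (cy := o.im) (by linarith) (cross_in haz hbz sa sb)
    (by linarith) zero_lt_one
  have htri : Tr S a b 0 := by
    refine ⟨haS, hbS, h0, ?_, o, r, e3, e2, e1, e4⟩
    rw [cr_flip]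
    linarith
  obtain ⟨n, a', b', o', r', hP, g1, g2, g3, g4⟩ := run hD hC.nc3 h0 h1 _ a b 0 o r rfl haz hbz
    htri hs e3 e2 e4 hX1 hX0
  refine ⟨n, a', b', o', r', ⟨hP.aS, hP.bS, hP.apos, hP.bneg, hP.emp, hP.oa, hP.ob, hP.oa',
    hP.ob', ?_, hP.o1, ?_, hP.f1, hP.step⟩⟩
  · rw [g3, g4]; exact e1
  · rw [g1, g2]; exact hs

end DT.SB
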