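import Pool.Agent.Work.MP_74021c_co.SB.Stmts

/-!
# Block SB, item CF: facts of chains
-/

set_option autoImplicit false

open Real Set

namespace DT.SB

open WalkAxis

namespace IX_CF

theorem pos_r {a b o : ℂ} {r : ℝ} (ha : 0 < a.im) (hb : b.im < 0) (h1 : dist o a = r)
    (h2 : dist o b = r) : 0 < r := by
  rcases lt_or_eq_of_le (h1 ▸ dist_nonneg : 0 ≤ r) with h | h
  · exact h
  · exfalso
    have e1 : o = a := dist_eq_zero.1 (h1.trans h.symm)
    have e2 : o = b := dist_eq_zero.1 (h2.trans h.symm)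
    rw [← e1] at ha
    rw [← e2] at hb
    linarith

theorem ax_of {a b o : ℂ} {r : ℝ} (ha : 0 < a.im) (hb : b.im < 0) (h1 : dist o a = r)
    (h2 : dist o b = r) (h0 : r ≤ dist o 0) (h1' : r ≤ dist o 1) (hX0 : 0 < X a b)
    (hX1 : X a b < 1) : Ax o r := by
  have hr := pos_r ha hb h1 h2
  have e1 := sq_of_dist h1
  have e2 := sq_of_dist h2
  have hin := cross_in ha hb e1 e2
  have hcy := abs_cy_lt hr ha hb e1 e2
  have e0 := sq_of_le_dist hr.le h0
  have e3 := sq_of_le_dist hr.le h1'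
  simp only [Complex.zero_re, Complex.zero_im, Complex.one_re, Complex.one_im] at e0 e3
  have hnn : 0 ≤ r ^ 2 - o.im ^ 2 := by
    have := sq_lt_sq' (abs_lt.1 hcy).1 (abs_lt.1 hcy).2
    linarith
  obtain ⟨h, hh⟩ : ∃ h, h = √(r ^ 2 - o.im ^ 2) := ⟨_, rfl⟩
  have hh0 : 0 ≤ h := by rw [hh]; exact sqrt_nonneg _
  have hsq : h ^ 2 = r ^ 2 - o.im ^ 2 := by rw [hh]; exact sq_sqrt hnn
  have hXh : (X a b - o.re) ^ 2 < h ^ 2 := by rw [hsq]; linarith
  have hXa := abs_lt_of_sq_lt_sq' hXh hh0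
  refine ⟨hr, hcy, ?_, ?_⟩
  · unfold xL
    rw [← hh]
    have h3 : h ^ 2 ≤ o.re ^ 2 := by rw [hsq]; nlinarith
    by_contra h4
    have h5 : o.re < h := by linarith
    rcases le_or_gt 0 o.re with h7 | h7
    · have := sq_le_sq.1 h3
      rw [abs_of_nonneg hh0, abs_of_nonneg h7] at this
      linarith
    · have := sq_le_sq.1 h3
      rw [abs_of_nonneg hh0, abs_of_neg h7] at this
      linarith [hXa.1, hXa.2]
  · unfold xR
    rw [← hh]
    have h3 : h ^ 2 ≤ (1 - o.re) ^ 2 := by rw [hsq]; nlinarith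
    by_contra h4
    rcases le_or_gt 0 (1 - o.re) with h7 | h7
    · have := sq_le_sq.1 h3
      rw [abs_of_nonneg hh0, abs_of_nonneg h7] at this
      linarith
    · have := sq_le_sq.1 h3
      rw [abs_of_nonneg hh0, abs_of_neg h7] at this
      linarith [hXa.1, hXa.2]

theorem left_zero {o : ℂ} {r : ℝ} (hA : Ax o r) (h0 : dist o 0 = r) : xL o r = 0 := by
  obtain ⟨hr, hcy, hL, -⟩ := hA
  have e0 := sq_of_dist h0
  simp only [Complex.zero_re, Complex.zero_im] at e0
  have e1 : r ^ 2 - o.im ^ 2 = o.re ^ 2 := by nlinarith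
  unfold xL at hL ⊢
  rw [e1, sqrt_sq_eq_abs] at hL ⊢
  have h1 : 0 ≤ o.re := by linarith [abs_nonneg o.re]
  rw [abs_of_nonneg h1, sub_self]

end IX_CF

open IX_CF in
theorem pr_CF (h1 : S_FWO) : S_CF := by
  intro S G n a b o r hC hc
  -- the crossing points
  have hstep : ∀ i, i < n → X (a i) (b i) < X (a (i + 1)) (b (i + 1)) := by
    intro i hi
    rcases hc.step i hi with ⟨e, h⟩ | ⟨e, h⟩
    · rw [e]
      exact X_lt_low (hc.apos i hi.le) (hc.bneg i hi.le) (hc.bneg (i + 1) hi) h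
    · rw [e]
      exact X_lt_up (hc.apos i hi.le) (hc.bneg i hi.le) (hc.apos (i + 1) hi) h
  have hX0 : 0 < X (a 0) (b 0) := by
    have := (cr_axis_pos (z := 0) (hc.apos 0 (Nat.zero_le _)) (hc.bneg 0 (Nat.zero_le _))
      Complex.zero_im).1 hc.f0
    simpa using this
  have hX1 : X (a n) (b n) < 1 := by
    have := (cr_axis_neg (z := 1) (hc.apos n le_rfl) (hc.bneg n le_rfl) Complex.one_im).1 hc.f1
    simpa using this
  have hpos : ∀ i, i ≤ n → 0 < X (a i) (b i) := by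
    intro i
    induction i with
    | zero => intro _; exact hX0
    | succ i ih => intro hi; exact (ih (by omega)).trans (hstep i (by omega))
  have hlt : ∀ j i, i + j = n → X (a i) (b i) < 1 := by
    intro j
    induction j with
    | zero => intro i hi; rw [add_zero] at hi; rw [hi]; exact hX1
    | succ j ih => intro i hi; exact (hstep i (by omega)).trans (ih (i + 1) (by omega))
  have hAx : ∀ i ≤ n + 1, Ax (o i) (r i) := by
    intro i hi
    rcases Nat.lt_or_ge n i with h | h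
    · have e : i = n + 1 := by omega
      subst e
      exact ax_of (hc.apos n le_rfl) (hc.bneg n le_rfl) (hc.oa' n le_rfl) (hc.ob' n le_rfl)
        (hc.emp _ le_rfl 0 hC.zero) (hc.emp _ le_rfl 1 hC.one) (hpos n le_rfl) hX1
    · exact ax_of (hc.apos i h) (hc.bneg i h) (hc.oa i h) (hc.ob i h)
        (hc.emp _ hi 0 hC.zero) (hc.emp _ hi 1 hC.one) (hpos i h) (hlt (n - i) i (by omega))
  refine ⟨hAx, left_zero (hAx 0 (Nat.zero_le _)) hc.o0, fun i hi => ?_⟩
  rcases Nat.lt_or_ge i n with h | h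
  · rcases hc.step i h with ⟨e, hcr⟩ | ⟨e, hcr⟩
    · exact h1 (a i) (b i) (b (i + 1)) (o i) (r i) (o (i + 1)) (r (i + 1)) (hc.apos i hi)
        (hc.bneg i hi) (hc.oa i hi) (hc.ob i hi) (hc.oa' i hi) (hc.ob' i hi) (hc.ob (i + 1) h)
        (hc.emp i (by omega) _ (hc.bS (i + 1) h)) hcr
    · exact h1 (a i) (b i) (a (i + 1)) (o i) (r i) (o (i + 1)) (r (i + 1)) (hc.apos i hi)
        (hc.bneg i hi) (hc.oa i hi) (hc.ob i hi) (hc.oa' i hi) (hc.ob' i hi) (hc.oa (i + 1) h)
        (hc.emp i (by omega) _ (hc.aS (i + 1) h)) hcr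
  · have e : i = n := by omega
    subst e
    exact h1 (a i) (b i) 1 (o i) (r i) (o (i + 1)) (r (i + 1)) (hc.apos i hi)
      (hc.bneg i hi) (hc.oa i hi) (hc.ob i hi) (hc.oa' i hi) (hc.ob' i hi) hc.o1
      (hc.emp i (by omega) _ hC.one) hc.f1

end DT.SB
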