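import Pool.Agent.Work.MP_74021c_co.SB.Stmts

/-!
# Block SB: item CH (the chords)
-/

set_option autoImplicit false

open Real Set

namespace DT.SB

namespace IX_CH

theorem aux {r α β : ℝ} : (r * cos α - r * cos β) ^ 2 + (r * sin α - r * sin β) ^ 2 =
    (2 * r * sin ((α - β) / 2)) ^ 2 := by
  have h1 := cos_sub α β
  have h3 := cos_sq ((α - β) / 2)
  rw [show 2 * ((α - β) / 2) = α - β by ring] at h3
  have h4 := sin_sq_add_cos_sq α
  have h5 := sin_sq_add_cos_sq β
  have h7 := sin_sq_add_cos_sq ((α - β) / 2)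
  have h6 : sin ((α - β) / 2) ^ 2 = 1 / 2 - (cos α * cos β + sin α * sin β) / 2 := by
    linarith
  rw [mul_pow, h6]
  linear_combination r ^ 2 * h4 + r ^ 2 * h5

/-- distance from the coordinates -/
theorem dst {x cx r α β s : ℝ} {z : ℂ} (hr : 0 < r) (h1 : x = cx + r * cos α)
    (h2 : z.re = cx + r * cos β) (h3 : z.im = r * s + r * sin β) (h4 : r * s + r * sin α = 0)
    (h5 : 0 ≤ sin ((α - β) / 2)) : dist ((x : ℝ) : ℂ) z = 2 * r * sin ((α - β) / 2) := by
  rw [Complex.dist_eq_re_im, Complex.ofReal_re, Complex.ofReal_im, h1, h2, h3, ← h4]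
  rw [← Real.sqrt_sq (show 0 ≤ 2 * r * sin ((α - β) / 2) by positivity), ← aux]
  congr 1
  ring

/-- the same for the lower arc -/
theorem dst' {x cx r α β s : ℝ} {z : ℂ} (hr : 0 < r) (h1 : x = cx + r * cos α)
    (h2 : z.re = cx + r * cos β) (h3 : z.im = r * s - r * sin β) (h4 : r * s - r * sin α = 0)
    (h5 : 0 ≤ sin ((α - β) / 2)) : dist ((x : ℝ) : ℂ) z = 2 * r * sin ((α - β) / 2) := by
  rw [Complex.dist_eq_re_im, Complex.ofReal_re, Complex.ofReal_im, h1, h2, h3, ← h4]
  rw [← Real.sqrt_sq (show 0 ≤ 2 * r * sin ((α - β) / 2) by positivity), ← aux]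
  congr 1
  ring

end IX_CH

open IX_CH in
theorem pr_CH : S_CH := by
  intro a b o r w p q h
  have hC := h.1
  have hr := hC.hr
  have hw := abs_lt.1 hC.hw
  have hp0 := hC.hp0
  have hp1 := hC.hp1
  have hq0 := hC.hq0
  have hq1 := hC.hq1
  have hpi := Real.pi_pos
  refine ⟨?_, ?_, ?_, ?_, hC.dist_ab⟩
  · have e : (π + w - (2 * p - w)) / 2 = π / 2 + w - p := by ring
    have h1 := dst (x := o.re - r * cos w) (cx := o.re) (r := r) (α := π + w) (β := 2 * p - w)
      (s := sin w) (z := a) hr (by rw [add_comm π, cos_add_pi]; ring) hC.are hC.aim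
      (by rw [add_comm π, sin_add_pi]; ring)
      (by rw [e]; exact sin_nonneg_of_nonneg_of_le_pi (by linarith) (by linarith))
    rw [e] at h1
    exact h1
  · have e : (π - w - (2 * q + w)) / 2 = π / 2 - w - q := by ring
    have h1 := dst' (x := o.re - r * cos w) (cx := o.re) (r := r) (α := π - w) (β := 2 * q + w)
      (s := sin w) (z := b) hr (by rw [cos_pi_sub]; ring) hC.bre hC.bim
      (by rw [sin_pi_sub]; ring)
      (by rw [e]; exact sin_nonneg_of_nonneg_of_le_pi (by linarith) (by linarith))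
    rw [e] at h1
    exact h1
  · have e : (2 * π - w - (2 * p - w)) / 2 = π - p := by ring
    have h1 := dst (x := o.re + r * cos w) (cx := o.re) (r := r) (α := 2 * π - w)
      (β := 2 * p - w) (s := sin w) (z := a) hr (by rw [cos_two_pi_sub]) hC.are hC.aim
      (by rw [sin_two_pi_sub]; ring)
      (by rw [e, sin_pi_sub]; exact sin_nonneg_of_nonneg_of_le_pi (by linarith) (by linarith))
    rw [e, sin_pi_sub] at h1
    exact h1
  · have e : (2 * π + w - (2 * q + w)) / 2 = π - q := by ring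
    have h1 := dst' (x := o.re + r * cos w) (cx := o.re) (r := r) (α := 2 * π + w)
      (β := 2 * q + w) (s := sin w) (z := b) hr (by rw [add_comm (2 * π), cos_add_two_pi]) hC.bre
      hC.bim (by rw [add_comm (2 * π), sin_add_two_pi]; ring)
      (by rw [e, sin_pi_sub]; exact sin_nonneg_of_nonneg_of_le_pi (by linarith) (by linarith))
    rw [e, sin_pi_sub] at h1
    exact h1

end DT.SB
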