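import Pool.Agent.Work.MP_74021c_co.SB.Stmts

/-!
# Item CM (helper55): the mirror image of a chain
-/

set_option autoImplicit false

open Real Set

namespace DT.SB

namespace IX_CM

theorem mir_re (z : ℂ) : (mir z).re = 1 - z.re := by
  simp [mir]

theorem mir_im (z : ℂ) : (mir z).im = z.im := by
  simp [mir]

theorem mir_zero : mir 0 = 1 := by
  apply Complex.ext
  · rw [mir_re]; simp
  · rw [mir_im]; simp

theorem mir_one : mir 1 = 0 := by
  apply Complex.ext
  · rw [mir_re]; simp
  · rw [mir_im]; simp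

theorem dist_mir (x y : ℂ) : dist (mir x) (mir y) = dist x y := by
  rw [Complex.dist_eq_re_im, Complex.dist_eq_re_im, mir_re, mir_re, mir_im, mir_im]
  congr 1
  ring

theorem cr_mir (a b c : ℂ) : cr (mir a) (mir b) (mir c) = cr c b a := by
  simp only [cr, Complex.sub_re, Complex.sub_im, mir_re, mir_im]
  ring

end IX_CM

open IX_CM

theorem pr_CM : S_CM := by
  intro S n a b o r h
  have hi : ∀ i ≤ n, n + 1 - i = n - i + 1 := fun i hi => by omega
  have hi' : ∀ i, n + 1 - (i + 1) = n - i := fun i => by omega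
  refine
    { aS := fun i _ => Finset.mem_image_of_mem _ (h.aS _ (Nat.sub_le _ _))
      bS := fun i _ => Finset.mem_image_of_mem _ (h.bS _ (Nat.sub_le _ _))
      apos := fun i _ => ?_
      bneg := fun i _ => ?_
      emp := fun i _ => ?_
      oa := fun i hin => ?_
      ob := fun i hin => ?_
      oa' := fun i hin => ?_
      ob' := fun i hin => ?_
      o0 := ?_
      o1 := ?_
      f0 := ?_
      f1 := ?_
      step := fun i hin => ?_ }
  · change 0 < (mir (a (n - i))).im
    rw [mir_im]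
    exact h.apos _ (Nat.sub_le _ _)
  · change (mir (b (n - i))).im < 0
    rw [mir_im]
    exact h.bneg _ (Nat.sub_le _ _)
  · intro s hs
    obtain ⟨s', hs', rfl⟩ := Finset.mem_image.1 hs
    rw [dist_mir]
    exact h.emp _ (Nat.sub_le _ _) s' hs'
  · change dist (mir (o (n + 1 - i))) (mir (a (n - i))) = r (n + 1 - i)
    rw [dist_mir, hi i hin]
    exact h.oa' _ (Nat.sub_le _ _)
  · change dist (mir (o (n + 1 - i))) (mir (b (n - i))) = r (n + 1 - i)
    rw [dist_mir, hi i hin]
    exact h.ob' _ (Nat.sub_le _ _)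
  · change dist (mir (o (n + 1 - (i + 1)))) (mir (a (n - i))) = r (n + 1 - (i + 1))
    rw [dist_mir, hi']
    exact h.oa _ (Nat.sub_le _ _)
  · change dist (mir (o (n + 1 - (i + 1)))) (mir (b (n - i))) = r (n + 1 - (i + 1))
    rw [dist_mir, hi']
    exact h.ob _ (Nat.sub_le _ _)
  · change dist (mir (o (n + 1 - 0))) 0 = r (n + 1 - 0)
    rw [← mir_one, dist_mir, Nat.sub_zero]
    exact h.o1
  · change dist (mir (o (n + 1 - (n + 1)))) 1 = r (n + 1 - (n + 1))
    rw [← mir_zero, dist_mir, Nat.sub_self]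
    exact h.o0
  · change 0 < cr (mir (b (n - 0))) (mir (a (n - 0))) 0
    rw [← mir_one, cr_mir, Nat.sub_zero]
    have h1 := h.f1
    simp only [cr, Complex.sub_re, Complex.sub_im] at h1 ⊢
    linarith
  · change cr (mir (b (n - n))) (mir (a (n - n))) 1 < 0
    rw [← mir_zero, cr_mir, Nat.sub_self]
    have h1 := h.f0
    simp only [cr, Complex.sub_re, Complex.sub_im] at h1 ⊢
    linarith
  · obtain ⟨j, hj⟩ : ∃ j, j = n - (i + 1) := ⟨_, rfl⟩
    have hj1 : n - i = j + 1 := by omega
    change (mir (a (n - (i + 1))) = mir (a (n - i)) ∧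
        cr (mir (b (n - i))) (mir (a (n - i))) (mir (b (n - (i + 1)))) < 0) ∨
      (mir (b (n - (i + 1))) = mir (b (n - i)) ∧
        cr (mir (b (n - i))) (mir (a (n - i))) (mir (a (n - (i + 1)))) < 0)
    rw [hj1, ← hj, cr_mir, cr_mir]
    rcases h.step j (by omega) with ⟨h1, h2⟩ | ⟨h1, h2⟩
    · left
      rw [h1]
      exact ⟨rfl, h2⟩
    · right
      rw [h1]
      refine ⟨rfl, ?_⟩
      simp only [cr, Complex.sub_re, Complex.sub_im] at h2 ⊢
      linarith

end DT.SB
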