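import Pool.Agent.Work.MP_74021c_co.SB.Stmts

/-!
# Block SB, item CMP: a comparison lemma
-/

set_option autoImplicit false

open Real Set

namespace DT.SB

theorem pr_CMP : S_CMP := by
  intro f f' x0 x1 C hx hd hpos
  by_contra hcon
  push Not at hcon
  have hcont : ContinuousOn f (Icc x0 x1) := fun x hxx => (hd x hxx).continuousAt.continuousWithinAt
  have hcl : IsClosed (Icc x0 x1 ∩ f ⁻¹' Ici (min (f x0) C)) :=
    hcont.preimage_isClosed_of_isClosed isClosed_Icc isClosed_Ici
  have hcp : IsCompact (Icc x0 x1 ∩ f ⁻¹' Ici (min (f x0) C)) :=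
    isCompact_Icc.of_isClosed_subset hcl inter_subset_left
  have hne : (Icc x0 x1 ∩ f ⁻¹' Ici (min (f x0) C)).Nonempty :=
    ⟨x0, left_mem_Icc.2 hx, mem_preimage.2 (mem_Ici.2 (min_le_left (f x0) C))⟩
  obtain ⟨s, hs, hsg⟩ := hcp.exists_isGreatest hne
  have hs1 : s ≠ x1 := by
    rintro rfl
    have h1 : min (f x0) C ≤ f s := hs.2
    linarith
  have hs2 : s < x1 := lt_of_le_of_ne hs.1.2 hs1
  have hmono : MonotoneOn f (Icc s x1) := by
    apply monotoneOn_of_deriv_nonneg (convex_Icc s x1)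
    · exact hcont.mono (Icc_subset_Icc_left hs.1.1)
    · intro x hxx
      rw [interior_Icc] at hxx
      exact (hd x ⟨le_trans hs.1.1 hxx.1.le, hxx.2.le⟩).differentiableAt.differentiableWithinAt
    · intro x hxx
      rw [interior_Icc] at hxx
      have hxI : x ∈ Icc x0 x1 := ⟨le_trans hs.1.1 hxx.1.le, hxx.2.le⟩
      rw [(hd x hxI).deriv]
      apply hpos x hxI
      by_contra h
      push Not at h
      have h2 : x ≤ s := hsg ⟨hxI, mem_preimage.2 (mem_Ici.2 (le_trans (min_le_right (f x0) C) h))⟩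
      linarith [hxx.1]
  have h3 := hmono (left_mem_Icc.2 hs2.le) (right_mem_Icc.2 hs2.le) hs2.le
  have h4 : min (f x0) C ≤ f s := hs.2
  linarith

end DT.SB
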