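import Pool.Agent.Work.MP_74021c_co.SB.Stmts

/-!
# Block SB, item CT: the path in the situation `Ctx`
-/

set_option autoImplicit false

open Real Set

namespace DT.SB

theorem pr_CT (h1 : S_CE) (h2 : S_PO) (h3 : S_PB) (h4 : S_MX) (h5 : S_XC) (h6 : S_CC) (h7 : S_RT)
    (h8 : S_BIG) : S_CT := by
  intro P S G hctx
  have hctx' := h5 S G hctx
  -- transport back from the conjugate situation
  have back : (∃ D, Reach (fun u v => G ((starRingEnd ℂ) u) ((starRingEnd ℂ) v)) 0 1 D ∧ D ≤ 8 / 5) →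
      ∃ D, Reach G 0 1 D ∧ D ≤ 8 / 5 := by
    rintro ⟨D, hD, hle⟩
    have h := (h7 G).2.1 0 1 D hD
    rw [map_zero, map_one] at h
    exact ⟨D, h, hle⟩
  rcases h1 S G hctx with hG | ⟨n, a, b, o, r, hch⟩
  · refine ⟨0 + dist (0 : ℂ) 1, Reach.step Reach.refl hG, ?_⟩
    rw [dist_zero_left, norm_one]
    norm_num
  have hch' := h6 S n a b o r hch
  by_cases hs : ∀ i ≤ n + 1, r i ≤ 1 / 2
  · exact h2 P S G n a b o r hctx hch hs
  push Not at hs
  have hne : ∀ i ≤ n + 1, 1 / 2 < r i → (o i).im ≠ 0 := fun i hi hr =>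
    ((h8 S G n a b o r hctx hch i hi).2 hr).2.2.2
  have him : ∀ i, ((starRingEnd ℂ) (o i)).im = - (o i).im := fun i => Complex.conj_im (o i)
  by_cases hup : Up n o r
  · exact h3 S G n a b o r hctx hch hup hs
  by_cases hdown : ∀ i ≤ n + 1, 1 / 2 < r i → (o i).im < 0
  · refine back (h3 _ _ n _ _ _ r hctx' hch' ?_ hs)
    intro i hi hr
    have := hdown i hi hr
    show 0 < ((starRingEnd ℂ) (o i)).im
    rw [him]
    linarith
  unfold Up at hup
  push Not at hup hdown
  obtain ⟨i, hi, hri, hi0⟩ := hup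
  obtain ⟨j, hj, hrj, hj0⟩ := hdown
  have hi1 : (o i).im < 0 := lt_of_le_of_ne hi0 (hne i hi hri)
  have hj1 : 0 < (o j).im := lt_of_le_of_ne hj0 (Ne.symm (hne j hj hrj))
  rcases lt_trichotomy i j with hij | hij | hij
  · exact h4 S G n a b o r hctx hch i j hij hj hri hi1 hrj hj1
  · subst hij
    exact absurd hi1 (not_lt.2 hj1.le)
  · refine back (h4 _ _ n _ _ _ r hctx' hch' j i hij hi hrj ?_ hri ?_)
    · show ((starRingEnd ℂ) (o j)).im < 0
      rw [him]
      linarith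
    · show 0 < ((starRingEnd ℂ) (o i)).im
      rw [him]
      linarith

end DT.SB
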