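import Pool.Agent.Work.MP_74021c_co.SB.Stmts

/-!
# Item D2: an inequality for the sine
-/

set_option autoImplicit false

open Real Set

namespace DT.SB

namespace IX_D2

theorem poly (x : ℝ) (h0 : 0 ≤ x) (h1 : x ≤ 63 / 100) :
    8 / 5 * (1 + (x + 1571 / 1000) * x) ≤
      ((5859 / 1000 - x) * (x + 584 / 1000)) * (1 - x ^ 2 / 2) := by
  have h2 : x ^ 2 ≤ 63 / 100 * x := by nlinarith
  have h3 : x ^ 3 ≤ 26 / 100 := by
    calc x ^ 3 ≤ (63 / 100) ^ 3 := by gcongr
      _ ≤ 26 / 100 := by norm_num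
  have h4 : 0 ≤ x ^ 4 := by positivity
  nlinarith

end IX_D2

open IX_D2 in
theorem pr_D2 : S_D2 := by
  intro q hq1 hq2
  have hp1 : (157 / 100 : ℝ) < π / 2 := by linarith [Real.pi_gt_d2]
  have hp2 : π / 2 < (1571 / 1000 : ℝ) := by linarith [Real.pi_lt_d4]
  obtain ⟨x, hx⟩ : ∃ x, x = q - π / 2 := ⟨_, rfl⟩
  have hc : cos x = sin q := by rw [hx, Real.cos_sub_pi_div_two]
  have hs : sin x = - cos q := by rw [hx, Real.sin_sub_pi_div_two]
  have hx0 : 0 ≤ x := by linarith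
  have hx1 : x ≤ 63 / 100 := by linarith
  have a1 : 1 - x ^ 2 / 2 ≤ sin q := by rw [← hc]; exact Real.one_sub_sq_div_two_le_cos
  have a2 : sin q ≤ 1 := Real.sin_le_one q
  have a3 : - cos q ≤ x := by rw [← hs]; exact Real.sin_le hx0
  have hqx : q ≤ x + 1571 / 1000 := by linarith
  have b1 : sin q - q * cos q ≤ 1 + (x + 1571 / 1000) * x := by
    have : q * (- cos q) ≤ (x + 1571 / 1000) * x := by
      calc q * (- cos q) ≤ q * x := by
            apply mul_le_mul_of_nonneg_left a3; linarith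
        _ ≤ (x + 1571 / 1000) * x := mul_le_mul_of_nonneg_right hqx hx0
    linarith
  have c1 : 5859 / 1000 - x ≤ 743 / 100 - q := by linarith
  have c2 : x + 584 / 1000 ≤ q - sin q + 7 / 500 := by linarith
  have c3 : 0 ≤ 1 - x ^ 2 / 2 := by nlinarith
  calc 8 / 5 * (sin q - q * cos q) ≤ 8 / 5 * (1 + (x + 1571 / 1000) * x) := by linarith
    _ ≤ ((5859 / 1000 - x) * (x + 584 / 1000)) * (1 - x ^ 2 / 2) := poly x hx0 hx1
    _ ≤ ((743 / 100 - q) * (q - sin q + 7 / 500)) * sin q := by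
        apply mul_le_mul _ a1 c3
        · apply mul_nonneg <;> linarith
        · apply mul_le_mul c1 c2 (by linarith) (by linarith)

end DT.SB
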