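import Pool.Agent.Work.MP_74021c_co.SB.Stmts

set_option autoImplicit false

open Real Set

namespace DT.SB

theorem pr_D3 : S_D3 := by
  intro q h1 h2
  have hpi1 : π < 3.1416 := Real.pi_lt_d4
  have hpi2 : 3.1415 < π := Real.pi_gt_d4
  obtain ⟨x, hx⟩ : ∃ x, x = π - q := ⟨_, rfl⟩
  have hs : sin q = sin x := by rw [hx, Real.sin_pi_sub]
  have hx0 : 0 ≤ x := by rw [hx]; linarith
  have hx1 : x ≤ 9416 / 10000 := by
    rw [hx]
    norm_num at hpi1 ⊢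
    linarith
  have hq : q = π - x := by rw [hx]; ring
  have hb := Real.sin_bound (x := x) (by rw [abs_of_nonneg hx0]; linarith)
  rw [abs_of_nonneg hx0] at hb
  have hb2 := (abs_le.1 hb).2
  rw [hs, hq]
  have h3 : (0:ℝ) ≤ (9416 / 10000 - x) := by linarith
  have hx2 : 0 ≤ x ^ 2 := sq_nonneg x
  have hx3 : 0 ≤ x ^ 3 := pow_nonneg hx0 3
  have hxx : x ^ 2 ≤ 1 := by nlinarith
  have key : 18 / 5 * x - 13 / 30 * x ^ 3 + 13 / 96 * x ^ 4 ≤
      18 / 5 * (9416 / 10000) - 13 / 30 * (9416 / 10000) ^ 3 + 13 / 96 * (9416 / 10000 : ℝ) ^ 4 := by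
    have h4 : 0 ≤ (9416 / 10000 - x) * (18 / 5 - 13 / 30 * ((9416 / 10000) ^ 2 +
        9416 / 10000 * x + x ^ 2) + 13 / 96 * ((9416 / 10000) ^ 3 + (9416 / 10000) ^ 2 * x +
        9416 / 10000 * x ^ 2 + x ^ 3)) := by
      refine mul_nonneg h3 ?_
      nlinarith
    nlinarith
  have h5 : x ^ 5 ≤ x ^ 4 := pow_le_pow_of_le_one hx0 (by linarith) (by norm_num)
  have h6 : 0 ≤ x ^ 4 := pow_nonneg hx0 4
  norm_num at key hpi1 hpi2 ⊢
  linarith

end DT.SB
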