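import Pool.Agent.Work.MP_74021c_co.SB.Stmts

/-!
# Block SB, item DI (the dichotomy)
-/

set_option autoImplicit false

open Real Set

namespace DT.SB

namespace IX_DI

/-- `q cos q ≤ sin q` on `(0, π)` -/
theorem nn (q : ℝ) (h0 : 0 < q) (h1 : q < π) : 0 ≤ sin q - q * cos q := by
  have hs : 0 < sin q := sin_pos_of_pos_of_lt_pi h0 h1
  rcases le_or_gt (cos q) 0 with hc | hc
  · have : q * cos q ≤ 0 := mul_nonpos_of_nonneg_of_nonpos h0.le hc
    linarith
  · have hq : q < π / 2 := by
      by_contra h
      have := cos_nonpos_of_pi_div_two_le_of_le (not_lt.1 h) (by linarith)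
      linarith
    have ht := Real.lt_tan h0 hq
    rw [tan_eq_sin_div_cos, lt_div_iff₀ hc] at ht
    linarith

end IX_DI

theorem pr_DI (h1 : S_D1) (h2 : S_D2) (h3 : S_D3) : S_DI := by
  intro p q hp hq hpq h
  have hpi := pi_lt_four
  have hqpi : q < π := by linarith
  have hppi : p < π := by linarith
  have hsp : 0 < sin p := sin_pos_of_pos_of_lt_pi hp hppi
  have hsq : 0 < sin q := sin_pos_of_pos_of_lt_pi hq hqpi
  have hA := IX_DI.nn q hq hqpi
  have hk : 0 < 743 / 100 - q := by linarith
  have hR : 0 < (743 / 100 - q) * sin p * sin q := by positivity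
  rcases le_or_gt (cos p) 0 with hc | hc
  · have : cos p * (sin q - q * cos q) ≤ 0 := mul_nonpos_of_nonpos_of_nonneg hc hA
    linarith
  · have hc1 := cos_le_one p
    have hle : cos p * (sin q - q * cos q) ≤ sin q - q * cos q := mul_le_of_le_one_left hA hc1
    refine hle.trans ?_
    rw [sin_add] at h
    have hks : 0 < (743 / 100 - q) * sin q := by positivity
    rcases le_or_gt q (π / 2) with hq2 | hq2
    · have e1 : sin p * cos q ≤ sin p := mul_le_of_le_one_right hsp.le (cos_le_one q)
      have e2 : cos p * sin q ≤ sin q := mul_le_of_le_one_left hsq.le hc1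
      have e3 : q - sin q + 7 / 500 ≤ 13 / 5 * sin p := by linarith
      have e4 := h1 q hq hq2
      have e5 := mul_le_mul_of_nonneg_left e3 hks.le
      nlinarith
    · have hcq : cos q ≤ 0 := cos_nonpos_of_pi_div_two_le_of_le hq2.le (by linarith)
      have e1 : sin p * cos q ≤ 0 := mul_nonpos_of_nonneg_of_nonpos hsp.le hcq
      have e2 : cos p * sin q ≤ sin q := mul_le_of_le_one_left hsq.le hc1
      have e3 : q - sin q + 7 / 500 ≤ 8 / 5 * sin p := by linarith
      have e6 : sin p ≤ sin q := by
        rw [← sin_pi_sub q]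
        exact sin_le_sin_of_le_of_le_pi_div_two (by linarith) (by linarith) (by linarith)
      have e7 : q ≤ 11 / 5 := by
        by_contra hn
        have := h3 q (not_le.1 hn).le hqpi.le
        linarith
      have e4 := h2 q hq2.le e7
      have e5 := mul_le_mul_of_nonneg_left e3 hks.le
      nlinarith

end DT.SB

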