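import Pool.Agent.Work.MP_74021c_co.SB.Stmts

/-!
# Item DR (block SB of MP_74021c_co): a nearly horizontal chord of a near-diametral circle
-/

set_option autoImplicit false

open Real Set

namespace DT.SB

namespace IX_DR

theorem dist_sq (z w : ℂ) : dist z w ^ 2 = (z.re - w.re) ^ 2 + (z.im - w.im) ^ 2 := by
  rw [Complex.dist_eq_re_im, Real.sq_sqrt (by positivity)]

theorem dist_le (z w : ℂ) : dist z w ≤ |z.re - w.re| + |z.im - w.im| := by
  rw [Complex.dist_eq_re_im]
  apply Real.sqrt_le_iff.2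
  refine ⟨by positivity, ?_⟩
  rw [← sq_abs (z.re - w.re), ← sq_abs (z.im - w.im)]
  nlinarith [abs_nonneg (z.re - w.re), abs_nonneg (z.im - w.im)]

/-- one point: `A² = h² + e`, `|e| ≤ .495 t`, `t ≤ .131` -/
theorem one (A h e t : ℝ) (hh : 466 / 1000 ≤ h) (ht : 0 < t) (ht1 : t ≤ 131 / 1000)
    (he : |e| ≤ 495 / 1000 * t) (hA : A ^ 2 = h ^ 2 + e) :
    38 / 100 ≤ abs A ∧ abs (h - abs A) ≤ 6 / 10 * t := by
  obtain ⟨he1, he2⟩ := abs_le.1 he
  have hA0 : 0 ≤ |A| := abs_nonneg A
  have hA2 : |A| ^ 2 = h ^ 2 + e := by rw [sq_abs, hA]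
  have h1 : 38 / 100 ≤ |A| := by
    by_contra hcon
    push Not at hcon
    nlinarith
  refine ⟨h1, ?_⟩
  rw [abs_le]
  constructor
  · by_contra hcon
    push Not at hcon
    have h2 : h + 6 / 10 * t < |A| := by linarith
    nlinarith
  · by_contra hcon
    push Not at hcon
    have h2 : |A| < h - 6 / 10 * t := by linarith
    nlinarith

end IX_DR

/-- DR -/
theorem pr_DR : S_DR := by
  intro a b o r hAx hy hxL hxR ha hb ha0 hb0 hab hsl
  obtain ⟨hr, hyr, hL0, hR1⟩ := hAx
  unfold xL at hxL hL0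
  unfold xR at hxR hR1
  obtain ⟨h, hh⟩ : ∃ h : ℝ, h = √(r ^ 2 - o.im ^ 2) := ⟨_, rfl⟩
  rw [← hh] at hxL hL0 hxR hR1
  have hpos : 0 ≤ r ^ 2 - o.im ^ 2 := by
    have := sq_abs o.im
    have h0 := abs_nonneg o.im
    nlinarith
  have hh2 : h ^ 2 = r ^ 2 - o.im ^ 2 := by
    rw [hh, Real.sq_sqrt hpos]
  have hda := IX_DR.dist_sq o a
  have hdb := IX_DR.dist_sq o b
  rw [ha] at hda
  rw [hb] at hdb
  have hdab := IX_DR.dist_sq a b
  have hab0 : 0 ≤ dist a b := dist_nonneg
  have hre : b.re - a.re ≤ 1 := by nlinarith [sq_nonneg (a.im - b.im)]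
  have ht : a.im - b.im < 131 / 1000 := by linarith
  obtain ⟨hy1, hy2⟩ := abs_le.1 hy
  -- the point a
  have hA := IX_DR.one (a.re - o.re) h (2 * o.im * a.im - a.im ^ 2) a.im (by linarith) ha0
    (by linarith) (by
      have e : 2 * o.im * a.im - a.im ^ 2 = (2 * o.im - a.im) * a.im := by ring
      rw [e, abs_mul, abs_of_pos ha0]
      refine mul_le_mul_of_nonneg_right ?_ ha0.le
      rw [abs_le]
      constructor <;> linarith) (by nlinarith)
  have hB := IX_DR.one (b.re - o.re) h (2 * o.im * b.im - b.im ^ 2) (-b.im) (by linarith)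
    (by linarith) (by linarith) (by
      have e : 2 * o.im * b.im - b.im ^ 2 = -((2 * o.im - b.im) * (-b.im)) := by ring
      rw [e, abs_neg, abs_mul, abs_of_pos (show 0 < -b.im by linarith)]
      refine mul_le_mul_of_nonneg_right ?_ (by linarith)
      rw [abs_le]
      constructor <;> linarith) (by nlinarith)
  obtain ⟨hA1, hA2⟩ := hA
  obtain ⟨hB1, hB2⟩ := hB
  have hsum : (b.re - o.re) ^ 2 - (a.re - o.re) ^ 2 =
      (a.im - b.im) * (a.im + b.im - 2 * o.im) := by nlinarith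
  have hAB : 0 < b.re - a.re := by linarith
  -- signs
  have hAneg : a.re - o.re < 0 := by
    by_contra hcon
    push Not at hcon
    rw [abs_of_nonneg hcon] at hA1
    have h1 : 0 ≤ b.re - o.re := by linarith
    rw [abs_of_nonneg h1] at hB1
    have h2 : (b.re - a.re) * (76 / 100) ≤ (b.re - o.re) ^ 2 - (a.re - o.re) ^ 2 := by
      have e : (b.re - o.re) ^ 2 - (a.re - o.re) ^ 2 =
          (b.re - a.re) * ((b.re - o.re) + (a.re - o.re)) := by ring
      rw [e]
      exact mul_le_mul_of_nonneg_left (by linarith) hAB.le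
    have h3 : (a.im - b.im) * (a.im + b.im - 2 * o.im) ≤ (a.im - b.im) * (495 / 1000) :=
      mul_le_mul_of_nonneg_left (by linarith) (by linarith)
    linarith
  have hBpos : 0 < b.re - o.re := by
    by_contra hcon
    push Not at hcon
    rw [abs_of_nonpos hcon] at hB1
    rw [abs_of_neg hAneg] at hA1
    have h2 : (b.re - a.re) * (76 / 100) ≤ -((b.re - o.re) ^ 2 - (a.re - o.re) ^ 2) := by
      have e : -((b.re - o.re) ^ 2 - (a.re - o.re) ^ 2) =
          (b.re - a.re) * (-(b.re - o.re) + -(a.re - o.re)) := by ring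
      rw [e]
      exact mul_le_mul_of_nonneg_left (by linarith) hAB.le
    have h3 : (a.im - b.im) * (-(a.im + b.im - 2 * o.im)) ≤ (a.im - b.im) * (495 / 1000) :=
      mul_le_mul_of_nonneg_left (by linarith) (by linarith)
    linarith
  rw [abs_of_neg hAneg] at hA2
  rw [abs_of_pos hBpos] at hB2
  obtain ⟨hA3, hA4⟩ := abs_le.1 hA2
  obtain ⟨hB3, hB4⟩ := abs_le.1 hB2
  have hd1 := IX_DR.dist_le 0 a
  have hd2 := IX_DR.dist_le b 1
  simp only [Complex.zero_re, Complex.zero_im, Complex.one_re, Complex.one_im, zero_sub, sub_zero,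
    abs_neg] at hd1 hd2
  have e1 : |a.re| ≤ (o.re - h) + 6 / 10 * a.im := by
    rw [abs_le]
    constructor <;> linarith
  have e2 : |b.re - 1| ≤ (1 - (o.re + h)) + 6 / 10 * (-b.im) := by
    rw [abs_le]
    constructor <;> linarith
  rw [abs_of_pos ha0] at hd1
  rw [abs_of_neg hb0] at hd2
  linarith

end DT.SB
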