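import Pool.Agent.Work.MP_74021c_co.SB.Stmts

/-!
# Block SB, item FIN
-/

set_option autoImplicit false

open Real Set

namespace DT.SB

theorem pr_FIN : S_FIN := by
  intro w h hw0 hw1 hsin hch hh1
  have hpi1 : π < 3.141593 := Real.pi_lt_d6
  have hpi0 : 3.141592 < π := Real.pi_gt_d6
  have hcos : 0 < cos w := cos_pos_of_mem_Ioo ⟨by linarith, hw1⟩
  -- the value at `h = 1`
  have hA : (π / 2 - w) / cos w ≤ 1571 / 1000 := by
    have h1 : 2 / π * (π / 2 - w) ≤ sin (π / 2 - w) := mul_le_sin (by linarith) (by linarith)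
    rw [sin_pi_div_two_sub] at h1
    rw [div_le_iff₀ hcos]
    have h2 : π / 2 - w ≤ π / 2 * cos w := by
      have h3 := mul_le_mul_of_nonneg_left h1 (by positivity : (0 : ℝ) ≤ π / 2)
      have h4 : π / 2 * (2 / π * (π / 2 - w)) = π / 2 - w := by
        field_simp
      rwa [h4] at h3
    nlinarith
  -- `w` is small
  have hw2 : w ≤ 266 / 1000 := by
    by_contra hlt
    rw [not_le] at hlt
    have h1 : sin (266 / 1000) < sin w :=
      sin_lt_sin_of_lt_of_le_pi_div_two (by linarith) hw1.le hlt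
    have h2 : (266 / 1000 : ℝ) - (266 / 1000) ^ 3 / 6 < sin (266 / 1000) :=
      sin_gt_sub_cube (by norm_num)
    norm_num at h2
    linarith
  have hc2 : 1 - w ^ 2 / 2 ≤ cos w := one_sub_sq_div_two_le_cos
  -- the value at `h = cos w`
  have hC : π / 2 - w + 15 / 2 * (1 - cos w) + 29 / 1000 ≤ 8 / 5 := by
    nlinarith
  rw [mul_div_assoc]
  obtain ⟨A, hAd⟩ : ∃ A, A = (π / 2 - w) / cos w := ⟨_, rfl⟩
  have hAc : cos w * A = π / 2 - w := by
    rw [hAd]; field_simp
  rw [← hAd] at hA ⊢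
  rcases le_total (15 / 2) A with hs | hs
  · linarith
  · nlinarith [mul_nonneg (sub_nonneg.mpr hs) (sub_nonneg.mpr hch)]

end DT.SB
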