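import Pool.Agent.Work.MP_74021c_co.SB.Stmts

set_option autoImplicit false

open Real Set

namespace DT.SB

namespace IX_FWM

theorem sqd (x y : ℂ) (r : ℝ) (h : dist x y = r) :
    (x.re - y.re) ^ 2 + (x.im - y.im) ^ 2 = r ^ 2 := by
  rw [← h, Complex.dist_eq, Complex.sq_norm, Complex.normSq_apply, Complex.sub_re, Complex.sub_im]
  ring

theorem core (u v r u' v' r' p q x y : ℝ) (ha : 0 < q) (hb : y < 0)
    (h1 : (u - p) ^ 2 + (v - q) ^ 2 = r ^ 2) (h2 : (u - x) ^ 2 + (v - y) ^ 2 = r ^ 2)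
    (h3 : (u' - p) ^ 2 + (v' - q) ^ 2 = r' ^ 2) (h4 : (u' - x) ^ 2 + (v' - y) ^ 2 = r' ^ 2)
    (h5 : 0 ≤ (u' - u) * (q - y) - (v' - v) * (p - x)) :
    u - √(r ^ 2 - v ^ 2) ≤ u' - √(r' ^ 2 - v' ^ 2) ∧
    u + √(r ^ 2 - v ^ 2) ≤ u' + √(r' ^ 2 - v' ^ 2) := by
  have hqy : 0 < q - y := by linarith
  set t : ℝ := q / (q - y) with ht
  have ht0 : 0 < t := div_pos ha hqy
  have ht1 : t < 1 := by
    rw [ht, div_lt_one hqy]
    linarith
  have hy : q + t * (y - q) = 0 := by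
    rw [ht]
    field_simp
    ring
  set X : ℝ := p + t * (x - p) with hX
  set D : ℝ := (p - x) ^ 2 + (q - y) ^ 2 with hD
  have hDpos : 0 < D := by positivity
  have hf : (X - u) ^ 2 + v ^ 2 - r ^ 2 = - (t * (1 - t) * D) := by
    rw [hX, hD]
    linear_combination (1 - t) * h1 + t * h2 - (q + t * (y - q) - 2 * v) * hy
  have hf' : (X - u') ^ 2 + v' ^ 2 - r' ^ 2 = - (t * (1 - t) * D) := by
    rw [hX, hD]
    linear_combination (1 - t) * h3 + t * h4 - (q + t * (y - q) - 2 * v') * hy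
  have hpos : 0 < t * (1 - t) * D := mul_pos (mul_pos ht0 (by linarith)) hDpos
  have hr : 0 < r ^ 2 - v ^ 2 := by nlinarith [sq_nonneg (X - u)]
  have hr' : 0 < r' ^ 2 - v' ^ 2 := by nlinarith [sq_nonneg (X - u')]
  set h := √(r ^ 2 - v ^ 2) with hh
  set h' := √(r' ^ 2 - v' ^ 2) with hh'
  have hh0 : 0 < h := Real.sqrt_pos.2 hr
  have hh0' : 0 < h' := Real.sqrt_pos.2 hr'
  have hhs : h ^ 2 = r ^ 2 - v ^ 2 := Real.sq_sqrt hr.le
  have hhs' : h' ^ 2 = r' ^ 2 - v' ^ 2 := Real.sq_sqrt hr'.le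
  have hX1 : |X - u| < h := by
    apply abs_lt_of_sq_lt_sq _ hh0.le
    nlinarith
  have hX2 : |X - u'| < h' := by
    apply abs_lt_of_sq_lt_sq _ hh0'.le
    nlinarith
  rw [abs_lt] at hX1 hX2
  have hperp : (u' - u) * (p - x) + (v' - v) * (q - y) = 0 := by
    nlinarith
  have hdx : 0 ≤ u' - u := by
    have h6 : (u' - u) * D = (q - y) * ((u' - u) * (q - y) - (v' - v) * (p - x)) := by
      rw [hD]
      linear_combination (p - x) * hperp
    have h7 : 0 ≤ (u' - u) * D := by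
      rw [h6]
      exact mul_nonneg hqy.le h5
    exact nonneg_of_mul_nonneg_left h7 hDpos
  have hdiff : ∀ z : ℝ, ((z - u) ^ 2 - h ^ 2) - ((z - u') ^ 2 - h' ^ 2) = 2 * (u' - u) * (z - X) := by
    intro z
    rw [hhs, hhs']
    linear_combination (-1 : ℝ) * hf' + hf
  refine ⟨?_, ?_⟩
  · by_contra hc
    rw [not_le] at hc
    have h6 := hdiff (u - h)
    have h7 : 0 ≤ 2 * (u' - u) * (X - (u - h)) :=
      mul_nonneg (by linarith) (by linarith [hX1.1])
    have h8 : h' ^ 2 ≤ (u - h - u') ^ 2 := by nlinarith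
    have h9 : |u - h - u'| < h' := by
      rw [abs_lt]
      constructor
      · linarith
      · linarith [hX1.1, hX2.2]
    have h10 : (u - h - u') ^ 2 < h' ^ 2 := sq_lt_sq' (abs_lt.1 h9).1 (abs_lt.1 h9).2
    linarith
  · by_contra hc
    rw [not_le] at hc
    have h6 := hdiff (u' + h')
    have h7 : 0 ≤ 2 * (u' - u) * ((u' + h') - X) :=
      mul_nonneg (by linarith) (by linarith [hX2.2])
    have h8 : h ^ 2 ≤ (u' + h' - u) ^ 2 := by nlinarith
    have h10 : (u' + h' - u) ^ 2 < h ^ 2 := by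
      apply sq_lt_sq'
      · linarith [hX1.1, hX2.2]
      · linarith
    linarith

end IX_FWM

theorem pr_FWM : S_FWM := by
  intro a b o r o' r' hF
  obtain ⟨ha, hb, h1, h2, h3, h4, h5⟩ := hF
  exact IX_FWM.core o.re o.im r o'.re o'.im r' a.re a.im b.re b.im ha hb
    (IX_FWM.sqd _ _ _ h1) (IX_FWM.sqd _ _ _ h2) (IX_FWM.sqd _ _ _ h3) (IX_FWM.sqd _ _ _ h4) h5

end DT.SB
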