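import Pool.Agent.Work.MP_74021c_co.SB.Stmts

/-!
# Block SB, item FWO: the next circle is obtained by moving the centre forward
-/

set_option autoImplicit false

open Real Set

namespace DT.SB

namespace IX_FWO

theorem sq_dist (z w : ℂ) : dist z w ^ 2 = (z.re - w.re) ^ 2 + (z.im - w.im) ^ 2 := by
  rw [Complex.dist_eq, ← Complex.normSq_eq_norm_sq, Complex.normSq_apply]
  simp only [Complex.sub_re, Complex.sub_im]
  ring

theorem alg (n1 n2 dx dy v1 v2 : ℝ) (h1 : dx * n2 = dy * n1) (h2 : 0 < n1 * v1 + n2 * v2)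
    (h3 : 0 ≤ dx * v1 + dy * v2) : 0 ≤ dx * n1 + dy * n2 := by
  have h4 : (dx * n1 + dy * n2) * (n1 * v1 + n2 * v2) =
      (n1 ^ 2 + n2 ^ 2) * (dx * v1 + dy * v2) := by
    linear_combination (n1 * v2 - n2 * v1) * h1
  have h5 : 0 ≤ (dx * n1 + dy * n2) * (n1 * v1 + n2 * v2) := by
    rw [h4]
    positivity
  exact nonneg_of_mul_nonneg_left h5 h2

end IX_FWO

theorem pr_FWO : S_FWO := by
  intro a b c o r o' r' ha hb h1 h2 h3 h4 h5 h6 h7
  refine ⟨ha, hb, h1, h2, h3, h4, ?_⟩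
  have hr : 0 ≤ r := by
    rw [← h1]
    exact dist_nonneg
  have e1 := IX_FWO.sq_dist o a
  have e2 := IX_FWO.sq_dist o b
  have e3 := IX_FWO.sq_dist o' a
  have e4 := IX_FWO.sq_dist o' b
  have e5 := IX_FWO.sq_dist o' c
  have e6 := IX_FWO.sq_dist o c
  have e7 : r ^ 2 ≤ dist o c ^ 2 := pow_le_pow_left₀ hr h6 2
  rw [h1] at e1
  rw [h2] at e2
  rw [h3] at e3
  rw [h4] at e4
  rw [h5] at e5
  rw [e6] at e7
  unfold cr at h7
  simp only [Complex.sub_re, Complex.sub_im] at h7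
  have key := IX_FWO.alg (a.im - b.im) (-(a.re - b.re)) (o'.re - o.re) (o'.im - o.im)
    (c.re - b.re) (c.im - b.im) (by nlinarith) (by nlinarith) (by nlinarith)
  linarith

end DT.SB
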