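import Pool.Agent.Work.MP_74021c_co.SB.Stmts

/-! # Block SB, item FWX: a long edge does not change the side of the centre -/

set_option autoImplicit false

open Real Set

namespace DT.SB

namespace IX_FWX

theorem dist_sq (z w : ℂ) : dist z w ^ 2 = (z.re - w.re) ^ 2 + (z.im - w.im) ^ 2 := by
  rw [Complex.dist_eq_re_im, Real.sq_sqrt (by positivity)]

theorem param (u v : ℝ) (h : u ≤ 0 ∧ 0 ≤ v ∨ 0 ≤ u ∧ v ≤ 0) :
    ∃ l : ℝ, 0 ≤ l ∧ l ≤ 1 ∧ u + l * (v - u) = 0 := by
  rcases eq_or_ne u v with huv | huv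
  · refine ⟨0, le_rfl, zero_le_one, ?_⟩
    rcases h with ⟨h1, h2⟩ | ⟨h1, h2⟩ <;> linarith
  · have hne : v - u ≠ 0 := sub_ne_zero.2 (Ne.symm huv)
    rcases h with ⟨h1, h2⟩ | ⟨h1, h2⟩
    · have hpos : 0 < v - u := lt_of_le_of_ne (by linarith) (Ne.symm hne)
      refine ⟨-u / (v - u), div_nonneg (by linarith) hpos.le, (div_le_one hpos).2 (by linarith), ?_⟩
      field_simp
      ring
    · have hpos : 0 < u - v := lt_of_le_of_ne (by linarith) (fun h => hne (by linarith))
      have hne' : u - v ≠ 0 := hpos.ne'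
      refine ⟨u / (u - v), div_nonneg h1 hpos.le, (div_le_one hpos).2 (by linarith), ?_⟩
      field_simp
      ring

end IX_FWX

open IX_FWX in
theorem pr_FWX (h1 : S_FWM) : S_FWX := by
  intro a b o r o' r' hF hA hA' hs
  obtain ⟨ha, hb, hoa, hob, hoa', hob', hX⟩ := hF
  obtain ⟨l, hl0, hl1, hl⟩ := param o.im o'.im hs
  obtain ⟨_, _, hL, _⟩ := hA
  obtain ⟨_, _, _, hR⟩ := hA'
  set p : ℂ := ⟨o.re + l * (o'.re - o.re), 0⟩ with hp
  have hpre : p.re = o.re + l * (o'.re - o.re) := rfl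
  have hpim : p.im = 0 := rfl
  have e1 : dist o a ^ 2 = dist o b ^ 2 := by rw [hoa, hob]
  have e2 : dist o' a ^ 2 = dist o' b ^ 2 := by rw [hoa', hob']
  rw [dist_sq, dist_sq] at e1 e2
  have hpab : dist p b = dist p a := by
    have h3 : dist p b ^ 2 = dist p a ^ 2 := by
      rw [dist_sq, dist_sq, hpre, hpim]
      linear_combination (-(1 - l)) * e1 + (-l) * e2 + 2 * (b.im - a.im) * hl
    exact (sq_eq_sq₀ dist_nonneg dist_nonneg).1 h3
  have F1 : Fw a b o r p (dist p a) := by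
    refine ⟨ha, hb, hoa, hob, rfl, hpab, ?_⟩
    have h4 : (p.re - o.re) * (a.im - b.im) - (p.im - o.im) * (a.re - b.re) =
        l * ((o'.re - o.re) * (a.im - b.im) - (o'.im - o.im) * (a.re - b.re)) := by
      rw [hpre, hpim]
      linear_combination (a.re - b.re) * hl
    rw [h4]
    exact mul_nonneg hl0 hX
  have F2 : Fw a b p (dist p a) o' r' := by
    refine ⟨ha, hb, rfl, hpab, hoa', hob', ?_⟩
    have h4 : (o'.re - p.re) * (a.im - b.im) - (o'.im - p.im) * (a.re - b.re) =
        (1 - l) * ((o'.re - o.re) * (a.im - b.im) - (o'.im - o.im) * (a.re - b.re)) := by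
      rw [hpre, hpim]
      linear_combination (-(a.re - b.re)) * hl
    rw [h4]
    exact mul_nonneg (by linarith) hX
  have g1 := (h1 a b o r p (dist p a) F1).1
  have g2 := (h1 a b p (dist p a) o' r' F2).2
  have hsq : √((dist p a) ^ 2 - p.im ^ 2) = dist p a := by
    rw [hpim]
    have : (dist p a) ^ 2 - (0 : ℝ) ^ 2 = (dist p a) ^ 2 := by ring
    rw [this, Real.sqrt_sq dist_nonneg]
  have g3 : xL p (dist p a) = p.re - dist p a := by
    unfold xL
    rw [hsq]
  have g4 : xR p (dist p a) = p.re + dist p a := by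
    unfold xR
    rw [hsq]
  rw [g3] at g1
  rw [g4] at g2
  have htri : dist a b ≤ dist p a + dist p b := by
    have := dist_triangle a p b
    rwa [dist_comm a p] at this
  linarith

end DT.SB
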