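import Pool.Agent.Work.MP_74021c_co.SB.Stmts

/-!
# Block SB, item FX: the blocking points are outside the ellipse
-/

set_option autoImplicit false

open Real Set

namespace DT.SB

theorem pr_FX : S_FX := by
  intro k e he x hx
  have h1 : |x.im - e| < 3 / 10000 := by
    have h2 := Complex.abs_im_le_norm (x - (⟨k / 10, e⟩ : ℂ))
    rw [← Complex.dist_eq] at h2
    exact lt_of_le_of_lt h2 hx
  have hb : (6247 / 10000 : ℝ) ^ 2 < x.im ^ 2 := by
    rw [abs_lt] at h1
    rcases he with rfl | rfl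
    · nlinarith [h1.1]
    · nlinarith [h1.2]
  have hs1 : dist 0 x ^ 2 = x.re ^ 2 + x.im ^ 2 := by
    rw [dist_comm, Complex.dist_eq, Complex.sq_norm, Complex.normSq_apply]
    simp only [sub_zero]
    ring
  have hs2 : dist x 1 ^ 2 = (1 - x.re) ^ 2 + x.im ^ 2 := by
    rw [Complex.dist_eq, Complex.sq_norm, Complex.normSq_apply]
    simp only [Complex.sub_re, Complex.one_re, Complex.sub_im, Complex.one_im]
    ring
  have h0 : 0 ≤ dist 0 x := dist_nonneg
  have h0' : 0 ≤ dist x 1 := dist_nonneg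
  generalize dist 0 x = s at *
  generalize dist x 1 = t at *
  have hcs : x.re * (1 - x.re) + x.im ^ 2 ≤ s * t := by
    by_contra h
    rw [not_le] at h
    have h2 := mul_self_lt_mul_self (mul_nonneg h0 h0') h
    have h3 : (s * t) * (s * t) = (x.re ^ 2 + x.im ^ 2) * ((1 - x.re) ^ 2 + x.im ^ 2) := by
      rw [← hs1, ← hs2]; ring
    rw [h3] at h2
    nlinarith [sq_nonneg (x.im * (2 * x.re - 1))]
  by_contra h
  rw [not_lt] at h
  have h4 : (s + t) ^ 2 ≤ (8 / 5) ^ 2 := pow_le_pow_left₀ (by positivity) h 2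
  nlinarith
end DT.SB
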