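import Pool.Agent.Work.MP_74021c_co.SB.Stmts

set_option autoImplicit false

/-!
# Block SB, item GX: generic points near the elements of a list
-/

open Real Set

namespace DT.SB

theorem pr_GX (h1 : S_GI) : S_GX := by
  intro S h3 h4 T δ hδ
  induction T with
  | nil =>
    refine ⟨∅, ?_, ?_, ?_, ?_⟩
    · rw [Finset.union_empty]; exact h3
    · rw [Finset.union_empty]; exact h4
    · intro t ht
      exact absurd ht (List.not_mem_nil)
    · intro x hx
      exact absurd hx (Finset.notMem_empty x)
  | cons t T ih =>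
    obtain ⟨X, g3, g4, g5, g6⟩ := ih
    obtain ⟨x, hx, k3, k4⟩ := h1 (S ∪ X) g3 g4 t δ hδ
    refine ⟨insert x X, ?_, ?_, ?_, ?_⟩
    · rw [Finset.union_insert]; exact k3
    · rw [Finset.union_insert]; exact k4
    · intro s hs
      rcases List.mem_cons.1 hs with rfl | hs
      · exact ⟨x, Finset.mem_insert_self x X, hx⟩
      · obtain ⟨y, hy, hy2⟩ := g5 s hs
        exact ⟨y, Finset.mem_insert_of_mem hy, hy2⟩
    · intro y hy
      rcases Finset.mem_insert.1 hy with rfl | hy
      · exact ⟨t, List.mem_cons_self, hx⟩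
      · obtain ⟨s, hs, hs2⟩ := g6 y hy
        exact ⟨s, List.mem_cons_of_mem t hs, hs2⟩

end DT.SB
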