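import Pool.Agent.Work.MP_74021c_co.SB.Stmts

/-!
# Block SB (MP_74021c_co), item HD: the arc on the small side lies in the disc over the segment
-/

set_option autoImplicit false

open Real Set

namespace DT.SB

namespace IX_HD

theorem sq_dist (z w : ℂ) : dist z w ^ 2 = (z.re - w.re) ^ 2 + (z.im - w.im) ^ 2 := by
  rw [Complex.dist_eq_re_im, Real.sq_sqrt (by positivity)]

end IX_HD

theorem pr_HD : S_HD := by
  intro a o r hAx ho hoa ha
  obtain ⟨hr, hor, hL, hR⟩ := hAx
  unfold xL at hL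
  unfold xR at hR
  have hpos : 0 ≤ r ^ 2 - o.im ^ 2 := by
    have h1 : |o.im| ^ 2 ≤ r ^ 2 := pow_le_pow_left₀ (abs_nonneg _) hor.le 2
    rw [sq_abs] at h1
    linarith
  have hh := Real.sq_sqrt hpos
  have hh0 := Real.sqrt_nonneg (r ^ 2 - o.im ^ 2)
  set h := √(r ^ 2 - o.im ^ 2) with hdef
  have h1 : (o.re - a.re) ^ 2 + (o.im - a.im) ^ 2 = r ^ 2 := by
    rw [← IX_HD.sq_dist, hoa]
  have h2 : (a.re - o.re) ^ 2 + a.im ^ 2 ≤ h ^ 2 := by nlinarith
  have h3 : |a.re - o.re| ≤ h := by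
    apply abs_le_of_sq_le_sq _ hh0
    nlinarith
  obtain ⟨h4, h5⟩ := abs_le.1 h3
  have h6 : a.im ^ 2 ≤ a.re * (1 - a.re) := by
    have e1 : 0 ≤ (a.re - (o.re - h)) := by linarith
    have e2 : 0 ≤ (o.re + h) - a.re := by linarith
    have e3 : (a.re - (o.re - h)) * ((o.re + h) - a.re) ≤ a.re * (1 - a.re) :=
      mul_le_mul (by linarith) (by linarith) e2 (by linarith)
    nlinarith
  have h7 : 0 < a.im ^ 2 := by positivity
  have hre0 : 0 ≤ a.re := by linarith
  have hre1 : 0 ≤ 1 - a.re := by linarith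
  have hre0' : 0 < a.re := by
    rcases hre0.lt_or_eq with h8 | h8
    · exact h8
    · rw [← h8] at h6
      linarith
  have hre1' : 0 < 1 - a.re := by
    rcases hre1.lt_or_eq with h8 | h8
    · exact h8
    · rw [← h8] at h6
      linarith
  have d0 : dist 0 a ^ 2 ≤ a.re := by
    rw [IX_HD.sq_dist]
    simp only [Complex.zero_re, Complex.zero_im]
    nlinarith
  have d1 : dist a 1 ^ 2 ≤ 1 - a.re := by
    rw [IX_HD.sq_dist]
    simp only [Complex.one_re, Complex.one_im]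
    nlinarith
  have n0 : 0 ≤ dist 0 a := dist_nonneg
  have n1 : 0 ≤ dist a 1 := dist_nonneg
  refine ⟨?_, ?_, ?_⟩
  · nlinarith
  · nlinarith
  · nlinarith [sq_nonneg (dist 0 a - dist a 1)]

end DT.SB
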