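import Pool.Agent.Work.MP_74021c_co.SB.Stmts

set_option autoImplicit false

open Real Set

namespace DT.SB

theorem pr_HS : S_HS := by
  intro w p q hw hp hq h
  have h1 := Real.sin_sq_add_cos_sq w
  have h2 : sin w + 743 / 100 * cos w ≤ 15 / 2 := by
    by_contra hcon
    push Not at hcon
    have h3 : (15 / 2 : ℝ) ^ 2 < (sin w + 743 / 100 * cos w) ^ 2 := by nlinarith
    nlinarith [sq_nonneg (743 / 100 * sin w - cos w)]
  have h3 : HH w p q = sin p * sin q * (15 / 2 - sin w - q * cos w) -
      cos w * (cos p * (sin q - q * cos q)) := by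
    unfold HH
    rw [Real.cos_sub, Real.cos_add]
    ring
  rw [h3]
  have h4 := mul_le_mul_of_nonneg_left h hw
  have h5 : 0 ≤ sin p * sin q * (15 / 2 - (sin w + 743 / 100 * cos w)) :=
    mul_nonneg (mul_nonneg hp hq) (by linarith)
  nlinarith

end DT.SB
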