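import Pool.Agent.Work.MP_74021c_co.SB.Stmts

/-!
# Block SB, item L0: the left bound at the first circle
-/

set_option autoImplicit false

open Real Set

namespace DT.SB

namespace IX_L0

theorem sqrt_eq (y r w : ℝ) (hr : 0 < r) (hw : |w| < π / 2) (hy : y = r * sin w) :
    √(r ^ 2 - y ^ 2) = r * cos w := by
  have hc : 0 < cos w := cos_pos_of_mem_Ioo ⟨by linarith [(abs_lt.mp hw).1], (abs_lt.mp hw).2⟩
  have h1 : r ^ 2 - y ^ 2 = (r * cos w) ^ 2 := by
    rw [hy]
    nlinarith [sin_sq_add_cos_sq w]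
  rw [h1, Real.sqrt_sq (mul_pos hr hc).le]

end IX_L0

theorem pr_L0 : S_L0 := by
  intro b o r hr ho hd hb hx
  obtain ⟨hw, hs⟩ := circ_param hr ho
  set w := arcsin (o.im / r) with hwdef
  have ho' : (⟨o.re, r * sin w⟩ : ℂ) = o := by
    rw [hs]
  obtain ⟨q, q0, q1, q2, q3⟩ := lower_param (cx := o.re) (w := w) hr hw (b := b)
    (by rw [ho']; exact hd) hb.le
  refine ⟨w, q, hr, hw, hs.symm, q0, q1, q2, q3, ?_⟩
  have hx' : o.re - r * cos w = 0 := by
    unfold xL at hx
    rw [IX_L0.sqrt_eq o.im r w hr hw hs.symm] at hx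
    exact hx
  rw [hx', mul_zero, add_zero]
  have h1 := chord_low (cx := o.re) (w := w) (q := π / 2 - w) (q' := q) hr (b := 0) (b' := b)
    (by
      rw [show 2 * (π / 2 - w) + w = π - w by ring, cos_pi_sub]
      show (0 : ℝ) = _
      linarith)
    (by
      rw [show 2 * (π / 2 - w) + w = π - w by ring, sin_pi_sub]
      show (0 : ℝ) = _
      ring) q2 q3
  rw [abs_of_nonpos (by linarith)] at h1
  linarith

end DT.SB
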