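import Pool.Agent.Work.MP_74021c_co.SB.Stmts

/-!
# Block SB, item LM: the left bound moves along the lower arc
-/

set_option autoImplicit false

open Real Set

namespace DT.SB

theorem pr_LM : S_LM := by
  intro a b b' o r D ha hb hb' ha0 hb0 hb'0 hcr hLB
  obtain ⟨w, q, hr, hw, ho, hq0, hq1, hbre, hbim, hD⟩ := hLB
  have ho' : o = (⟨o.re, r * sin w⟩ : ℂ) := by
    apply Complex.ext
    · rfl
    · exact ho
  obtain ⟨p, hp0, hp1, hare, haim⟩ := upper_param (cx := o.re) hr hw (a := a)
    (by rw [← ho']; exact ha) ha0.le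
  obtain ⟨q', hq'0, hq'1, hre, him⟩ := lower_param (cx := o.re) hr hw (b := b')
    (by rw [← ho']; exact hb') hb'0.le
  have hw' := abs_lt.1 hw
  rw [G3a_cr_low hare haim hbre hbim hre him] at hcr
  have hlt : q' < q := G3a_lt hcr (sin_nonneg_of_nonneg_of_le_pi (by linarith) (by linarith))
    (sin_nonneg_of_nonneg_of_le_pi (by linarith) (by linarith)) hq0 (by linarith)
  refine ⟨w, q', hr, hw, ho, hq'0, hq'1, hre, him, ?_⟩
  have hch := chord_low hr hbre hbim hre him
  rw [abs_of_neg (by linarith)] at hch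
  linarith

end DT.SB
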