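import Pool.Agent.Work.MP_74021c_co.SB.Stmts

/-!
# Block SB, item MA: the lower arc is the minor arc
-/

set_option autoImplicit false

open Real Set

namespace DT.SB

namespace IX_MA

theorem sq_dist (z w : ℂ) : dist z w ^ 2 = (z.re - w.re) ^ 2 + (z.im - w.im) ^ 2 := by
  rw [Complex.dist_eq, ← Complex.normSq_eq_norm_sq, Complex.normSq_apply]
  simp only [Complex.sub_re, Complex.sub_im]
  ring

theorem low (b o : ℂ) (r : ℝ) (hAx : Ax o r) (ho : 0 ≤ o.im) (hd : dist o b = r)
    (hb : b.im ≤ 0) : dist b (o.re : ℂ) ≤ √(r ^ 2 - o.im ^ 2) := by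
  have h1 := sq_dist o b
  rw [hd] at h1
  apply Real.le_sqrt_of_sq_le
  rw [sq_dist]
  simp only [Complex.ofReal_re, Complex.ofReal_im]
  nlinarith [mul_nonneg ho (neg_nonneg.2 hb)]

end IX_MA

theorem pr_MA : S_MA := by
  intro b b' o r hAx ho hd hd' hb hb'
  have h1 := IX_MA.low b o r hAx ho hd hb
  have h2 := IX_MA.low b' o r hAx ho hd' hb'
  have h3 := dist_triangle_right b b' (o.re : ℂ)
  have h4 := hAx.2.2.1
  have h5 := hAx.2.2.2
  unfold xL at h4
  unfold xR at h5
  linarith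

end DT.SB
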