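import Pool.Agent.Work.MP_74021c_co.SB.Stmts

/-!
# Block SB, item MF: two circles of a pencil
-/

set_option autoImplicit false

open Real Set

namespace DT.SB

namespace IX_MF

theorem dist_of_sq {z v : ℂ} {r : ℝ} (hr : 0 ≤ r)
    (h : (v.re - z.re) ^ 2 + (v.im - z.im) ^ 2 = r ^ 2) : dist z v = r := by
  rw [Complex.dist_eq_re_im]
  have : (z.re - v.re) ^ 2 + (z.im - v.im) ^ 2 = r ^ 2 := by
    rw [← h]; ring
  rw [this, Real.sqrt_sq hr]

/-- the data of one circle of the pencil -/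
theorem one {a b : ℂ} {κ k m M ω : ℝ} {o : ℂ} {r : ℝ} (hP : Pen a b κ k m M)
    (hM : Mem κ k m M ω o r) : dist o a = r ∧ dist o b = r ∧ a.im - b.im = 2 * m * cos κ ∧
      a.re - b.re = 2 * m * sin κ ∧ o.re = M - m * (cos ω / sin ω) * cos κ ∧
      o.im = m * k + m * (cos ω / sin ω) * sin κ := by
  obtain ⟨hκ, hk, hm, -, hO⟩ := hP
  obtain ⟨hω, hr, hre, him⟩ := hM
  have h := hO ω hω
  have hs : 0 < sin ω := sin_pos_of_pos_of_lt_pi hω.1 hω.2
  have hr0 : 0 < r := by rw [hr]; exact div_pos hm hs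
  have hrs : r * sin ω = m := by rw [hr]; exact div_mul_cancel₀ m hs.ne'
  rw [← hr, ← hre] at h
  have e1 : 2 * pp κ k ω - W κ k ω = ω - κ := by unfold pp; ring
  have e2 : 2 * pq κ k ω + W κ k ω = ω + κ := by unfold pq; ring
  have a1 := h.are
  have a2 := h.aim
  have a3 := h.bre
  have a4 := h.bim
  rw [e1] at a1 a2
  rw [e2] at a3 a4
  refine ⟨?_, ?_, ?_, ?_, ?_, ?_⟩
  · refine dist_of_sq hr0.le ?_
    rw [him]
    exact WalkAxis.OnC.sq_a h
  · refine dist_of_sq hr0.le ?_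
    rw [him]
    exact WalkAxis.OnC.sq_b h
  · rw [a2, a4, sin_sub, sin_add, ← hrs]; ring
  · rw [a1, a3, cos_sub, cos_add, ← hrs]; ring
  · rw [hre]; rfl
  · rw [him, (G4a.W_facts hκ hk).2.1, ← hrs]
    have : r * sin ω * (cos ω / sin ω) = r * cos ω := by field_simp
    rw [this]; ring

end IX_MF

theorem pr_MF : S_MF := by
  intro a b κ k m M ω ω' o r o' r' ha hb hP h h' hle
  obtain ⟨d1, d2, e1, e2, c1, c2⟩ := IX_MF.one hP h
  obtain ⟨d3, d4, -, -, c3, c4⟩ := IX_MF.one hP h'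
  refine ⟨ha, hb, d1, d2, d3, d4, ?_⟩
  have hs : 0 < sin ω := sin_pos_of_pos_of_lt_pi h.1.1 h.1.2
  have hs' : 0 < sin ω' := sin_pos_of_pos_of_lt_pi h'.1.1 h'.1.2
  have hc : cos ω' / sin ω' ≤ cos ω / sin ω := by
    rw [div_le_div_iff₀ hs' hs]
    have h1 : 0 ≤ sin (ω' - ω) :=
      sin_nonneg_of_nonneg_of_le_pi (by linarith) (by linarith [h'.1.2, h.1.1])
    rw [sin_sub] at h1
    linarith
  rw [e1, e2, c1, c2, c3, c4]
  have hsc : sin κ ^ 2 + cos κ ^ 2 = 1 := sin_sq_add_cos_sq κ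
  have e : (M - m * (cos ω' / sin ω') * cos κ - (M - m * (cos ω / sin ω) * cos κ)) *
      (2 * m * cos κ) - (m * k + m * (cos ω' / sin ω') * sin κ -
        (m * k + m * (cos ω / sin ω) * sin κ)) * (2 * m * sin κ) =
      2 * m ^ 2 * (cos ω / sin ω - cos ω' / sin ω') * (sin κ ^ 2 + cos κ ^ 2) := by ring
  rw [e, hsc, mul_one]
  exact mul_nonneg (by positivity) (sub_nonneg.2 hc)

end DT.SB
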