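import Pool.Agent.Work.MP_74021c_co.SB.Stmts

/-!
# Block SB, item MO: the intersections with the axis are monotone along a chain
-/

set_option autoImplicit false

open Real Set

namespace DT.SB

theorem pr_MO (hCF : S_CF) (hFWM : S_FWM) : S_MO := by
  intro S G n a b o r hC hch i j hij
  obtain ⟨-, -, hFw⟩ := hCF S G n a b o r hC hch
  induction j, hij using Nat.le_induction with
  | base => intro _; exact ⟨le_rfl, le_rfl⟩
  | succ j hij ih =>
    intro hj
    obtain ⟨h1, h2⟩ := ih (by omega)
    obtain ⟨h3, h4⟩ := hFWM _ _ _ _ _ _ (hFw j (by omega))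
    exact ⟨h1.trans h3, h2.trans h4⟩

end DT.SB
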