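import Pool.Agent.Work.MP_74021c_co.SB.Stmts

/-!
# Block SB, item MX: large circles on both sides
-/

set_option autoImplicit false

open Real Set

namespace DT.SB

namespace IX_MX

theorem im_small (o : ℂ) (r : ℝ) (hr : r ≤ 5174 / 10000)
    (hbig : 1 / 2 < r → |o.im| ≤ 257 / 1000 * r) (hax : Ax o r) (hL : xL o r ≤ 34 / 1000)
    (hR : 966 / 1000 ≤ xR o r) : |o.im| ≤ 182 / 1000 := by
  by_cases h : 1 / 2 < r
  · have h1 := hbig h
    linarith
  · rw [not_lt] at h
    have h0 : 0 < r := hax.1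
    have h2 : (466 / 1000 : ℝ) ≤ √(r ^ 2 - o.im ^ 2) := by
      unfold xL at hL
      unfold xR at hR
      linarith
    rw [Real.le_sqrt' (by norm_num)] at h2
    have h3 : r ^ 2 ≤ (1 / 2) ^ 2 := pow_le_pow_left₀ h0.le h 2
    have h4 : o.im ^ 2 ≤ (182 / 1000) ^ 2 := by
      have : (466 / 1000 : ℝ) ^ 2 = 217156 / 1000000 := by norm_num
      rw [this] at h2
      norm_num at h3 ⊢
      linarith
    exact abs_le_of_sq_le_sq h4 (by norm_num)

end IX_MX

open IX_MX in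
theorem pr_MX (h1 : S_TH) (h2 : S_DR) (h3 : S_MO) (h4 : S_BIG) (h5 : S_CF) : S_MX := by
  intro S G n a b o r ctx ch i j hij hj hri hoi hrj hoj
  obtain ⟨k, hik, hkj, hab, hsl⟩ := h1 S G n a b o r ctx ch i j hij hj hri hoi hrj hoj
  have hkn : k ≤ n := by omega
  obtain ⟨hAx, -, -⟩ := h5 S G n a b o r ctx ch
  have hBi := (h4 S G n a b o r ctx ch i (by omega)).2 hri
  have hBj := (h4 S G n a b o r ctx ch j hj).2 hrj
  have hBk := h4 S G n a b o r ctx ch k (by omega)
  have hM1 := h3 S G n a b o r ctx ch i k hik (by omega)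
  have hM2 := h3 S G n a b o r ctx ch k j hkj.le hj
  have hL : xL (o k) (r k) ≤ 34 / 1000 := hM2.1.trans hBj.2.1
  have hR : 966 / 1000 ≤ xR (o k) (r k) := hBi.2.2.1.trans hM1.2
  have him := im_small (o k) (r k) hBk.1 (fun h => (hBk.2 h).1) (hAx k (by omega)) hL hR
  have hd := h2 (a k) (b k) (o k) (r k) (hAx k (by omega)) him hL hR (ch.oa k hkn) (ch.ob k hkn)
    (ch.apos k hkn) (ch.bneg k hkn) hab hsl
  have h01 : dist (0 : ℂ) 1 = 1 := by
    rw [Complex.dist_eq, zero_sub, norm_neg, norm_one]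
  have hA1 : dist (a k) 1 ≤ dist 0 (a k) + 1 := by
    have h6 := dist_triangle (a k) 0 1
    rw [h01, dist_comm (a k) 0] at h6
    exact h6
  have hB0 : dist 0 (b k) ≤ 1 + dist (b k) 1 := by
    have h6 := dist_triangle 0 1 (b k)
    rw [h01, dist_comm 1 (b k)] at h6
    exact h6
  have hn1 : 0 ≤ dist 0 (a k) := dist_nonneg
  have hn2 : 0 ≤ dist (b k) 1 := dist_nonneg
  obtain ⟨Da, hDa, hDa'⟩ := ctx.ih0 (a k) (ch.aS k hkn) (by linarith) (by linarith)
  obtain ⟨Db, hDb, hDb'⟩ := ctx.ih1 (b k) (ch.bS k hkn) (by linarith) (by linarith)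
  have hne : a k ≠ b k := by
    intro h
    have h6 := ch.apos k hkn
    have h7 := ch.bneg k hkn
    rw [h] at h6
    linarith
  have hG := ctx.edge (a k) (ch.aS k hkn) (b k) (ch.bS k hkn) hne hab (o k) (r k) (ch.oa k hkn)
    (ch.ob k hkn) (ch.emp k (by omega))
  refine ⟨Da + dist (a k) (b k) + Db, WalkAxis.reach_trans (Reach.step hDa hG) hDb, ?_⟩
  linarith

end DT.SB
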