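import Pool.Agent.Work.MP_74021c_co.SB.Stmts

/-!
# Block SB, item NB: the lower end of a long edge with upper end near `0`
-/

set_option autoImplicit false

open Real Set

namespace DT.SB

namespace IX_NB

theorem tb {S C k m : ℝ} (h : S ^ 2 + C ^ 2 = 1) (hC : 0 < C) (hk : 0 < k) (h1 : -m ≤ S)
    (h2 : S ≤ m) (hm : m ^ 2 ≤ k ^ 2 * (1 - m ^ 2)) : S ≤ k * C := by
  have e1 : S ^ 2 ≤ m ^ 2 := sq_le_sq' h1 h2
  have e2 : k ^ 2 * (1 - m ^ 2) ≤ k ^ 2 * (1 - S ^ 2) :=
    mul_le_mul_of_nonneg_left (by linarith) (sq_nonneg k)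
  have e3 : S ^ 2 ≤ (k * C) ^ 2 := by
    rw [mul_pow]
    have : C ^ 2 = 1 - S ^ 2 := by linarith
    rw [this]
    linarith
  exact (abs_le_of_sq_le_sq' e3 (mul_pos hk hC).le).2

theorem cb {S C : ℝ} (h : S ^ 2 + C ^ 2 = 1) (hC : 0 < C) (h0 : 0 < S) (h2 : S ≤ 257 / 1000) :
    96 / 100 < C := by
  by_contra hcon
  push Not at hcon
  have e1 : C ^ 2 ≤ (96 / 100) ^ 2 := pow_le_pow_left₀ hC.le hcon 2
  have e2 : S ^ 2 ≤ (257 / 1000) ^ 2 := pow_le_pow_left₀ h0.le h2 2
  norm_num at e1 e2
  linarith

end IX_NB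

open IX_NB in
theorem pr_NB (h1 : S_PAR) (h2 : S_CH) (h3 : S_RB) : S_NB := by
  intro a b o r hAx hr hoi hoim hoa hob hai hbi hab h0a
  obtain ⟨hr5, hxL', hxR', -⟩ := h3 o r hAx hr hoim
  obtain ⟨hr0, -, hxL, hxR⟩ := hAx
  obtain ⟨w, p, q, hPar, -, exL, exR, hp0, hp1, hq0, hq1⟩ := h1 a b o r hai hbi hoa hob
  obtain ⟨c1, -, -, -, c5⟩ := h2 a b o r w p q hPar
  obtain ⟨hon, how⟩ := hPar
  have hw := abs_lt.1 hon.hw
  have hpi := pi_pos
  -- the angle `w`
  have hsw : 0 < sin w := by
    by_contra hcon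
    push Not at hcon
    have : o.im ≤ 0 := by
      rw [how]
      exact mul_nonpos_of_nonneg_of_nonpos hr0.le hcon
    linarith
  have hw0 : 0 < w := by
    by_contra hcon
    push Not at hcon
    have := sin_nonpos_of_nonpos_of_neg_pi_le hcon (by linarith [hw.1])
    linarith
  have hsw' : sin w ≤ 257 / 1000 := by
    rw [abs_of_pos hoi, how, mul_comm (257 / 1000) r] at hoim
    exact le_of_mul_le_mul_left hoim hr0
  have hcw : 0 < cos w := cos_pos_of_mem_Ioo ⟨by linarith, hw.2⟩
  have htw : sin w ≤ 266 / 1000 * cos w :=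
    tb (sin_sq_add_cos_sq w) hcw (by norm_num) (by linarith) hsw' (by norm_num)
  -- the angle `P`
  obtain ⟨P, hP⟩ : ∃ P, P = π / 2 + w - p := ⟨_, rfl⟩
  rw [← hP] at c1
  have hP0 : 0 < P := by rw [hP]; linarith
  have hP1 : P < π / 2 + w := by rw [hP]; linarith
  have hdL : dist (((o.re - r * cos w : ℝ)) : ℂ) a ≤ 244 / 1000 := by
    have t1 := dist_triangle (((o.re - r * cos w : ℝ)) : ℂ) 0 a
    have t2 : dist (((o.re - r * cos w : ℝ)) : ℂ) 0 = o.re - r * cos w := by
      rw [Complex.dist_eq, sub_zero, Complex.norm_real, Real.norm_eq_abs,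
        abs_of_nonneg (by rw [← exL]; exact hxL)]
    rw [t2, ← exL] at t1
    rw [exL] at t1
    rw [exL] at hxL'
    linarith
  rw [c1] at hdL
  have hsP0 : 0 < sin P := by
    refine sin_pos_of_pos_of_lt_pi hP0 ?_
    linarith [hw.2]
  have hsP : sin P ≤ 244 / 1000 := by
    have e1 : sin P ≤ 2 * r * sin P := le_mul_of_one_le_left hsP0.le (by linarith)
    linarith
  have hcw9 : 96 / 100 < cos w := cb (sin_sq_add_cos_sq w) hcw hsw hsw'
  have hP2 : P < π / 2 := by
    by_contra hcon
    push Not at hcon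
    have hmono : sin (π / 2 + w) ≤ sin P := by
      have e1 : sin (π / 2 + w) = cos w := by rw [add_comm, sin_add_pi_div_two]
      have e2 : sin P = cos (P - π / 2) := by rw [cos_sub_pi_div_two]
      rw [e1, e2]
      exact cos_le_cos_of_nonneg_of_le_pi (by linarith) (by linarith) (by linarith)
    rw [add_comm, sin_add_pi_div_two] at hmono
    linarith
  -- the angle `q`
  have hcos1 : 2 * (r * cos w) ≤ 1 := by
    rw [exL] at hxL
    rw [exR] at hxR
    linarith
  have hspq : cos w < sin (p + q) := by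
    rw [c5] at hab
    have e1 : r * cos w < r * sin (p + q) := by linarith
    exact lt_of_mul_lt_mul_left e1 hr0.le
  have hqP : q < P := by
    by_contra hcon
    push Not at hcon
    have e0 : π / 2 + w ≤ p + q := by rw [hP] at hcon; linarith
    have e2 : sin (p + q) = cos (p + q - π / 2) := by rw [cos_sub_pi_div_two]
    rw [e2] at hspq
    have := cos_le_cos_of_nonneg_of_le_pi hw0.le (by linarith : p + q - π / 2 ≤ π)
      (by linarith : w ≤ p + q - π / 2)
    linarith
  have hsq0 : 0 < sin q := sin_pos_of_pos_of_lt_pi hq0 (by linarith)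
  have hsqP : sin q ≤ sin P := by
    refine sin_le_sin_of_le_of_le_pi_div_two (by linarith) (by linarith) hqP.le
  have hcq : 0 < cos q := cos_pos_of_mem_Ioo ⟨by linarith, by linarith⟩
  have htq : sin q ≤ 2517 / 10000 * cos q :=
    tb (m := 244 / 1000) (sin_sq_add_cos_sq q) hcq (by norm_num) (by linarith) (by linarith)
      (by norm_num)
  -- the point `b`
  have hbim : -b.im = 2 * r * sin q * cos (q + w) := by
    rw [hon.bim, show 2 * q + w = q + (q + w) by ring, sin_add q (q + w),
      show w = (q + w) - q by ring, sin_sub (q + w) q]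
    rw [show (q + w) - q = w by ring]
    ring
  have hbre : xR o r - b.re = 2 * r * sin q * sin (q + w) := by
    rw [exR, hon.bre, show 2 * q + w = q + (q + w) by ring, cos_add q (q + w)]
    have : cos w = cos (q + w) * cos q + sin (q + w) * sin q := by
      rw [← cos_sub]
      congr 1
      ring
    rw [this]
    ring
  have hrs : 0 < 2 * r * sin q := by positivity
  have hrs' : 2 * r * sin q ≤ 244 / 1000 :=
    (mul_le_mul_of_nonneg_left hsqP (by linarith)).trans hdL
  have hsqw : 0 ≤ sin (q + w) := sin_nonneg_of_nonneg_of_le_pi (by linarith) (by linarith)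
  have hkey : sin (q + w) ≤ 56 / 100 * cos (q + w) := by
    rw [sin_add, cos_add]
    have k1 : sin q * cos w ≤ 2517 / 10000 * cos q * cos w :=
      mul_le_mul_of_nonneg_right htq hcw.le
    have k2 : cos q * sin w ≤ cos q * (266 / 1000 * cos w) :=
      mul_le_mul_of_nonneg_left htw hcq.le
    have k3 : sin q * sin w ≤ (2517 / 10000 * cos q) * (266 / 1000 * cos w) :=
      mul_le_mul htq htw hsw.le (by positivity)
    have k4 : 0 < cos q * cos w := mul_pos hcq hcw
    linarith
  -- the point `a`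
  obtain ⟨u, hu⟩ : ∃ u, u = P - w := ⟨_, rfl⟩
  have haim : a.im = 2 * r * sin P * cos u := by
    have e1 : 2 * p - w = π - (P + u) := by rw [hu, hP]; ring
    rw [hon.aim, e1, sin_pi_sub, sin_add]
    have : sin w = sin P * cos u - cos P * sin u := by
      rw [← sin_sub]
      congr 1
      rw [hu]
      ring
    rw [this]
    ring
  have hare : a.re - xL o r = 2 * r * sin P * sin u := by
    have e1 : 2 * p - w = π - (P + u) := by rw [hu, hP]; ring
    rw [exL, hon.are, e1, cos_pi_sub, cos_add]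
    have : cos w = cos P * cos u + sin P * sin u := by
      rw [← cos_sub]
      congr 1
      rw [hu]
      ring
    rw [this]
    ring
  have hu1 : sin u ≤ 257 / 1000 := by
    have : sin u ≤ sin P :=
      sin_le_sin_of_le_of_le_pi_div_two (by linarith) (by linarith) (by linarith)
    linarith
  have hu2 : -(257 / 1000) ≤ sin u := by
    have : sin (-w) ≤ sin u :=
      sin_le_sin_of_le_of_le_pi_div_two (by linarith) (by linarith) (by linarith)
    rw [sin_neg] at this
    linarith
  have hcu : 0 < cos u := cos_pos_of_mem_Ioo ⟨by linarith, by linarith⟩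
  have htu1 : sin u ≤ 27 / 100 * cos u :=
    tb (sin_sq_add_cos_sq u) hcu (by norm_num) hu2 hu1 (by norm_num)
  have htu2 : -sin u ≤ 27 / 100 * cos u := by
    refine tb (m := 257 / 1000) ?_ hcu (by norm_num) (by linarith) (by linarith) (by norm_num)
    rw [neg_sq]
    exact sin_sq_add_cos_sq u
  have hrP : 0 < 2 * r * sin P := by positivity
  refine ⟨⟨?_, ?_, ?_⟩, ?_, ?_⟩
  · rw [hbim]
    have := mul_le_of_le_one_right hrs.le (cos_le_one (q + w))
    linarith
  · rw [hbre]
    exact mul_nonneg hrs.le hsqw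
  · rw [hbre, hbim]
    have := mul_le_mul_of_nonneg_left hkey hrs.le
    linarith
  · rw [haim]
    have := mul_le_of_le_one_right hrP.le (cos_le_one u)
    linarith
  · rw [hare, haim, abs_le]
    constructor
    · have := mul_le_mul_of_nonneg_left htu2 hrP.le
      linarith
    · have := mul_le_mul_of_nonneg_left htu1 hrP.le
      linarith

end DT.SB
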