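import Pool.Agent.Work.MP_74021c_co.SB.Stmts

/-!
# Block SB, item NO: the normalized theorem
-/

set_option autoImplicit false

open Real Set

namespace DT.SB

namespace IX_NO

theorem reach_mono {A B : ℂ → ℂ → Prop} (h : ∀ u v, A u v → B u v) {p q : ℂ} {D : ℝ}
    (hR : Reach A p q D) : Reach B p q D := by
  induction hR with
  | refl => exact Reach.refl
  | step _ hab ih => exact Reach.step ih (h _ _ hab)

theorem sAdj_mono {S : Finset ℂ} {l l' : ℝ} (h : l ≤ l') (u v : ℂ) (hu : sAdj S l u v) :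
    sAdj S l' u v :=
  ⟨hu.1, hu.2.1, hu.2.2.1, hu.2.2.2.1.trans h, hu.2.2.2.2⟩

theorem sAdj_symm {S : Finset ℂ} {l : ℝ} {u v : ℂ} (h : sAdj S l u v) : sAdj S l v u := by
  obtain ⟨h1, h2, h3, h4, o, r, h5, h6, h7⟩ := h
  exact ⟨h1.symm, h3, h2, by rw [dist_comm]; exact h4, o, r, h6, h5, h7⟩

/-- the targets -/
noncomputable def T : List ℂ :=
  (List.range 11).flatMap fun k : ℕ => [(⟨k / 10, 5 / 8⟩ : ℂ), (⟨k / 10, -(5 / 8)⟩ : ℂ)]

theorem mem_T (t : ℂ) : t ∈ T ↔ ∃ k : ℕ, k ≤ 10 ∧ ∃ e : ℝ, (e = 5 / 8 ∨ e = -(5 / 8)) ∧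
    t = (⟨k / 10, e⟩ : ℂ) := by
  unfold T
  rw [List.mem_flatMap]
  constructor
  · rintro ⟨k, hk, ht⟩
    rw [List.mem_range] at hk
    rw [List.mem_cons, List.mem_singleton] at ht
    rcases ht with ht | ht
    · exact ⟨k, by omega, 5 / 8, Or.inl rfl, ht⟩
    · exact ⟨k, by omega, -(5 / 8), Or.inr rfl, ht⟩
  · rintro ⟨k, hk, e, he, rfl⟩
    refine ⟨k, List.mem_range.2 (by omega), ?_⟩
    rw [List.mem_cons, List.mem_singleton]
    rcases he with rfl | rfl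
    · exact Or.inl rfl
    · exact Or.inr rfl

/-- the points of the ellipse are points of `S` -/
theorem inside (h4 : S_FX) {S X : Finset ℂ} (hX : ∀ x ∈ X, ∃ t ∈ T, dist x t < 3 / 10000) {a : ℂ}
    (ha : a ∈ S ∪ X) (hd : dist 0 a + dist a 1 ≤ 8 / 5) : a ∈ S := by
  rcases Finset.mem_union.1 ha with h | h
  · exact h
  · obtain ⟨t, ht, hat⟩ := hX a h
    obtain ⟨k, -, e, he, rfl⟩ := (mem_T t).1 ht
    have := h4 k e he a hat
    linarith

end IX_NO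

open IX_NO in
/-- item NO -/
theorem pr_NO (h1 : S_CT) (h2 : S_GX) (h3 : S_BL) (h4 : S_FX) (h5 : S_AV) : S_NO := by
  intro hpot S hn3 hn4 h0S h1S ih
  obtain ⟨X, hX3, hX4, hXt, hXx⟩ := h2 S hn3 hn4 T (3 / 10000) (by norm_num)
  have hin : ∀ a ∈ S ∪ X, dist 0 a + dist a 1 ≤ 8 / 5 → a ∈ S := fun a ha hd =>
    inside h4 hXx ha hd
  have hctx : Ctx (S ∪ X) (fun u v => sAdj S 1 u v ∨ sAdj (S ∪ X) 1 u v) := by
    refine ⟨Finset.mem_union_left _ h0S, Finset.mem_union_left _ h1S, hX3, hX4, ?_, ?_, ?_, ?_, ?_⟩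
    · rintro u v (h | h)
      · exact Or.inl (sAdj_symm h)
      · exact Or.inr (sAdj_symm h)
    · intro u hu v hv hne hd o r ho ho' hE
      exact Or.inr ⟨hne, hu, hv, hd, o, r, ho, ho', hE⟩
    · intro a ha hd hlt
      obtain ⟨D, hD, hD'⟩ := ih 0 h0S a (hin a ha hd) hlt
      exact ⟨D, reach_mono (fun u v h => Or.inl (sAdj_mono hlt.le u v h)) hD, hD'⟩
    · intro a ha hd hlt
      obtain ⟨D, hD, hD'⟩ := ih a (hin a ha hd) 1 h1S hlt
      exact ⟨D, reach_mono (fun u v h => Or.inl (sAdj_mono hlt.le u v h)) hD, hD'⟩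
    · refine h3 (S ∪ X) ?_
      intro k hk e he
      obtain ⟨x, hx, hxt⟩ := hXt _ ((mem_T _).2 ⟨k, hk, e, he, rfl⟩)
      exact ⟨x, Finset.mem_union_right _ hx, hxt⟩
  obtain ⟨D, hD, hD8⟩ := h1 hpot (S ∪ X) _ hctx
  refine ⟨D, h5 _ (sAdj S 1) ?_ D hD hD8, hD8⟩
  rintro u v hu hv (h | h)
  · exact h
  · obtain ⟨g1, g2, g3, g4, o, r, g5, g6, g7⟩ := h
    exact ⟨g1, hin u g2 hu, hin v g3 hv, g4, o, r, g5, g6,
      fun s hs => g7 s (Finset.mem_union_left _ hs)⟩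

end DT.SB
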