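import Pool.Agent.Work.MP_74021c_co.SB.Stmts

/-!
# Block SB, item OC
-/

set_option autoImplicit false

open Real Set

namespace DT.SB

theorem pr_OC : S_OC := by
  intro β γ t u v u' v' hβ ht hv hv1 hv' hv1' hu hu' h1 h2 h3
  obtain ⟨hu1, hu2⟩ := abs_le.1 hu
  obtain ⟨hu1', hu2'⟩ := abs_le.1 hu'
  have g1 : -(56 / 100 * β) ≤ γ := by
    have e1 : β * u ≤ β * (56 / 100 * v) := mul_le_mul_of_nonneg_left hu2 hβ
    have e2 : -(56 / 100 * β) * v ≤ γ * v := by linarith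
    exact le_of_mul_le_mul_right e2 hv
  have g2 : γ ≤ 56 / 100 * β := by
    have e1 : β * u' ≤ β * (56 / 100 * v') := mul_le_mul_of_nonneg_left hu2' hβ
    have e2 : γ * v' ≤ 56 / 100 * β * v' := by linarith
    exact le_of_mul_le_mul_right e2 hv'
  have g3 : γ * (v - v') ≤ 56 / 100 * β * (26 / 100) := by
    have a1 : |γ| ≤ 56 / 100 * β := abs_le.2 ⟨g1, g2⟩
    have a2 : |v - v'| ≤ 26 / 100 := abs_le.2 ⟨by linarith, by linarith⟩
    calc γ * (v - v') ≤ |γ * (v - v')| := le_abs_self _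
      _ = |γ| * |v - v'| := abs_mul _ _
      _ ≤ _ := mul_le_mul a1 a2 (abs_nonneg _) (by positivity)
  have g4 : β * (6388 / 10000) ≤ β * (t - u - u') := mul_le_mul_of_nonneg_left (by linarith) hβ
  have hβ0 : β = 0 := by linarith
  refine ⟨hβ0, ?_⟩
  rw [hβ0] at g1 g2
  linarith

end DT.SB
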