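import Pool.Agent.Work.MP_74021c_co.SB.Stmts

/-!
# Block SB, item ON: `LP` and `RP` do not occur in the same chain
-/

set_option autoImplicit false

open Real Set

namespace DT.SB

namespace IX_ON

theorem sq_dist (o z : ℂ) : dist o z ^ 2 = (z.re - o.re) ^ 2 + (z.im - o.im) ^ 2 := by
  rw [Complex.dist_eq_re_im, Real.sq_sqrt (by positivity)]
  ring

/-- two axis circles with the same centre and radius, from the affine function -/
theorem core (h5 : S_OC) (o1 o2 : ℂ) (r1 r2 : ℝ) (hA1 : Ax o1 r1) (hA2 : Ax o2 r2)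
    (hL : xL o1 r1 ≤ xL o2 r2) (hR : xR o1 r1 ≤ xR o2 r2) (hL2 : xL o2 r2 ≤ 34 / 1000)
    (hR1 : 966 / 1000 ≤ xR o1 r1) (p1 p2 : ℂ) (ε : ℝ) (hε : ε * ε = 1)
    (hp1 : dist o1 p1 = r1) (hp1' : r2 ≤ dist o2 p1) (hp2 : dist o2 p2 = r2)
    (hp2' : r1 ≤ dist o1 p2) (hv : 0 < ε * p1.im) (hv1 : ε * p1.im ≤ 26 / 100)
    (hv' : 0 < ε * p2.im) (hv2 : ε * p2.im ≤ 26 / 100)
    (hu : |xR o1 r1 - p1.re| ≤ 56 / 100 * (ε * p1.im))
    (hu' : |p2.re - xL o2 r2| ≤ 56 / 100 * (ε * p2.im)) : o1 = o2 ∧ r1 = r2 := by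
  obtain ⟨hr1, hi1, -, -⟩ := hA1
  obtain ⟨hr2, hi2, -, -⟩ := hA2
  have hs1 : √(r1 ^ 2 - o1.im ^ 2) ^ 2 = r1 ^ 2 - o1.im ^ 2 := by
    refine Real.sq_sqrt ?_
    have := sq_lt_sq' (by have := neg_abs_le o1.im; linarith [abs_nonneg o1.im])
      (lt_of_le_of_lt (le_abs_self o1.im) hi1)
    linarith
  have hs2 : √(r2 ^ 2 - o2.im ^ 2) ^ 2 = r2 ^ 2 - o2.im ^ 2 := by
    refine Real.sq_sqrt ?_
    have := sq_lt_sq' (by have := neg_abs_le o2.im; linarith [abs_nonneg o2.im])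
      (lt_of_le_of_lt (le_abs_self o2.im) hi2)
    linarith
  have e1 : dist o1 p1 ^ 2 = r1 ^ 2 := by rw [hp1]
  have e2 : dist o2 p2 ^ 2 = r2 ^ 2 := by rw [hp2]
  have e3 : r2 ^ 2 ≤ dist o2 p1 ^ 2 := pow_le_pow_left₀ hr2.le hp1' 2
  have e4 : r1 ^ 2 ≤ dist o1 p2 ^ 2 := pow_le_pow_left₀ hr1.le hp2' 2
  rw [sq_dist] at e1 e2 e3 e4
  unfold xL xR at *
  set s1 := √(r1 ^ 2 - o1.im ^ 2) with hs1d
  set s2 := √(r2 ^ 2 - o2.im ^ 2) with hs2d
  have hs10 : 0 ≤ s1 := Real.sqrt_nonneg _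
  have hs20 : 0 ≤ s2 := Real.sqrt_nonneg _
  -- the affine function at the four points
  have l1 : (p1.re - o1.re) ^ 2 + (p1.im - o1.im) ^ 2 - r1 ^ 2 -
      ((p1.re - o2.re) ^ 2 + (p1.im - o2.im) ^ 2 - r2 ^ 2) ≤ 0 := by linarith
  have l2 : 0 ≤ (p2.re - o1.re) ^ 2 + (p2.im - o1.im) ^ 2 - r1 ^ 2 -
      ((p2.re - o2.re) ^ 2 + (p2.im - o2.im) ^ 2 - r2 ^ 2) := by linarith
  have l3 : (o2.re - s2 - o1.re) ^ 2 + o1.im ^ 2 - r1 ^ 2 -
      ((o2.re - s2 - o2.re) ^ 2 + o2.im ^ 2 - r2 ^ 2) ≤ 0 := by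
    have h1 : (o2.re - s2 - o1.re) ^ 2 ≤ s1 ^ 2 := by
      apply sq_le_sq'
      · linarith
      · linarith
    have h2 : (o2.re - s2 - o2.re) ^ 2 = s2 ^ 2 := by ring
    rw [h2]
    linarith
  have l4 : 0 ≤ (o1.re + s1 - o1.re) ^ 2 + o1.im ^ 2 - r1 ^ 2 -
      ((o1.re + s1 - o2.re) ^ 2 + o2.im ^ 2 - r2 ^ 2) := by
    have h1 : (o1.re + s1 - o2.re) ^ 2 ≤ s2 ^ 2 := by
      apply sq_le_sq'
      · linarith
      · linarith
    have h2 : (o1.re + s1 - o1.re) ^ 2 = s1 ^ 2 := by ring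
    rw [h2]
    linarith
  have hβ : 0 ≤ 2 * (o2.re - o1.re) := by linarith
  have hoc := h5 (2 * (o2.re - o1.re)) (-ε * (2 * (o2.im - o1.im)))
    ((o1.re + s1) - (o2.re - s2)) (o1.re + s1 - p1.re) (ε * p1.im) (p2.re - (o2.re - s2))
    (ε * p2.im) hβ (by linarith) hv hv1 hv' hv2 hu hu' ?_ ?_ ?_
  · obtain ⟨h1, h2⟩ := hoc
    have hre : o1.re = o2.re := by linarith
    have him : o1.im = o2.im := by
      have h3 : ε * (-ε * (2 * (o2.im - o1.im))) = 0 := by rw [h2, mul_zero]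
      have h4 : ε * (-ε * (2 * (o2.im - o1.im))) = -(ε * ε) * (2 * (o2.im - o1.im)) := by ring
      rw [h4, hε] at h3
      linarith
    have ho : o1 = o2 := Complex.ext hre him
    refine ⟨ho, ?_⟩
    rw [← hre, ← him] at l3 l4
    have h5 : r1 ^ 2 = r2 ^ 2 := by nlinarith
    exact (pow_left_inj₀ hr1.le hr2.le two_ne_zero).1 h5
  · have h1 : 2 * (o2.re - o1.re) * (o1.re + s1 - p1.re) +
        -ε * (2 * (o2.im - o1.im)) * (ε * p1.im) =
        2 * (o2.re - o1.re) * (o1.re + s1 - p1.re) -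
          (ε * ε) * (2 * (o2.im - o1.im)) * p1.im := by ring
    rw [h1, hε]
    nlinarith
  · have h1 : 2 * (o2.re - o1.re) * (p2.re - (o2.re - s2)) -
        -ε * (2 * (o2.im - o1.im)) * (ε * p2.im) =
        2 * (o2.re - o1.re) * (p2.re - (o2.re - s2)) +
          (ε * ε) * (2 * (o2.im - o1.im)) * p2.im := by ring
    rw [h1, hε]
    nlinarith
  · have h1 : -ε * (2 * (o2.im - o1.im)) * (ε * p1.im - ε * p2.im) =
        -((ε * ε) * (2 * (o2.im - o1.im)) * (p1.im - p2.im)) := by ring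
    rw [h1, hε]
    nlinarith

theorem mir_re (z : ℂ) : (mir z).re = 1 - z.re := by
  unfold mir
  simp

theorem mir_im (z : ℂ) : (mir z).im = z.im := by
  unfold mir
  simp

theorem mir_dist (z w : ℂ) : dist (mir z) (mir w) = dist z w := by
  rw [Complex.dist_eq_re_im, Complex.dist_eq_re_im, mir_re, mir_re, mir_im, mir_im]
  congr 1
  ring

theorem mir_one : mir 1 = 0 := by
  unfold mir
  simp

theorem xL_mir (o : ℂ) (r : ℝ) : xL (mir o) r = 1 - xR o r := by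
  unfold xL xR
  rw [mir_re, mir_im]
  ring

theorem xR_mir (o : ℂ) (r : ℝ) : xR (mir o) r = 1 - xL o r := by
  unfold xL xR
  rw [mir_re, mir_im]
  ring

theorem Ax_mir {o : ℂ} {r : ℝ} (h : Ax o r) : Ax (mir o) r := by
  obtain ⟨h1, h2, h3, h4⟩ := h
  refine ⟨h1, ?_, ?_, ?_⟩
  · rw [mir_im]
    exact h2
  · rw [xL_mir]
    linarith
  · rw [xR_mir]
    linarith

/-- the circle of a long edge -/
theorem large (h1 : S_CF) (h3 : S_BIG) {S : Finset ℂ} {G : ℂ → ℂ → Prop} {n : ℕ}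
    {a b o : ℕ → ℂ} {r : ℕ → ℝ} (hC : Ctx S G) (hH : Chain S n a b o r) (hU : Up n o r)
    {i : ℕ} (hi : i ≤ n) (hl : 1 < dist (a i) (b i)) :
    Ax (o i) (r i) ∧ 1 / 2 < r i ∧ 0 < (o i).im ∧ |(o i).im| ≤ 257 / 1000 * r i ∧
      xL (o i) (r i) ≤ 34 / 1000 ∧ 966 / 1000 ≤ xR (o i) (r i) := by
  have hr : 1 / 2 < r i := by
    have h4 := dist_triangle_left (a i) (b i) (o i)
    rw [hH.oa i hi, hH.ob i hi] at h4
    linarith
  have h4 := (h3 S G n a b o r hC hH i (by omega)).2 hr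
  exact ⟨(h1 S G n a b o r hC hH).1 i (by omega), hr, hU i (by omega) hr, h4.1, h4.2.1, h4.2.2.1⟩

end IX_ON

open IX_ON in
theorem pr_ON (h1 : S_CF) (h2 : S_MO) (h3 : S_BIG) (h4 : S_NB) (h5 : S_OC) : S_ON := by
  intro S G n a b o r hC hH hU i hi j hj hLP hRP
  obtain ⟨hl1, ha1⟩ := hLP
  obtain ⟨hl2, ha2⟩ := hRP
  obtain ⟨A1, R1, U1, I1, L1, X1⟩ := large h1 h3 hC hH hU hi hl1
  obtain ⟨A2, R2, U2, I2, L2, X2⟩ := large h1 h3 hC hH hU hj hl2
  obtain ⟨⟨b1v, b1u0, b1u⟩, a1v, a1u⟩ := h4 (a i) (b i) (o i) (r i) A1 R1 U1 I1 (hH.oa i hi)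
    (hH.ob i hi) (hH.apos i hi) (hH.bneg i hi) hl1 ha1
  have hm := h4 (mir (a j)) (mir (b j)) (mir (o j)) (r j) (Ax_mir A2) R2 (by rwa [mir_im])
    (by rwa [mir_im]) (by rw [mir_dist]; exact hH.oa j hj) (by rw [mir_dist]; exact hH.ob j hj)
    (by rw [mir_im]; exact hH.apos j hj) (by rw [mir_im]; exact hH.bneg j hj)
    (by rwa [mir_dist]) (by rw [← mir_one, mir_dist, dist_comm]; exact ha2)
  rw [mir_im, mir_im, mir_re, mir_re, xR_mir, xL_mir] at hm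
  obtain ⟨⟨b2v, b2u0, b2u⟩, a2v, a2u⟩ := hm
  have ap1 := hH.apos i hi
  have ap2 := hH.apos j hj
  have bn1 := hH.bneg i hi
  have bn2 := hH.bneg j hj
  -- the conclusion from equal circles
  have hend : o i = o j ∧ r i = r j → False := by
    rintro ⟨ho, hr⟩
    have d1 : a i ≠ b i := fun h => by rw [h] at ap1; linarith
    have d2 : a i ≠ b j := fun h => by rw [h] at ap1; linarith
    have d3 : b i ≠ a j := fun h => by rw [h] at bn1; linarith
    have d4 : a j ≠ b j := fun h => by rw [h] at ap2; linarith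
    have d5 : a i ≠ a j := fun h => by
      rw [← h] at ha2
      have h6 := dist_triangle (0 : ℂ) (a i) 1
      have h7 : dist (0 : ℂ) 1 = 1 := by simp
      linarith
    have d6 : b i ≠ b j := fun h => by
      rw [h] at b1u b1v
      linarith
    refine hC.nc4 (a i) (hH.aS i hi) (b i) (hH.bS i hi) (a j) (hH.aS j hj) (b j) (hH.bS j hj)
      d1 d5 d2 d3 d6 d4 ⟨o i, r i, hH.oa i hi, hH.ob i hi, ?_, ?_⟩
    · rw [ho, hr]
      exact hH.oa j hj
    · rw [ho, hr]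
      exact hH.ob j hj
  rcases lt_trichotomy i j with hij | hij | hij
  · obtain ⟨m1, m2⟩ := h2 S G n a b o r hC hH i j hij.le (by omega)
    refine hend (core h5 (o i) (o j) (r i) (r j) A1 A2 m1 m2 L2 X1 (b i) (b j) (-1) (by norm_num)
      (hH.ob i hi) (hH.emp j (by omega) _ (hH.bS i hi)) (hH.ob j hj)
      (hH.emp i (by omega) _ (hH.bS j hj)) (by linarith) (by linarith) (by linarith)
      (by linarith) ?_ ?_)
    · rw [abs_of_nonneg b1u0]
      linarith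
    · rw [abs_of_nonneg (by linarith)]
      linarith
  · rw [← hij] at ha2
    have h6 := dist_triangle (0 : ℂ) (a i) 1
    have h7 : dist (0 : ℂ) 1 = 1 := by simp
    linarith
  · obtain ⟨m1, m2⟩ := h2 S G n a b o r hC hH j i hij.le (by omega)
    have h8 := core h5 (o j) (o i) (r j) (r i) A2 A1 m1 m2 L1 X2 (a j) (a i) 1 (by norm_num)
      (hH.oa j hj) (hH.emp i (by omega) _ (hH.aS j hj)) (hH.oa i hi)
      (hH.emp j (by omega) _ (hH.aS i hi)) (by linarith) (by linarith) (by linarith)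
      (by linarith) ?_ ?_
    · exact hend ⟨h8.1.symm, h8.2.symm⟩
    · have h9 : xR (o j) (r j) - (a j).re = 1 - (a j).re - (1 - xR (o j) (r j)) := by ring
      rw [h9]
      linarith
    · linarith

end DT.SB
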