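import Pool.Agent.Work.MP_74021c_co.SB.Stmts

/-!
# Block SB, item PA: a large circle with good sides gives the path
-/

set_option autoImplicit false

open Real Set

namespace DT.SB

namespace IX_PA

theorem mir_mir (z : ℂ) : mir (mir z) = z := by
  unfold mir
  simp

theorem mir_zero : mir 0 = 1 := by
  unfold mir
  simp

theorem mir_one : mir 1 = 0 := by
  unfold mir
  simp

theorem mir_re (z : ℂ) : (mir z).re = 1 - z.re := by
  unfold mir
  simp

theorem mir_im (z : ℂ) : (mir z).im = z.im := by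
  unfold mir
  simp

theorem dist_mir (z w : ℂ) : dist (mir z) (mir w) = dist z w := by
  have h : mir z - mir w = -(starRingEnd ℂ) (z - w) := by
    unfold mir
    rw [map_sub]
    ring
  rw [dist_eq_norm, dist_eq_norm, h, norm_neg, RCLike.norm_conj]

theorem dist_zero_mir (z : ℂ) : dist 0 (mir z) = dist z 1 := by
  rw [← mir_one, dist_mir, dist_comm]

theorem xL_mir (o : ℂ) (r : ℝ) : xL (mir o) r = 1 - xR o r := by
  unfold xL xR
  rw [mir_re, mir_im]
  ring

/-- Joining the left and the right path. -/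
theorem join (h4 : S_RT) (h7 : S_SUM) {S : Finset ℂ} {G : ℂ → ℂ → Prop} (hC : Ctx S G)
    (o b : ℂ) (r D D' : ℝ) (hAx : Ax o r) (hr : 1 / 2 < r) (ho : 0 ≤ o.im)
    (ho' : |o.im| ≤ 257 / 1000 * r) (hd : dist o b = r) (hb : b.im < 0) (hR : Reach G 0 b D)
    (hL : LB o r b D) (hR' : Reach (fun u v => G (mir u) (mir v)) 0 (mir b) D')
    (hL' : LB (mir o) r (mir b) D') : ∃ D, Reach G 0 1 D ∧ D ≤ 8 / 5 := by
  have h8 := (h4 G).1 _ _ _ hR'
  rw [mir_zero, mir_mir] at h8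
  have h9 := (h4 G).2.2 hC.symm _ _ _ h8
  exact ⟨D + D', WalkAxis.reach_trans hR h9, h7 o b r D D' hAx hr ho ho' hd hb hL hL'⟩

end IX_PA

theorem pr_PA (h1 : S_LL) (h2 : S_XM) (h3 : S_CM) (h4 : S_RT) (h5 : S_BIG) (h6 : S_CF)
    (h7 : S_SUM) : S_PA := by
  intro S G n a b o r hC hCh hUp i hi hr hLP hRP
  have hC' := h2 S G hC
  have hCh' := h3 S n a b o r hCh
  have hUp' : Up n (fun i => mir (o (n + 1 - i))) (fun i => r (n + 1 - i)) := by
    intro j hj hrj
    show 0 < (mir (o (n + 1 - j))).im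
    rw [IX_PA.mir_im]
    exact hUp (n + 1 - j) (by omega) hrj
  have hbig := (h5 S G n a b o r hC hCh i hi).2 hr
  have hAx := (h6 S G n a b o r hC hCh).1 i hi
  have hoim := hUp i hi hr
  have hLP' : ∀ j ≤ n, i ≤ n - j →
      ¬ LP (fun i => mir (a (n - i))) (fun i => mir (b (n - i))) j := by
    intro j hj hij h
    have h8 : 1 < dist (mir (a (n - j))) (mir (b (n - j))) := h.1
    have h9 : dist 0 (mir (a (n - j))) < 21 / 100 := h.2
    rw [IX_PA.dist_mir] at h8
    rw [IX_PA.dist_zero_mir] at h9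
    exact hRP (n - j) hij (by omega) ⟨h8, h9⟩
  rcases i with _ | m
  · obtain ⟨D, hD, hLB⟩ := (h1 S G n a b o r hC hCh hUp 0 (Nat.zero_le n)).1
      (fun j hj => absurd hj (Nat.not_lt_zero j)) hbig.2.1
    obtain ⟨D', hD', hLB'⟩ := (h1 _ _ n _ _ _ _ hC' hCh' hUp' n le_rfl).2
      (fun j hj => hLP' j hj (Nat.zero_le _)) (by
        show xL (mir (o (n + 1 - (n + 1)))) (r (n + 1 - (n + 1))) ≤ 34 / 1000
        rw [Nat.sub_self, IX_PA.xL_mir]
        linarith [hbig.2.2.1])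
    have hD'2 : Reach (fun u v => G (mir u) (mir v)) 0 (mir (b (n - n))) D' := hD'
    have hLB'2 : LB (mir (o (n + 1 - (n + 1)))) (r (n + 1 - (n + 1))) (mir (b (n - n))) D' := hLB'
    rw [Nat.sub_self] at hD'2 hLB'2
    rw [Nat.sub_self] at hLB'2
    exact IX_PA.join h4 h7 hC (o 0) (b 0) (r 0) D D' hAx hr hoim.le hbig.1
      (hCh.ob 0 (Nat.zero_le n)) (hCh.bneg 0 (Nat.zero_le n)) hD hLB hD'2 hLB'2
  · have hm : m ≤ n := by omega
    obtain ⟨D, hD, hLB⟩ := (h1 S G n a b o r hC hCh hUp m hm).2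
      (fun j hj => hLP j (by omega)) hbig.2.1
    have e1 : n + 1 - (n - m) = m + 1 := by omega
    have e2 : n - (n - m) = m := by omega
    obtain ⟨D', hD', hLB'⟩ := (h1 _ _ n _ _ _ _ hC' hCh' hUp' (n - m) (Nat.sub_le n m)).1
      (fun j hj => hLP' j (by omega) (by omega)) (by
        show xL (mir (o (n + 1 - (n - m)))) (r (n + 1 - (n - m))) ≤ 34 / 1000
        rw [e1, IX_PA.xL_mir]
        linarith [hbig.2.2.1])
    have hD'2 : Reach (fun u v => G (mir u) (mir v)) 0 (mir (b (n - (n - m)))) D' := hD'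
    have hLB'2 : LB (mir (o (n + 1 - (n - m)))) (r (n + 1 - (n - m))) (mir (b (n - (n - m)))) D' :=
      hLB'
    rw [e2] at hD'2 hLB'2
    rw [e1] at hLB'2
    exact IX_PA.join h4 h7 hC (o (m + 1)) (b m) (r (m + 1)) D D' hAx hr hoim.le hbig.1
      (hCh.ob' m hm) (hCh.bneg m hm) hD hLB hD'2 hLB'2

end DT.SB
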