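import Pool.Agent.Work.MP_74021c_co.SB.Stmts

/-!
# Item PAR (block SB of MP_74021c_co): parameters of a circle and of two of its points
-/

set_option autoImplicit false

open Real Set

namespace DT.SB

/-- PAR -/
theorem pr_PAR : S_PAR := by
  intro a b o r ha0 hb0 ho3 ho2
  have hr0 : 0 ≤ r := by rw [← ho3]; exact dist_nonneg
  have hrpos : 0 < r := by
    rcases hr0.eq_or_lt with h1 | h1
    · exfalso
      rw [← h1] at ho2 ho3
      have h2 := dist_eq_zero.mp ho2
      have h3 := dist_eq_zero.mp ho3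
      rw [← h2] at hb0
      rw [← h3] at ha0
      linarith
    · exact h1
  have sa := WalkAxis.sq_of_dist ho3
  have sb := WalkAxis.sq_of_dist ho2
  have hcy : |o.im| < r := WalkAxis.abs_cy_lt hrpos ha0 hb0 sa sb
  obtain ⟨hw, hsin⟩ := circ_param hrpos hcy
  obtain ⟨w, hwdef⟩ : ∃ w, w = arcsin (o.im / r) := ⟨_, rfl⟩
  rw [← hwdef] at hw hsin
  have hor : (⟨o.re, r * sin w⟩ : ℂ) = o := by
    apply Complex.ext
    · rfl
    · exact hsin
  obtain ⟨p, hu0, hu1, hu2, hu3⟩ := upper_param (cx := o.re) hrpos hw (a := a)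
    (by rw [hor]; exact ho3) ha0.le
  obtain ⟨q, hv0, hv1, hv2, hv3⟩ := lower_param (cx := o.re) hrpos hw (b := b)
    (by rw [hor]; exact ho2) hb0.le
  obtain ⟨hw1, hw2⟩ := abs_lt.1 hw
  have hcos : 0 < cos w := cos_pos_of_mem_Ioo ⟨by linarith, hw2⟩
  have hsq : √(r ^ 2 - o.im ^ 2) = r * cos w := by
    rw [← hsin]
    have e : r ^ 2 - (r * sin w) ^ 2 = (r * cos w) ^ 2 := by
      nlinarith [sin_sq_add_cos_sq w]
    rw [e, Real.sqrt_sq (mul_pos hrpos hcos).le]
  refine ⟨w, p, q, ⟨⟨hrpos, hw, hu0, hu1, hv0, hv1, hu2, hu3, hv2, hv3⟩, hsin.symm⟩, hcy, ?_, ?_,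
    ?_, ?_, ?_, ?_⟩
  · unfold xL
    rw [hsq]
  · unfold xR
    rw [hsq]
  · rcases hu0.eq_or_lt with h | h
    · exfalso
      rw [← h, mul_zero, zero_sub, sin_neg] at hu3
      linarith
    · exact h
  · rcases hu1.eq_or_lt with h | h
    · exfalso
      rw [h, show 2 * (π / 2 + w) - w = w + π by ring, sin_add_pi] at hu3
      linarith
    · exact h
  · rcases hv0.eq_or_lt with h | h
    · exfalso
      rw [← h, mul_zero, zero_add] at hv3
      linarith
    · exact h
  · rcases hv1.eq_or_lt with h | h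
    · exfalso
      rw [h, show 2 * (π / 2 - w) + w = π - w by ring, sin_pi_sub] at hv3
      linarith
    · exact h

end DT.SB
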