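import Pool.Agent.Work.MP_74021c_co.SB.Stmts

/-!
# Block SB, item PB
-/

set_option autoImplicit false

open Real Set

namespace DT.SB

namespace IX_PB

theorem mir_im (z : ℂ) : (mir z).im = z.im := by
  unfold mir
  simp

theorem mir_dist (z w : ℂ) : dist (mir z) (mir w) = dist z w := by
  unfold mir
  rw [Complex.dist_eq, Complex.dist_eq,
    show 1 - (starRingEnd ℂ) z - (1 - (starRingEnd ℂ) w) = -((starRingEnd ℂ) (z - w)) by
      rw [map_sub]; ring, norm_neg, Complex.norm_conj]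

theorem mir_zero : mir 0 = 1 := by
  unfold mir
  simp

theorem mir_one : mir 1 = 0 := by
  unfold mir
  simp

theorem case_LP (h1 : S_PA) (h2 : S_ON) (S : Finset ℂ) (G : ℂ → ℂ → Prop) (n : ℕ)
    (a b o : ℕ → ℂ) (r : ℕ → ℝ) (hC : Ctx S G) (hch : Chain S n a b o r) (hU : Up n o r)
    (hLP : ∃ i, i ≤ n ∧ LP a b i) : ∃ D, Reach G 0 1 D ∧ D ≤ 8 / 5 := by
  classical
  obtain ⟨hin, hLPi⟩ := Nat.find_spec hLP
  have hri : 1 / 2 < r (Nat.find hLP) := by
    have e1 := dist_triangle_left (a (Nat.find hLP)) (b (Nat.find hLP)) (o (Nat.find hLP))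
    rw [hch.oa _ hin, hch.ob _ hin] at e1
    have e2 := hLPi.1
    linarith
  refine h1 S G n a b o r hC hch hU (Nat.find hLP) (by omega) hri ?_ ?_
  · intro j hj hLPj
    exact Nat.find_min hLP hj ⟨by omega, hLPj⟩
  · intro j _ hj hRP
    exact h2 S G n a b o r hC hch hU _ hin j hj hLPi hRP

end IX_PB

open IX_PB in
theorem pr_PB (h1 : S_PA) (h2 : S_ON) (h3 : S_XM) (h4 : S_CM) (h5 : S_RT) : S_PB := by
  intro S G n a b o r hC hch hU hex
  by_cases hLP : ∃ i, i ≤ n ∧ LP a b i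
  · exact case_LP h1 h2 S G n a b o r hC hch hU hLP
  by_cases hRP : ∃ j, j ≤ n ∧ RP a b j
  · obtain ⟨j, hj, hR1, hR2⟩ := hRP
    have hC' := h3 S G hC
    have hch' := h4 S n a b o r hch
    have hU' : Up n (fun i => mir (o (n + 1 - i))) (fun i => r (n + 1 - i)) := by
      intro i _ hri
      show 0 < (mir (o (n + 1 - i))).im
      rw [mir_im]
      exact hU (n + 1 - i) (by omega) hri
    have hLP' : ∃ i, i ≤ n ∧ LP (fun i => mir (a (n - i))) (fun i => mir (b (n - i))) i := by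
      refine ⟨n - j, by omega, ?_, ?_⟩
      · show 1 < dist (mir (a (n - (n - j)))) (mir (b (n - (n - j))))
        rw [mir_dist, show n - (n - j) = j by omega]
        exact hR1
      · show dist 0 (mir (a (n - (n - j)))) < 21 / 100
        rw [show n - (n - j) = j by omega, ← mir_one, mir_dist, dist_comm]
        exact hR2
    obtain ⟨D, hD, hD'⟩ := case_LP h1 h2 _ _ n _ _ _ _ hC' hch' hU' hLP'
    refine ⟨D, ?_, hD'⟩
    have e1 := (h5 G).1 0 1 D hD
    rw [mir_zero, mir_one] at e1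
    exact (h5 G).2.2 hC.symm 1 0 D e1
  · obtain ⟨i, hi, hri⟩ := hex
    refine h1 S G n a b o r hC hch hU i hi hri ?_ ?_
    · intro j hj hLPj
      exact hLP ⟨j, by omega, hLPj⟩
    · intro j _ hj hRPj
      exact hRP ⟨j, hj, hRPj⟩

end DT.SB
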