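import Pool.Agent.Work.MP_74021c_co.SB.Stmts

/-!
# Block SB, item PO: the potential along a chain of small circles
-/

set_option autoImplicit false

open Real Set

namespace DT.SB

open WalkAxis

namespace IX_PO

/-- two different points of `S` on a small empty circle are adjacent -/
theorem adj {S : Finset ℂ} {G : ℂ → ℂ → Prop} (C : Ctx S G) {o : ℂ} {r : ℝ} (hr : r ≤ 1 / 2)
    (he : Emp S o r) {u v : ℂ} (hu : u ∈ S) (hv : v ∈ S) (huv : u ≠ v) (h1 : dist o u = r)
    (h2 : dist o v = r) : G u v := by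
  refine C.edge u hu v hv huv ?_ o r h1 h2 he
  have h3 : dist u v ≤ dist u o + dist o v := dist_triangle u o v
  rw [dist_comm u o, h1, h2] at h3
  linarith

theorem flat (o : ℂ) (r w : ℝ) (h : o.im = r * sin w) : (⟨o.re, r * sin w⟩ : ℂ) = o :=
  Complex.ext rfl h.symm

/-- the state of the walk at the crossing edge `a b` of the circle `(o, r)` -/
def St (P : Pot (8 / 5)) (G : ℂ → ℂ → Prop) (a b o : ℂ) (r : ℝ) : Prop :=
  ∃ Da Db w p q, Reach G 0 a Da ∧ Reach G 0 b Db ∧ |Da - Db| ≤ dist a b ∧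
    OnC o.re r w p q a b ∧ o.im = r * sin w ∧ P.V o.re r w p q Da Db ≤ 0

theorem ne_of_side {a b c : ℂ} (h : cr b a c < 0) : b ≠ c ∧ a ≠ c := by
  constructor
  · rintro rfl
    unfold cr at h
    simp only [sub_self, Complex.zero_re, Complex.zero_im, mul_zero] at h
    exact lt_irrefl _ h
  · rintro rfl
    unfold cr at h
    have : (a - b).re * (a - b).im - (a - b).im * (a - b).re = 0 := by ring
    rw [this] at h
    exact lt_irrefl _ h

/-- the reach of the new point -/
theorem reach_min {G : ℂ → ℂ → Prop} {a b c : ℂ} {Da Db : ℝ} (hRa : Reach G 0 a Da)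
    (hRb : Reach G 0 b Db) (hac : G a c) (hbc : G b c) :
    Reach G 0 c (min (Da + dist a c) (Db + dist b c)) := by
  rcases min_choice (Da + dist a c) (Db + dist b c) with h1 | h1
  · rw [h1]; exact Reach.step hRa hac
  · rw [h1]; exact Reach.step hRb hbc

theorem step {S : Finset ℂ} {G : ℂ → ℂ → Prop} (P : Pot (8 / 5)) (C : Ctx S G) {a b c o o' : ℂ}
    {r r' : ℝ} (hr' : r' ≤ 1 / 2) (he : Emp S o r) (he' : Emp S o' r') (ha : 0 < a.im)
    (hb : b.im < 0) (haS : a ∈ S) (hbS : b ∈ S) (hcS : c ∈ S) (oa' : dist o' a = r')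
    (ob' : dist o' b = r') (oc' : dist o' c = r') (hside : cr b a c < 0)
    (h : St P G a b o r) :
    ∃ Da Db w p q, Reach G 0 a Da ∧ Reach G 0 b Db ∧ |Da - Db| ≤ dist a b ∧
      OnC o'.re r' w p q a b ∧ o'.im = r' * sin w ∧ P.V o'.re r' w p q Da Db ≤ 0 ∧ G a c ∧ G b c := by
  obtain ⟨Da, Db, w, p, q, hRa, hRb, hD, hon, him, hV⟩ := h
  have hne := ne_of_side hside
  obtain ⟨w', p', q', hon', him', hV'⟩ := pencil_step P hon ha hb oa' ob' oc' hside
    (by rw [flat o r w him]; exact he c hcS) hD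
  exact ⟨Da, Db, w', p', q', hRa, hRb, hD, hon', him', hV'.trans hV,
    adj C hr' he' haS hcS hne.2 oa' oc', adj C hr' he' hbS hcS hne.1 ob' oc'⟩

theorem stepB {S : Finset ℂ} {G : ℂ → ℂ → Prop} (P : Pot (8 / 5)) (C : Ctx S G) {a b c o o' : ℂ}
    {r r' : ℝ} (hr' : r' ≤ 1 / 2) (he : Emp S o r) (he' : Emp S o' r') (ha : 0 < a.im)
    (hb : b.im < 0) (hc : c.im < 0) (haS : a ∈ S) (hbS : b ∈ S) (hcS : c ∈ S)
    (oa' : dist o' a = r') (ob' : dist o' b = r') (oc' : dist o' c = r') (hside : cr b a c < 0)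
    (h : St P G a b o r) : St P G a c o' r' := by
  obtain ⟨Da, Db, w, p, q, hRa, hRb, hD, hon, him, hV, hac, hbc⟩ :=
    step P C hr' he he' ha hb haS hbS hcS oa' ob' oc' hside h
  set Dc := min (Da + dist a c) (Db + dist b c) with hDc
  have hRc : Reach G 0 c Dc := reach_min hRa hRb hac hbc
  have hDc1 : Dc ≤ Da + dist a c := min_le_left _ _
  have hDc2 : Dc ≤ Db + dist b c := min_le_right _ _
  set Da' := min Da (Dc + dist a c) with hDa'
  have hRa' : Reach G 0 a Da' := by
    rcases min_choice Da (Dc + dist a c) with h1 | h1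
    · rw [hDa', h1]; exact hRa
    · rw [hDa', h1, dist_comm]
      exact Reach.step hRc (C.symm _ _ hac)
  have hDa1 : Da' ≤ Da := min_le_left _ _
  have hDa2 : Da' ≤ Dc + dist a c := min_le_right _ _
  obtain ⟨q', hon', hV'⟩ := move_B P hon (by rw [flat o' r' w him]; exact oc') hc.le ha hb hside
    hDc2 hDa1
  refine ⟨Da', Dc, w, p, q', hRa', hRc, ?_, hon', him, hV'.trans hV⟩
  rw [abs_le]
  constructor
  · rcases min_choice Da (Dc + dist a c) with h1 | h1
    · rw [hDa', h1]; linarith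
    · rw [hDa', h1]; linarith [dist_nonneg (x := a) (y := c)]
  · linarith

theorem stepA {S : Finset ℂ} {G : ℂ → ℂ → Prop} (P : Pot (8 / 5)) (C : Ctx S G) {a b c o o' : ℂ}
    {r r' : ℝ} (hr' : r' ≤ 1 / 2) (he : Emp S o r) (he' : Emp S o' r') (ha : 0 < a.im)
    (hb : b.im < 0) (hc : 0 < c.im) (haS : a ∈ S) (hbS : b ∈ S) (hcS : c ∈ S)
    (oa' : dist o' a = r') (ob' : dist o' b = r') (oc' : dist o' c = r') (hside : cr b a c < 0)
    (h : St P G a b o r) : St P G c b o' r' := by
  obtain ⟨Da, Db, w, p, q, hRa, hRb, hD, hon, him, hV, hac, hbc⟩ :=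
    step P C hr' he he' ha hb haS hbS hcS oa' ob' oc' hside h
  set Dc := min (Da + dist a c) (Db + dist b c) with hDc
  have hRc : Reach G 0 c Dc := reach_min hRa hRb hac hbc
  have hDc1 : Dc ≤ Da + dist a c := min_le_left _ _
  have hDc2 : Dc ≤ Db + dist b c := min_le_right _ _
  set Db' := min Db (Dc + dist b c) with hDb'
  have hRb' : Reach G 0 b Db' := by
    rcases min_choice Db (Dc + dist b c) with h1 | h1
    · rw [hDb', h1]; exact hRb
    · rw [hDb', h1, dist_comm]
      exact Reach.step hRc (C.symm _ _ hbc)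
  have hDb1 : Db' ≤ Db := min_le_left _ _
  have hDb2 : Db' ≤ Dc + dist b c := min_le_right _ _
  obtain ⟨p', hon', hV'⟩ := move_A P hon (by rw [flat o' r' w him]; exact oc') hc.le ha hb hside
    hDc1 hDb1
  refine ⟨Dc, Db', w, p', q, hRc, hRb', ?_, hon', him, hV'.trans hV⟩
  rw [abs_le, dist_comm]
  constructor
  · linarith
  · rcases min_choice Db (Dc + dist b c) with h1 | h1
    · rw [hDb', h1]; linarith
    · rw [hDb', h1]; linarith [dist_nonneg (x := b) (y := c)]

end IX_PO

open IX_PO in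
theorem pr_PO (h1 : S_CF) (h2 : S_PAR) : S_PO := by
  intro P S G n a b o r C H hr
  obtain ⟨hAx, hxL, _⟩ := h1 S G n a b o r C H
  have key : ∀ i ≤ n, St P G (a i) (b i) (o i) (r i) := by
    intro i
    induction i with
    | zero =>
      intro _
      have ha := H.apos 0 (Nat.zero_le n)
      have hb := H.bneg 0 (Nat.zero_le n)
      have oa := H.oa 0 (Nat.zero_le n)
      have ob := H.ob 0 (Nat.zero_le n)
      obtain ⟨w, p, q, hpar, _, hl, _, _⟩ := h2 (a 0) (b 0) (o 0) (r 0) ha hb oa ob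
      have hz : (0 : ℂ).re = (o 0).re - r 0 * cos w := by
        rw [← hl, hxL, Complex.zero_re]
      have hV := V_start P hpar.1 (z := 0) Complex.zero_im hz
      rw [Complex.zero_re, mul_zero] at hV
      have he := H.emp 0 (Nat.zero_le _)
      have hr0 := hr 0 (Nat.zero_le _)
      have g1 : G 0 (a 0) := adj C hr0 he C.zero (H.aS 0 (Nat.zero_le n))
        (fun h => by rw [← h, Complex.zero_im] at ha; exact lt_irrefl _ ha) H.o0 oa
      have g2 : G 0 (b 0) := adj C hr0 he C.zero (H.bS 0 (Nat.zero_le n))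
        (fun h => by rw [← h, Complex.zero_im] at hb; exact lt_irrefl _ hb) H.o0 ob
      refine ⟨dist 0 (a 0), dist 0 (b 0), w, p, q, ?_, ?_, ?_, hpar.1, hpar.2, hV⟩
      · have := Reach.step (Reach.refl (Adj := G) (p := 0)) g1
        rwa [zero_add] at this
      · have := Reach.step (Reach.refl (Adj := G) (p := 0)) g2
        rwa [zero_add] at this
      · rw [dist_comm 0 (a 0), dist_comm 0 (b 0)]
        exact abs_dist_sub_le _ _ _
    | succ i ih =>
      intro hi
      have hi' : i < n := hi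
      have hs := ih hi'.le
      have ha := H.apos i hi'.le
      have hb := H.bneg i hi'.le
      have he := H.emp i (by omega)
      have he' := H.emp (i + 1) (by omega)
      have hr1 := hr (i + 1) (by omega)
      rcases H.step i hi' with ⟨e1, hside⟩ | ⟨e1, hside⟩
      · rw [e1]
        exact stepB P C hr1 he he' ha hb (H.bneg (i + 1) hi) (H.aS i hi'.le) (H.bS i hi'.le)
          (H.bS (i + 1) hi) (H.oa' i hi'.le) (H.ob' i hi'.le) (H.ob (i + 1) hi) hside hs
      · rw [e1]
        exact stepA P C hr1 he he' ha hb (H.apos (i + 1) hi) (H.aS i hi'.le) (H.bS i hi'.le)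
          (H.aS (i + 1) hi) (H.oa' i hi'.le) (H.ob' i hi'.le) (H.oa (i + 1) hi) hside hs
  have ha := H.apos n le_rfl
  have hb := H.bneg n le_rfl
  obtain ⟨Da, Db, w, p, q, hRa, hRb, hD, hon, him, hV, hac, hbc⟩ :=
    step P C (hr (n + 1) le_rfl) (H.emp n (by omega)) (H.emp (n + 1) le_rfl) ha hb
      (H.aS n le_rfl) (H.bS n le_rfl) C.one (H.oa' n le_rfl) (H.ob' n le_rfl) H.o1 H.f1
      (key n le_rfl)
  refine ⟨min (Da + dist (a n) 1) (Db + dist (b n) 1), reach_min hRa hRb hac hbc, ?_⟩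
  have hX : X (a n) (b n) < (1 : ℂ).re := (cr_axis_neg ha hb Complex.one_im).mp H.f1
  have sc := sq_of_dist H.o1
  rw [him] at sc
  have hcr := right_eq hon.hr hon.hw ha hb (OnC.sq_a hon) (OnC.sq_b hon) Complex.one_im sc hX
  have hE := V_end P hon Complex.one_im hcr (D := min (Da + dist (a n) 1) (Db + dist (b n) 1))
    (min_le_left _ _) (min_le_right _ _)
  rw [Complex.one_re] at hE
  linarith

end DT.SB
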