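import Pool.Agent.Work.MP_74021c_co.SB.Stmts

/-!
# Block SB, item RB: large, nearly diametral circles
-/

set_option autoImplicit false

open Real Set

namespace DT.SB

theorem pr_RB : S_RB := by
  intro o r hA hr him
  obtain ⟨hr0, hi, hL, hR⟩ := hA
  have hi2 : o.im ^ 2 ≤ (257 / 1000 * r) ^ 2 := by
    rw [← sq_abs]
    exact pow_le_pow_left₀ (abs_nonneg _) him 2
  have h1 : 0 < r ^ 2 - o.im ^ 2 := by nlinarith
  have hs : √(r ^ 2 - o.im ^ 2) ^ 2 = r ^ 2 - o.im ^ 2 := sq_sqrt h1.le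
  have hs0 : 0 ≤ √(r ^ 2 - o.im ^ 2) := sqrt_nonneg _
  unfold xL at hL ⊢
  unfold xR at hR ⊢
  set h : ℝ := √(r ^ 2 - o.im ^ 2) with hh
  have h2 : h ≤ 1 / 2 := by linarith
  have h3 : h ^ 2 ≤ 1 / 4 := by nlinarith
  have h4 : 483 / 1000 ≤ h := by
    by_contra hc
    push Not at hc
    have : h ^ 2 < (483 / 1000) ^ 2 := by nlinarith
    nlinarith
  refine ⟨?_, by linarith, by linarith, ?_⟩
  · by_contra hc
    push Not at hc
    nlinarith
  · intro h0
    rw [h0] at hs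
    nlinarith

end DT.SB
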