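import Pool.Agent.Work.MP_74021c_co.SB.Stmts

/-!
# Block SB, item RT: transport of paths
-/

set_option autoImplicit false

open Real Set

namespace DT.SB

namespace IX_RT

theorem dist_mir (z w : ℂ) : dist (mir z) (mir w) = dist z w := by
  have h : mir z - mir w = -(starRingEnd ℂ) (z - w) := by
    unfold mir
    rw [map_sub]
    ring
  rw [dist_eq_norm, dist_eq_norm, h, norm_neg, RCLike.norm_conj]

theorem dist_conj (z w : ℂ) : dist ((starRingEnd ℂ) z) ((starRingEnd ℂ) w) = dist z w := by
  rw [dist_eq_norm, dist_eq_norm, ← map_sub, RCLike.norm_conj]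

end IX_RT

theorem pr_RT : S_RT := by
  intro G
  refine ⟨?_, ?_, ?_⟩
  · intro x y D h
    induction h with
    | refl => exact Reach.refl
    | step _ hadj ih =>
      rw [← IX_RT.dist_mir]
      exact Reach.step ih hadj
  · intro x y D h
    induction h with
    | refl => exact Reach.refl
    | step _ hadj ih =>
      rw [← IX_RT.dist_conj]
      exact Reach.step ih hadj
  · intro hs x y D h
    induction h with
    | refl => exact Reach.refl
    | step _ hadj ih =>
      have h1 := Reach.step Reach.refl (hs _ _ hadj)
      have h2 := WalkAxis.reach_trans h1 ih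
      rw [zero_add, dist_comm, add_comm] at h2
      exact h2

end DT.SB
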