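import Pool.Agent.Work.MP_74021c_co.SB.Stmts

/-!
# Block SB, item SI: induction over the distances
-/

set_option autoImplicit false

open Real Set

namespace DT.SB

namespace IX_SI

/-- transport of paths by a map which multiplies the distances by `c` -/
theorem reach_map {H K : ℂ → ℂ → Prop} {f : ℂ → ℂ} {c : ℝ}
    (hf : ∀ a b, dist (f a) (f b) = c * dist a b) (hHK : ∀ a b, H a b → K (f a) (f b))
    {u v : ℂ} {D : ℝ} (h : Reach H u v D) : Reach K (f u) (f v) (c * D) := by
  induction h with
  | refl =>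
    rw [mul_zero]
    exact Reach.refl
  | step _ hab ih =>
    rw [mul_add, ← hf]
    exact Reach.step ih (hHK _ _ hab)

/-- transport of short edges -/
theorem sAdj_map {S : Finset ℂ} {l : ℝ} {f : ℂ → ℂ} {c : ℝ} (hc : 0 < c)
    (hf : ∀ a b, dist (f a) (f b) = c * dist a b) {u v : ℂ} (h : sAdj S l u v) :
    sAdj (S.image f) (c * l) (f u) (f v) := by
  obtain ⟨hne, hu, hv, hd, o, r, hou, hov, hE⟩ := h
  refine ⟨?_, Finset.mem_image_of_mem f hu, Finset.mem_image_of_mem f hv, ?_, f o, c * r, ?_, ?_,
    ?_⟩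
  · intro h
    have h1 := hf u v
    rw [h, dist_self] at h1
    have h2 : 0 < dist u v := dist_pos.2 hne
    have h3 := mul_pos hc h2
    linarith
  · rw [hf]
    exact mul_le_mul_of_nonneg_left hd hc.le
  · rw [hf, hou]
  · rw [hf, hov]
  · intro s hs
    obtain ⟨t, ht, rfl⟩ := Finset.mem_image.1 hs
    rw [hf]
    exact mul_le_mul_of_nonneg_left (hE t ht) hc.le

/-- orientation and similarities -/
theorem cr_sim (w p a b c : ℂ) : cr (w * a + p) (w * b + p) (w * c + p) =
    (w.re ^ 2 + w.im ^ 2) * cr a b c := by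
  simp only [cr, Complex.sub_re, Complex.sub_im, Complex.add_re, Complex.add_im, Complex.mul_re,
    Complex.mul_im]
  ring

/-- distances and similarities -/
theorem dist_sim (w p a b : ℂ) : dist (w * a + p) (w * b + p) = ‖w‖ * dist a b := by
  rw [dist_add_right, dist_eq_norm, ← mul_sub, norm_mul, ← dist_eq_norm]

theorem dist_sim' (w p a b : ℂ) : dist ((a - p) / w) ((b - p) / w) = ‖w‖⁻¹ * dist a b := by
  rw [dist_eq_norm, ← sub_div, norm_div, sub_sub_sub_cancel_right, ← dist_eq_norm, div_eq_inv_mul]

open Classical in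
/-- the number of pairs of smaller distance -/
noncomputable def cnt (S : Finset ℂ) (t : ℝ) : ℕ :=
  ((S ×ˢ S).filter fun x => dist x.1 x.2 < t).card

theorem cnt_lt {S : Finset ℂ} {u v : ℂ} {t : ℝ} (hu : u ∈ S) (hv : v ∈ S) (h : dist u v < t) :
    cnt S (dist u v) < cnt S t := by
  classical
  refine Finset.card_lt_card ⟨fun x hx => ?_, fun hsub => ?_⟩
  · rw [Finset.mem_filter] at hx ⊢
    exact ⟨hx.1, hx.2.trans h⟩
  · have h1 : (u, v) ∈ (S ×ˢ S).filter fun x : ℂ × ℂ => dist x.1 x.2 < t :=
      Finset.mem_filter.2 ⟨Finset.mem_product.2 ⟨hu, hv⟩, h⟩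
    have h2 := (Finset.mem_filter.1 (hsub h1)).2
    exact lt_irrefl _ h2

end IX_SI

open IX_SI in
theorem pr_SI (h1 : S_NO) : S_SI := by
  intro hPot S h3 h4
  have key : ∀ n : ℕ, ∀ p ∈ S, ∀ q ∈ S, cnt S (dist p q) = n →
      ∃ D, Reach (sAdj S (dist p q)) p q D ∧ D ≤ 8 / 5 * dist p q := by
    intro n
    induction n using Nat.strong_induction_on with
    | _ n ih =>
      intro p hp q hq hn
      by_cases hpq : p = q
      · subst hpq
        exact ⟨0, Reach.refl, by rw [dist_self, mul_zero]⟩
      obtain ⟨w, hw⟩ : ∃ w : ℂ, w = q - p := ⟨_, rfl⟩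
      have hw0 : w ≠ 0 := by
        rw [hw]
        exact sub_ne_zero.2 (Ne.symm hpq)
      have hL : dist p q = ‖w‖ := by rw [hw, dist_comm, dist_eq_norm]
      have hLpos : 0 < ‖w‖ := norm_pos_iff.2 hw0
      have hinv : ∀ z : ℂ, w * ((z - p) / w) + p = z := by
        intro z
        rw [mul_div_cancel₀ _ hw0, sub_add_cancel]
      set S' : Finset ℂ := S.image (fun z => (z - p) / w) with hS'
      have hback : ∀ z ∈ S', w * z + p ∈ S := by
        intro z hz
        obtain ⟨s, hs, rfl⟩ := Finset.mem_image.1 hz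
        rw [hinv]
        exact hs
      have hinj : ∀ z z' : ℂ, z ≠ z' → w * z + p ≠ w * z' + p := by
        intro z z' hz h
        exact hz (mul_left_cancel₀ hw0 (add_right_cancel h))
      have h3' : NC3 S' := by
        intro a ha b hb c hc hab hac hbc h0
        apply h3 _ (hback a ha) _ (hback b hb) _ (hback c hc) (hinj _ _ hab) (hinj _ _ hac)
          (hinj _ _ hbc)
        rw [cr_sim, h0, mul_zero]
      have h4' : NC4 S' := by
        rintro a ha b hb c hc d hd hab hac had hbc hbd hcd ⟨o, r, ha1, hb1, hc1, hd1⟩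
        apply h4 _ (hback a ha) _ (hback b hb) _ (hback c hc) _ (hback d hd) (hinj _ _ hab)
          (hinj _ _ hac) (hinj _ _ had) (hinj _ _ hbc) (hinj _ _ hbd) (hinj _ _ hcd)
        refine ⟨w * o + p, ‖w‖ * r, ?_, ?_, ?_, ?_⟩
        · rw [dist_sim, ha1]
        · rw [dist_sim, hb1]
        · rw [dist_sim, hc1]
        · rw [dist_sim, hd1]
      have h0' : (0 : ℂ) ∈ S' := by
        rw [hS', Finset.mem_image]
        exact ⟨p, hp, by rw [sub_self, zero_div]⟩
      have h1' : (1 : ℂ) ∈ S' := by
        rw [hS', Finset.mem_image]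
        refine ⟨q, hq, ?_⟩
        rw [← hw, div_self hw0]
      obtain ⟨D, hD, hD'⟩ := h1 hPot S' h3' h4' h0' h1' (by
        intro u' hu' v' hv' huv
        obtain ⟨u, hu, rfl⟩ := Finset.mem_image.1 hu'
        obtain ⟨v, hv, rfl⟩ := Finset.mem_image.1 hv'
        rw [dist_sim'] at huv ⊢
        have h5 : dist u v < dist p q := by
          rw [hL]
          rw [inv_mul_lt_iff₀ hLpos, mul_one] at huv
          exact huv
        obtain ⟨D, hD, hD'⟩ := ih _ (hn ▸ cnt_lt hu hv h5) u hu v hv rfl
        refine ⟨‖w‖⁻¹ * D, ?_, ?_⟩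
        · exact reach_map (f := fun z => (z - p) / w) (fun a b => dist_sim' w p a b)
            (fun a b hab => sAdj_map (inv_pos.2 hLpos) (fun a b => dist_sim' w p a b) hab) hD
        · have h6 := mul_le_mul_of_nonneg_left hD' (inv_pos.2 hLpos).le
          linarith)
      have himg : S'.image (fun z => w * z + p) = S := by
        rw [hS', Finset.image_image]
        have h5 : ((fun z => w * z + p) ∘ fun z => (z - p) / w) = id := by
          funext z
          exact hinv z
        rw [h5, Finset.image_id]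
      have h5 : Reach (sAdj S ‖w‖) p q (‖w‖ * D) := by
        have h6 := reach_map (K := sAdj S ‖w‖) (f := fun z => w * z + p)
          (fun a b => dist_sim w p a b)
          (fun a b hab => by
            have h7 := sAdj_map (f := fun z => w * z + p) hLpos
              (fun a b => dist_sim w p a b) hab
            rw [himg, mul_one] at h7
            exact h7) hD
        have h7 : w * (0 : ℂ) + p = p := by rw [mul_zero, zero_add]
        have h8 : w * (1 : ℂ) + p = q := by rw [mul_one, hw, sub_add_cancel]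
        simp only [h7, h8] at h6
        exact h6
      refine ⟨‖w‖ * D, by rw [hL]; exact h5, ?_⟩
      rw [hL]
      have h6 := mul_le_mul_of_nonneg_left hD' hLpos.le
      linarith
  intro p hp q hq
  exact key _ p hp q hq rfl

end DT.SB
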