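import Pool.Agent.Work.MP_74021c_co.SB.Stmts

/-!
# Block SB, item SUM: the left bound and its mirror image
-/

set_option autoImplicit false

open Real Set

namespace DT.SB

namespace IX_SUM

theorem mir_re (z : ℂ) : (mir z).re = 1 - z.re := by
  unfold mir
  simp

theorem mir_im (z : ℂ) : (mir z).im = z.im := by
  unfold mir
  simp

theorem sin_inj_w (x y : ℝ) (hx : |x| < π / 2) (hy : |y| < π / 2) (h : sin x = sin y) :
    x = y := by
  rw [abs_lt] at hx hy
  exact Real.injOn_sin ⟨hx.1.le, hx.2.le⟩ ⟨hy.1.le, hy.2.le⟩ h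

end IX_SUM

open IX_SUM in
theorem pr_SUM (h1 : S_FIN) : S_SUM := by
  intro o b r D D' hAx hr him him' _ hb hL hL'
  obtain ⟨w, q, hr0, hw, how, hq0, hq1, hbre, hbim, hD⟩ := hL
  obtain ⟨w', q', -, hw', how', hq0', hq1', hbre', hbim', hD'⟩ := hL'
  rw [mir_re] at hbre' hD'
  rw [mir_im] at how' hbim'
  rw [mir_re] at hbre'
  have hww : w' = w := by
    apply sin_inj_w w' w hw' hw
    have : r * sin w' = r * sin w := by rw [← how', ← how]
    exact mul_left_cancel₀ hr0.ne' this
  subst hww
  have hsw : 0 ≤ sin w' := by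
    by_contra hneg
    have := mul_neg_of_pos_of_neg hr0 (not_le.1 hneg)
    linarith
  have hwab := abs_lt.1 hw
  have hw0 : 0 ≤ w' := by
    by_contra hneg
    have h2 := Real.sin_neg_of_neg_of_neg_pi_lt (not_le.1 hneg) (by linarith [Real.pi_pos])
    linarith
  have hcos : 0 < cos w' := Real.cos_pos_of_mem_Ioo ⟨hwab.1, hwab.2⟩
  have hqq : 2 * q + w' = π - (2 * q' + w') := by
    have hc : cos (2 * q + w') = cos (π - (2 * q' + w')) := by
      rw [Real.cos_pi_sub]
      have h3 : r * cos (2 * q + w') = r * -cos (2 * q' + w') := by linarith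
      exact mul_left_cancel₀ hr0.ne' h3
    apply Real.injOn_cos _ _ hc
    · exact ⟨by linarith, by linarith⟩
    · exact ⟨by linarith, by linarith⟩
  have hsqrt : √(r ^ 2 - o.im ^ 2) = r * cos w' := by
    have e : r ^ 2 - o.im ^ 2 = (r * cos w') ^ 2 := by
      rw [how]
      have := Real.sin_sq_add_cos_sq w'
      nlinarith
    rw [e, Real.sqrt_sq (by positivity)]
  obtain ⟨-, -, hxl, hxr⟩ := hAx
  unfold xL at hxl
  unfold xR at hxr
  rw [hsqrt] at hxl hxr
  have hs2 : sin w' ≤ 257 / 1000 := by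
    rw [abs_of_nonneg him, how] at him'
    have h4 : r * sin w' ≤ r * (257 / 1000) := by linarith
    exact le_of_mul_le_mul_left h4 hr0
  have hF := h1 w' (2 * r * cos w') hw0 hwab.2 hs2 (by nlinarith) (by linarith)
  have e1 : 2 * r * cos w' * (π / 2 - w') / cos w' = 2 * r * (π / 2 - w') := by
    field_simp
  rw [e1] at hF
  have e2 : 2 * r * (π / 2 - w' - q) + 2 * r * (π / 2 - w' - q') = 2 * r * (π / 2 - w') := by
    have e3 : q + q' = π / 2 - w' := by linarith
    have e4 : 2 * r * (π / 2 - w' - q) + 2 * r * (π / 2 - w' - q') =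
        2 * r * (2 * (π / 2 - w') - (q + q')) := by ring
    rw [e4, e3]
    ring
  linarith

end DT.SB
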