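import Pool.Agent.Work.MP_74021c_co.SB.Stmts

/-!
# Block SB, item TH: the slope argument for large circles on both sides
-/

set_option autoImplicit false

open Real Set

namespace DT.SB

namespace IX_TH

lemma trig {r c σ : ℝ} (hr : 1 / 2 < r) (hc : 0 < c) (h : c ^ 2 + σ ^ 2 = 1) (h0 : 0 < σ)
    (h1 : σ ≤ 257 / 1000) : 153 / 40 * (1 - 2 * r * c) < r * σ := by
  have h2 : 153 / 20 * (1 - c) < σ := by
    by_contra hcon
    push Not at hcon
    have h3 : c ≤ 1 - 20 / 153 * σ := by linarith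
    have h4 : c ^ 2 ≤ (1 - 20 / 153 * σ) ^ 2 := by
      apply pow_le_pow_left₀ hc.le h3
    nlinarith
  nlinarith

lemma param {o : ℂ} {r : ℝ} (hA : Ax o r) : ∃ c : ℝ, 0 < c ∧ c ^ 2 + (o.im / r) ^ 2 = 1 ∧
    xL o r = o.re - r * c ∧ xR o r = o.re + r * c := by
  obtain ⟨hr, hi, -, -⟩ := hA
  have h1 : 0 < r ^ 2 - o.im ^ 2 := by
    have := sq_lt_sq' (abs_lt.1 hi).1 (abs_lt.1 hi).2
    linarith
  refine ⟨√(r ^ 2 - o.im ^ 2) / r, by positivity, ?_, ?_, ?_⟩
  · rw [div_pow, div_pow, sq_sqrt h1.le]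
    field_simp
    ring
  · unfold xL; rw [mul_div_cancel₀ _ hr.ne']
  · unfold xR; rw [mul_div_cancel₀ _ hr.ne']

lemma high {o : ℂ} {r : ℝ} (hA : Ax o r) (hr : 1 / 2 < r) (him : |o.im| ≤ 257 / 1000 * r)
    (hn : 0 < o.im) : -(153 / 40) < o.im - 153 / 20 * o.re := by
  obtain ⟨c, hc, h1, h2, h3⟩ := param hA
  obtain ⟨hr0, -, hL, hR⟩ := hA
  have h4 : o.im / r ≤ 257 / 1000 := by
    rw [div_le_iff₀ hr0]; exact (le_abs_self _).trans him
  have h5 := trig hr hc h1 (div_pos hn hr0) h4
  rw [mul_div_cancel₀ _ hr0.ne'] at h5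
  rw [h2] at hL
  rw [h3] at hR
  nlinarith

lemma low {o : ℂ} {r : ℝ} (hA : Ax o r) (hr : 1 / 2 < r) (him : |o.im| ≤ 257 / 1000 * r)
    (hn : o.im < 0) : o.im - 153 / 20 * o.re < -(153 / 40) := by
  obtain ⟨c, hc, h1, h2, h3⟩ := param hA
  obtain ⟨hr0, -, hL, hR⟩ := hA
  have h4 : -o.im / r ≤ 257 / 1000 := by
    rw [div_le_iff₀ hr0]; exact (neg_le_abs _).trans him
  have h1' : c ^ 2 + (-o.im / r) ^ 2 = 1 := by rw [neg_div, neg_sq]; exact h1
  have h5 := trig hr hc h1' (div_pos (by linarith) hr0) h4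
  rw [mul_div_cancel₀ _ hr0.ne'] at h5
  rw [h2] at hL
  rw [h3] at hR
  nlinarith

lemma sq_eq {o a : ℂ} {r : ℝ} (h : dist o a = r) :
    (o.re - a.re) ^ 2 + (o.im - a.im) ^ 2 = r ^ 2 := by
  rw [← h, Complex.dist_eq, Complex.sq_norm, Complex.normSq_apply, Complex.sub_re, Complex.sub_im]
  ring

lemma stepT {a b o o' : ℂ} {r r' : ℝ} (hF : Fw a b o r o' r')
    (h : b.re - a.re ≤ 153 / 20 * (a.im - b.im)) :
    o'.im - 153 / 20 * o'.re ≤ o.im - 153 / 20 * o.re := by
  obtain ⟨ha, hb, h1, h2, h3, h4, h5⟩ := hF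
  have e1 := sq_eq h1
  have e2 := sq_eq h2
  have e3 := sq_eq h3
  have e4 := sq_eq h4
  have hperp : (o'.re - o.re) * (a.re - b.re) + (o'.im - o.im) * (a.im - b.im) = 0 := by
    nlinarith
  have hv : 0 < a.im - b.im := by linarith
  have hid : (153 / 20 * (o'.re - o.re) - (o'.im - o.im)) *
      ((a.re - b.re) ^ 2 + (a.im - b.im) ^ 2) =
      ((o'.re - o.re) * (a.im - b.im) - (o'.im - o.im) * (a.re - b.re)) *
        (153 / 20 * (a.im - b.im) + (a.re - b.re)) := by
    linear_combination (153 / 20 * (a.re - b.re) - (a.im - b.im)) * hperp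
  have hpos : 0 ≤ ((o'.re - o.re) * (a.im - b.im) - (o'.im - o.im) * (a.re - b.re)) *
        (153 / 20 * (a.im - b.im) + (a.re - b.re)) := mul_nonneg h5 (by linarith)
  rw [← hid] at hpos
  have := nonneg_of_mul_nonneg_left hpos (by positivity)
  linarith

end IX_TH

open IX_TH

theorem pr_TH (hCF : S_CF) (hBIG : S_BIG) (hFWX : S_FWX) : S_TH := by
  intro S G n a b o r hC hch i j hij hj hri hoi hrj hoj
  obtain ⟨hAx, -, hFw⟩ := hCF S G n a b o r hC hch
  have hB := hBIG S G n a b o r hC hch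
  by_contra hcon
  push Not at hcon
  have key : ∀ k, i ≤ k → k ≤ j → (o k).im - 153 / 20 * (o k).re < -(153 / 40) := by
    intro k hk
    induction k, hk using Nat.le_induction with
    | base =>
      intro _
      exact low (hAx i (by omega)) hri ((hB i (by omega)).2 hri).1 hoi
    | succ k hk ih =>
      intro hkj
      have ih' := ih (by omega)
      have hF := hFw k (by omega)
      rcases le_or_gt (dist (a k) (b k)) 1 with hd | hd
      · exact lt_of_le_of_lt (stepT hF (hcon k hk (by omega) hd)) ih'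
      · have hr1 : 1 / 2 < r k := by
          have := dist_triangle_left (a k) (b k) (o k)
          rw [hF.2.2.1, hF.2.2.2.1] at this
          linarith
        have hr2 : 1 / 2 < r (k + 1) := by
          have := dist_triangle_left (a k) (b k) (o (k + 1))
          rw [hF.2.2.2.2.1, hF.2.2.2.2.2.1] at this
          linarith
        have hk0 := (hB k (by omega)).2 hr1
        have hk1 := (hB (k + 1) (by omega)).2 hr2
        have hneg : (o k).im < 0 := by
          rcases lt_trichotomy (o k).im 0 with h | h | h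
          · exact h
          · exact absurd h hk0.2.2.2
          · have := high (hAx k (by omega)) hr1 hk0.1 h
            linarith
        have hneg' : (o (k + 1)).im < 0 := by
          by_contra hc
          push Not at hc
          have := hFWX (a k) (b k) (o k) (r k) (o (k + 1)) (r (k + 1)) hF (hAx k (by omega))
            (hAx (k + 1) (by omega)) (Or.inl ⟨hneg.le, hc⟩)
          linarith
        exact low (hAx (k + 1) (by omega)) hr2 hk1.1 hneg'
  have h1 := key j (by omega) le_rfl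
  have h2 := high (hAx j hj) hrj ((hB j hj).2 hrj).1 hoj
  linarith

end DT.SB
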