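import Pool.Agent.Work.MP_74021c_co.SB.Stmts

/-!
# Item XC: the complex conjugate of the situation
-/

set_option autoImplicit false

open Real Set

namespace DT.SB

namespace IX_XC

theorem cj_zero : (starRingEnd ℂ) 0 = 0 := map_zero _

theorem cj_one : (starRingEnd ℂ) 1 = 1 := map_one _

theorem dist_cj (x y : ℂ) : dist ((starRingEnd ℂ) x) ((starRingEnd ℂ) y) = dist x y := by
  rw [Complex.dist_eq_re_im, Complex.dist_eq_re_im, Complex.conj_re, Complex.conj_re,
    Complex.conj_im, Complex.conj_im]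
  congr 1
  ring

theorem dist_cj_left (x y : ℂ) : dist ((starRingEnd ℂ) x) y = dist x ((starRingEnd ℂ) y) := by
  rw [← dist_cj x ((starRingEnd ℂ) y), Complex.conj_conj]

theorem cr_cj (a b c : ℂ) :
    cr ((starRingEnd ℂ) a) ((starRingEnd ℂ) b) ((starRingEnd ℂ) c) = - cr a b c := by
  simp only [cr, Complex.sub_re, Complex.sub_im, Complex.conj_re, Complex.conj_im]
  ring

theorem emp_cj {S : Finset ℂ} {o : ℂ} {r : ℝ} (h : Emp (S.image (starRingEnd ℂ)) o r) :
    Emp S ((starRingEnd ℂ) o) r := by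
  intro s hs
  rw [dist_cj_left]
  exact h _ (Finset.mem_image_of_mem _ hs)

theorem ax_cj {o : ℂ} {r : ℝ} (h : Ax o r) : Ax ((starRingEnd ℂ) o) r := by
  obtain ⟨h1, h2, h3, h4⟩ := h
  refine ⟨h1, ?_, ?_, ?_⟩
  · rw [Complex.conj_im, abs_neg]; exact h2
  · simp only [xL, Complex.conj_re, Complex.conj_im, neg_sq]; exact h3
  · simp only [xR, Complex.conj_re, Complex.conj_im, neg_sq]; exact h4

end IX_XC

open IX_XC in
theorem pr_XC (h1 : S_RT) : S_XC := by
  intro S G h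
  have hG : (fun u v => (fun u v => G ((starRingEnd ℂ) u) ((starRingEnd ℂ) v)) ((starRingEnd ℂ) u)
      ((starRingEnd ℂ) v)) = G := by
    funext u v
    simp only [Complex.conj_conj]
  have hR : ∀ x y D, Reach G x y D →
      Reach (fun u v => G ((starRingEnd ℂ) u) ((starRingEnd ℂ) v)) ((starRingEnd ℂ) x)
        ((starRingEnd ℂ) y) D := by
    intro x y D hD
    refine (h1 (fun u v => G ((starRingEnd ℂ) u) ((starRingEnd ℂ) v))).2.1 x y D ?_
    rw [hG]
    exact hD
  refine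
    { zero := ?_, one := ?_, nc3 := ?_, nc4 := ?_, symm := ?_, edge := ?_, ih0 := ?_, ih1 := ?_,
      block := ?_ }
  · exact Finset.mem_image.2 ⟨0, h.zero, cj_zero⟩
  · exact Finset.mem_image.2 ⟨1, h.one, cj_one⟩
  · intro a' ha' b' hb' c' hc' hab hac hbc
    obtain ⟨a, ha, rfl⟩ := Finset.mem_image.1 ha'
    obtain ⟨b, hb, rfl⟩ := Finset.mem_image.1 hb'
    obtain ⟨c, hc, rfl⟩ := Finset.mem_image.1 hc'
    rw [cr_cj]
    exact neg_ne_zero.2 (h.nc3 a ha b hb c hc (fun e => hab (by rw [e])) (fun e => hac (by rw [e]))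
      (fun e => hbc (by rw [e])))
  · intro a' ha' b' hb' c' hc' d' hd' hab hac had hbc hbd hcd
    obtain ⟨a, ha, rfl⟩ := Finset.mem_image.1 ha'
    obtain ⟨b, hb, rfl⟩ := Finset.mem_image.1 hb'
    obtain ⟨c, hc, rfl⟩ := Finset.mem_image.1 hc'
    obtain ⟨d, hd, rfl⟩ := Finset.mem_image.1 hd'
    rintro ⟨o, r, k1, k2, k3, k4⟩
    refine h.nc4 a ha b hb c hc d hd (fun e => hab (by rw [e])) (fun e => hac (by rw [e]))
      (fun e => had (by rw [e])) (fun e => hbc (by rw [e])) (fun e => hbd (by rw [e]))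
      (fun e => hcd (by rw [e])) ⟨(starRingEnd ℂ) o, r, ?_, ?_, ?_, ?_⟩ <;>
      rw [dist_cj_left] <;> assumption
  · intro u v huv
    exact h.symm _ _ huv
  · intro u hu v hv huv hd o r hou hov he
    obtain ⟨a, ha, rfl⟩ := Finset.mem_image.1 hu
    obtain ⟨b, hb, rfl⟩ := Finset.mem_image.1 hv
    show G ((starRingEnd ℂ) ((starRingEnd ℂ) a)) ((starRingEnd ℂ) ((starRingEnd ℂ) b))
    rw [Complex.conj_conj, Complex.conj_conj]
    rw [dist_cj] at hd
    exact h.edge a ha b hb (fun e => huv (by rw [e])) hd ((starRingEnd ℂ) o) r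
      (by rw [dist_cj_left]; exact hou) (by rw [dist_cj_left]; exact hov) (emp_cj he)
  · intro a' ha' hs hl
    obtain ⟨a, ha, rfl⟩ := Finset.mem_image.1 ha'
    have e1 : dist (0 : ℂ) ((starRingEnd ℂ) a) = dist 0 a := by
      rw [← dist_cj 0 a, cj_zero]
    have e2 : dist ((starRingEnd ℂ) a) 1 = dist a 1 := by
      rw [← dist_cj a 1, cj_one]
    rw [e1, e2] at hs
    rw [e1] at hl
    obtain ⟨D, hD, hD2⟩ := h.ih0 a ha hs hl
    refine ⟨D, ?_, by rw [e1]; exact hD2⟩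
    have h2 := hR 0 a D hD
    rwa [cj_zero] at h2
  · intro a' ha' hs hl
    obtain ⟨a, ha, rfl⟩ := Finset.mem_image.1 ha'
    have e1 : dist (0 : ℂ) ((starRingEnd ℂ) a) = dist 0 a := by
      rw [← dist_cj 0 a, cj_zero]
    have e2 : dist ((starRingEnd ℂ) a) 1 = dist a 1 := by
      rw [← dist_cj a 1, cj_one]
    rw [e1, e2] at hs
    rw [e2] at hl
    obtain ⟨D, hD, hD2⟩ := h.ih1 a ha hs hl
    refine ⟨D, ?_, by rw [e2]; exact hD2⟩
    have h2 := hR a 1 D hD
    rwa [cj_one] at h2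
  · intro o r hax hr he
    have h2 := h.block ((starRingEnd ℂ) o) r (ax_cj hax) hr (emp_cj he)
    rwa [Complex.conj_im, abs_neg] at h2

end DT.SB
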