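import Pool.Agent.Work.MP_74021c_co.SB.Stmts

/-!
# Item XM: the mirror image of the situation
-/

set_option autoImplicit false

open Real Set

namespace DT.SB

namespace IX_XM

theorem mir_re (z : ℂ) : (mir z).re = 1 - z.re := by
  simp [mir]

theorem mir_im (z : ℂ) : (mir z).im = z.im := by
  simp [mir]

theorem mir_mir (z : ℂ) : mir (mir z) = z := by
  apply Complex.ext
  · rw [mir_re, mir_re]; ring
  · rw [mir_im, mir_im]

theorem mir_zero : mir 0 = 1 := by
  apply Complex.ext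
  · rw [mir_re]; simp
  · rw [mir_im]; simp

theorem mir_one : mir 1 = 0 := by
  apply Complex.ext
  · rw [mir_re]; simp
  · rw [mir_im]; simp

theorem dist_mir (x y : ℂ) : dist (mir x) (mir y) = dist x y := by
  rw [Complex.dist_eq_re_im, Complex.dist_eq_re_im, mir_re, mir_re, mir_im, mir_im]
  congr 1
  ring

theorem dist_mir_left (x y : ℂ) : dist (mir x) y = dist x (mir y) := by
  rw [← dist_mir x (mir y), mir_mir]

theorem cr_mir (a b c : ℂ) : cr (mir a) (mir b) (mir c) = - cr a b c := by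
  simp only [cr, Complex.sub_re, Complex.sub_im, mir_re, mir_im]
  ring

theorem mir_inj {a b : ℂ} (h : mir a = mir b) : a = b := by
  rw [← mir_mir a, h, mir_mir]

theorem emp_mir {S : Finset ℂ} {o : ℂ} {r : ℝ} (h : Emp (S.image mir) o r) : Emp S (mir o) r := by
  intro s hs
  rw [dist_mir_left]
  exact h _ (Finset.mem_image_of_mem _ hs)

theorem xL_mir (o : ℂ) (r : ℝ) : xL (mir o) r = 1 - xR o r := by
  simp only [xL, xR, mir_re, mir_im]
  ring

theorem xR_mir (o : ℂ) (r : ℝ) : xR (mir o) r = 1 - xL o r := by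
  simp only [xL, xR, mir_re, mir_im]
  ring

theorem ax_mir {o : ℂ} {r : ℝ} (h : Ax o r) : Ax (mir o) r := by
  obtain ⟨h1, h2, h3, h4⟩ := h
  refine ⟨h1, ?_, ?_, ?_⟩
  · rw [mir_im]; exact h2
  · rw [xL_mir]; linarith
  · rw [xR_mir]; linarith

end IX_XM

open IX_XM in
theorem pr_XM (h1 : S_RT) : S_XM := by
  intro S G h
  have hG : (fun u v => (fun u v => G (mir u) (mir v)) (mir u) (mir v)) = G := by
    funext u v
    simp only [mir_mir]
  have hR : ∀ x y D, Reach G x y D → Reach (fun u v => G (mir u) (mir v)) (mir x) (mir y) D := by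
    intro x y D hD
    refine (h1 (fun u v => G (mir u) (mir v))).1 x y D ?_
    rw [hG]
    exact hD
  refine
    { zero := ?_, one := ?_, nc3 := ?_, nc4 := ?_, symm := ?_, edge := ?_, ih0 := ?_, ih1 := ?_,
      block := ?_ }
  · exact Finset.mem_image.2 ⟨1, h.one, mir_one⟩
  · exact Finset.mem_image.2 ⟨0, h.zero, mir_zero⟩
  · intro a' ha' b' hb' c' hc' hab hac hbc
    obtain ⟨a, ha, rfl⟩ := Finset.mem_image.1 ha'
    obtain ⟨b, hb, rfl⟩ := Finset.mem_image.1 hb'
    obtain ⟨c, hc, rfl⟩ := Finset.mem_image.1 hc'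
    rw [cr_mir]
    exact neg_ne_zero.2 (h.nc3 a ha b hb c hc (fun e => hab (by rw [e])) (fun e => hac (by rw [e]))
      (fun e => hbc (by rw [e])))
  · intro a' ha' b' hb' c' hc' d' hd' hab hac had hbc hbd hcd
    obtain ⟨a, ha, rfl⟩ := Finset.mem_image.1 ha'
    obtain ⟨b, hb, rfl⟩ := Finset.mem_image.1 hb'
    obtain ⟨c, hc, rfl⟩ := Finset.mem_image.1 hc'
    obtain ⟨d, hd, rfl⟩ := Finset.mem_image.1 hd'
    rintro ⟨o, r, k1, k2, k3, k4⟩
    refine h.nc4 a ha b hb c hc d hd (fun e => hab (by rw [e])) (fun e => hac (by rw [e]))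
      (fun e => had (by rw [e])) (fun e => hbc (by rw [e])) (fun e => hbd (by rw [e]))
      (fun e => hcd (by rw [e])) ⟨mir o, r, ?_, ?_, ?_, ?_⟩ <;> rw [dist_mir_left] <;> assumption
  · intro u v huv
    exact h.symm _ _ huv
  · intro u hu v hv huv hd o r hou hov he
    obtain ⟨a, ha, rfl⟩ := Finset.mem_image.1 hu
    obtain ⟨b, hb, rfl⟩ := Finset.mem_image.1 hv
    show G (mir (mir a)) (mir (mir b))
    rw [mir_mir, mir_mir]
    rw [dist_mir] at hd
    exact h.edge a ha b hb (fun e => huv (by rw [e])) hd (mir o) r (by rw [dist_mir_left]; exact hou)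
      (by rw [dist_mir_left]; exact hov) (emp_mir he)
  · intro a' ha' hs hl
    obtain ⟨a, ha, rfl⟩ := Finset.mem_image.1 ha'
    have e1 : dist (0 : ℂ) (mir a) = dist a 1 := by
      rw [← mir_one, dist_mir, dist_comm]
    have e2 : dist (mir a) 1 = dist 0 a := by
      rw [← mir_zero, dist_mir, dist_comm]
    rw [e1, e2, add_comm] at hs
    rw [e1] at hl
    obtain ⟨D, hD, hD2⟩ := h.ih1 a ha hs hl
    refine ⟨D, ?_, by rw [e1]; exact hD2⟩
    have h2 := hR 1 a D ((h1 G).2.2 h.symm a 1 D hD)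
    rwa [mir_one] at h2
  · intro a' ha' hs hl
    obtain ⟨a, ha, rfl⟩ := Finset.mem_image.1 ha'
    have e1 : dist (0 : ℂ) (mir a) = dist a 1 := by
      rw [← mir_one, dist_mir, dist_comm]
    have e2 : dist (mir a) 1 = dist 0 a := by
      rw [← mir_zero, dist_mir, dist_comm]
    rw [e1, e2, add_comm] at hs
    rw [e2] at hl
    obtain ⟨D, hD, hD2⟩ := h.ih0 a ha hs hl
    refine ⟨D, ?_, by rw [e2]; exact hD2⟩
    have h2 := hR a 0 D ((h1 G).2.2 h.symm 0 a D hD)
    rwa [mir_zero] at h2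
  · intro o r hax hr he
    have h2 := h.block (mir o) r (ax_mir hax) hr (emp_mir he)
    rwa [mir_im] at h2

end DT.SB
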