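import Pool.Agent.Work.MP_74021c_co.SB.I_D1
import Pool.Agent.Work.MP_74021c_co.SB.I_D2
import Pool.Agent.Work.MP_74021c_co.SB.I_D3
import Pool.Agent.Work.MP_74021c_co.SB.I_DI
import Pool.Agent.Work.MP_74021c_co.SB.I_HS
import Pool.Agent.Work.MP_74021c_co.SB.I_BT
import Pool.Agent.Work.MP_74021c_co.SB.I_CMP
import Pool.Agent.Work.MP_74021c_co.SB.I_FIN
import Pool.Agent.Work.MP_74021c_co.SB.I_PAR
import Pool.Agent.Work.MP_74021c_co.SB.I_CH
import Pool.Agent.Work.MP_74021c_co.SB.I_PEN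
import Pool.Agent.Work.MP_74021c_co.SB.I_MF
import Pool.Agent.Work.MP_74021c_co.SB.I_FWO
import Pool.Agent.Work.MP_74021c_co.SB.I_FWM
import Pool.Agent.Work.MP_74021c_co.SB.I_FWX
import Pool.Agent.Work.MP_74021c_co.SB.I_HD
import Pool.Agent.Work.MP_74021c_co.SB.I_MA
import Pool.Agent.Work.MP_74021c_co.SB.I_RB
import Pool.Agent.Work.MP_74021c_co.SB.I_L0
import Pool.Agent.Work.MP_74021c_co.SB.I_LM
import Pool.Agent.Work.MP_74021c_co.SB.I_AL
import Pool.Agent.Work.MP_74021c_co.SB.I_AM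
import Pool.Agent.Work.MP_74021c_co.SB.I_SUM
import Pool.Agent.Work.MP_74021c_co.SB.I_CF
import Pool.Agent.Work.MP_74021c_co.SB.I_MO
import Pool.Agent.Work.MP_74021c_co.SB.I_BIG
import Pool.Agent.Work.MP_74021c_co.SB.I_CE
import Pool.Agent.Work.MP_74021c_co.SB.I_RT
import Pool.Agent.Work.MP_74021c_co.SB.I_XM
import Pool.Agent.Work.MP_74021c_co.SB.I_XC
import Pool.Agent.Work.MP_74021c_co.SB.I_CM
import Pool.Agent.Work.MP_74021c_co.SB.I_CC
import Pool.Agent.Work.MP_74021c_co.SB.I_LL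
import Pool.Agent.Work.MP_74021c_co.SB.I_NB
import Pool.Agent.Work.MP_74021c_co.SB.I_OC
import Pool.Agent.Work.MP_74021c_co.SB.I_ON
import Pool.Agent.Work.MP_74021c_co.SB.I_PA
import Pool.Agent.Work.MP_74021c_co.SB.I_PB
import Pool.Agent.Work.MP_74021c_co.SB.I_PO
import Pool.Agent.Work.MP_74021c_co.SB.I_TH
import Pool.Agent.Work.MP_74021c_co.SB.I_DR
import Pool.Agent.Work.MP_74021c_co.SB.I_MX
import Pool.Agent.Work.MP_74021c_co.SB.I_CT
import Pool.Agent.Work.MP_74021c_co.SB.I_GI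
import Pool.Agent.Work.MP_74021c_co.SB.I_GX
import Pool.Agent.Work.MP_74021c_co.SB.I_BL
import Pool.Agent.Work.MP_74021c_co.SB.I_FX
import Pool.Agent.Work.MP_74021c_co.SB.I_AV
import Pool.Agent.Work.MP_74021c_co.SB.I_NO
import Pool.Agent.Work.MP_74021c_co.SB.I_SI

/-!
# Block SB: assembly
-/

set_option autoImplicit false

namespace DT.SB

theorem all_SI : S_SI := by
  have cf := pr_CF pr_FWO
  have mo := pr_MO cf pr_FWM
  have big := pr_BIG cf pr_RB
  have di := pr_DI pr_D1 pr_D2 pr_D3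
  have al := pr_AL di pr_HS pr_BT pr_CMP pr_PEN pr_MF pr_FWM pr_CH
  have am := pr_AM pr_HS pr_BT pr_PEN pr_MF pr_FWM pr_CH
  have ll := pr_LL cf mo big pr_L0 pr_LM al am pr_HD pr_MA
  have xm := pr_XM pr_RT
  have xc := pr_XC pr_RT
  have sum := pr_SUM pr_FIN
  have pa := pr_PA ll xm pr_CM pr_RT big cf sum
  have nb := pr_NB pr_PAR pr_CH pr_RB
  have on := pr_ON cf mo big nb pr_OC
  have pb := pr_PB pa on xm pr_CM pr_RT
  have po := pr_PO cf pr_PAR
  have fwx := pr_FWX pr_FWM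
  have th := pr_TH cf big fwx
  have mx := pr_MX th pr_DR mo big cf
  have ct := pr_CT pr_CE po pb mx xc pr_CC pr_RT big
  have gx := pr_GX pr_GI
  exact pr_SI (pr_NO ct gx pr_BL pr_FX pr_AV)

end DT.SB
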