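import Pool.Agent.Work.MP_74021c_co.SB.I_AL

/-!
# Block SB, item AM: the pencil step if `a` is not near `0`
-/

set_option autoImplicit false

open Real Set

namespace DT.SB

open IX_AL

namespace IX_AM

lemma W_nonneg {κ k ω0 ω1 x : ℝ} (hκ : |κ| < π / 2) (hk : |k| < cos κ) (h0 : ω0 ∈ Ioo 0 π)
    (h1 : ω1 ∈ Ioo 0 π) (hx : x ∈ Icc ω0 ω1) (hs0 : 0 ≤ sin (W κ k ω0))
    (hs1 : 0 ≤ sin (W κ k ω1)) : 0 ≤ sin (W κ k x) := by
  rcases eq_or_lt_of_le (hx.1.trans hx.2) with h | h
  · have : x = ω0 := le_antisymm (by rw [h]; exact hx.2) hx.1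
    rw [this]; exact hs0
  · have e0 := (G4a.W_facts (ω := ω0) hκ hk).2.1
    have e1 := (G4a.W_facts (ω := ω1) hκ hk).2.1
    have ex := (G4a.W_facts (ω := x) hκ hk).2.1
    have hpos : 0 < sin (ω1 - ω0) :=
      sin_pos_of_pos_of_lt_pi (by linarith) (by linarith [h1.2, h0.1])
    have hA : 0 ≤ sin (ω1 - x) :=
      sin_nonneg_of_nonneg_of_le_pi (by linarith [hx.2]) (by linarith [h1.2, h0.1, hx.1])
    have hB : 0 ≤ sin (x - ω0) :=
      sin_nonneg_of_nonneg_of_le_pi (by linarith [hx.1]) (by linarith [h1.2, h0.1, hx.2])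
    have key : sin (W κ k x) * sin (ω1 - ω0) =
        sin (W κ k ω0) * sin (ω1 - x) + sin (W κ k ω1) * sin (x - ω0) := by
      rw [e0, e1, ex, sin_sub, sin_sub, sin_sub]
      ring
    have : 0 ≤ sin (W κ k x) * sin (ω1 - ω0) := by
      rw [key]; positivity
    exact nonneg_of_mul_nonneg_left this hpos

/-- the trigonometric part -/
lemma core {P Q : ℝ} (hP : 0 < P) (hQ : 0 < Q) (hPQ : P + Q < π) (hQ2 : Q ≤ π / 2)
    (hs : 17 / 100 ≤ sin P) :
    cos P * (sin Q - Q * cos Q) ≤ (743 / 100 - Q) * sin P * sin Q := by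
  have hsQ : 0 < sin Q := sin_pos_of_pos_of_lt_pi hQ (by linarith)
  have hcQ : 0 ≤ cos Q := cos_nonneg_of_mem_Icc ⟨by linarith, hQ2⟩
  have hc1 : cos P ≤ 9858 / 10000 := by
    have := sin_sq_add_cos_sq P
    nlinarith
  have hpi := pi_lt_d2
  have hsub : 0 ≤ sin Q - Q * cos Q := by
    rcases eq_or_lt_of_le hQ2 with h | h
    · rw [h, cos_pi_div_two]; simp
    · have h1 := lt_tan hQ h
      rw [tan_eq_sin_div_cos, lt_div_iff₀ (cos_pos_of_mem_Ioo ⟨by linarith, h⟩)] at h1
      linarith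
  have hQc : 0 ≤ Q * cos Q := by positivity
  have hR : 9858 / 10000 * sin Q ≤ (743 / 100 - Q) * sin P * sin Q := by
    apply mul_le_mul_of_nonneg_right _ hsQ.le
    have : 585 / 100 ≤ 743 / 100 - Q := by linarith
    nlinarith
  rcases le_total (cos P) 0 with h | h
  · have : cos P * (sin Q - Q * cos Q) ≤ 0 := mul_nonpos_of_nonpos_of_nonneg h hsub
    have h3 : 0 ≤ 9858 / 10000 * sin Q := by positivity
    linarith
  · have : cos P * (sin Q - Q * cos Q) ≤ cos P * sin Q :=
      mul_le_mul_of_nonneg_left (by linarith) h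
    have h4 : cos P * sin Q ≤ 9858 / 10000 * sin Q := mul_le_mul_of_nonneg_right hc1 hsQ.le
    linarith

end IX_AM

open IX_AM

theorem pr_AM (hHS : S_HS) (hBT : S_BT) (hPEN : S_PEN) (hMF : S_MF)
    (hFWM : S_FWM) (hCH : S_CH) : S_AM := by
  intro a b o r o' r' D hF hA hA' hr hr' hi hi' hx' hd hLB
  obtain ⟨κ, k, m, M, ω0, ω1, hP, hM0, hM1, hle⟩ := hPEN a b o r o' r' hF
  obtain ⟨ha, hb, -⟩ := hF
  have hκ := hP.1
  have hk := hP.2.1
  have hm := hP.2.2.1
  have h0 := to_f hP hM0 hLB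
  apply of_f hP hM1
  refine h0.trans ?_
  have hs0 : 0 ≤ sin (W κ k ω0) := by
    have h := hM0.2.2.2
    rw [h] at hi
    exact nonneg_of_mul_nonneg_right hi hA.1
  have hs1 : 0 ≤ sin (W κ k ω1) := by
    have h := hM1.2.2.2
    rw [h] at hi'
    exact nonneg_of_mul_nonneg_right hi' hA'.1
  have hder : ∀ x ∈ Icc ω0 ω1, HasDerivAt (f κ k m M) (m * (2 * HH (W κ k x)
      ((π - x + W κ k x + κ) / 2) ((π - x - W κ k x - κ) / 2) / (cos (W κ k x) * sin x ^ 2))) x :=
    fun x hx => der hBT hκ hk (mid hMF hFWM hCH ha hb hP hM0 hM1 hx hr hr').1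
  have hmono : MonotoneOn (f κ k m M) (Icc ω0 ω1) := by
    apply monotoneOn_of_deriv_nonneg (convex_Icc _ _)
    · exact fun x hx => (hder x hx).continuousAt.continuousWithinAt
    · intro x hx
      rw [interior_Icc] at hx
      exact (hder x (Ioo_subset_Icc_self hx)).differentiableAt.differentiableWithinAt
    · intro x hx
      rw [interior_Icc] at hx
      replace hx := Ioo_subset_Icc_self hx
      rw [(hder x hx).deriv]
      obtain ⟨hxm, hr0, hr1, hx0, hx1, c1, c5, hPp, hQp⟩ :=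
        mid hMF hFWM hCH ha hb hP hM0 hM1 hx hr hr'
      apply der_nonneg hm hκ hk hxm
      have hsW : 0 ≤ sin (W κ k x) := W_nonneg hκ hk hM0.1 hM1.1 hx hs0 hs1
      have hon := hP.2.2.2.2 x hxm
      have hWf := G4a.W_facts (ω := x) hκ hk
      have hW0 : 0 ≤ W κ k x := by
        by_contra hc
        push Not at hc
        have := sin_neg_of_neg_of_neg_pi_lt hc (by linarith [(abs_lt.1 hWf.1).1, pi_pos])
        linarith
      have hq0 : 0 ≤ pq κ k x := hon.hq0
      have eQ : π / 2 - W κ k x - pq κ k x = (π - x - W κ k x - κ) / 2 := by unfold pq; ring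
      set L : ℝ := pc κ m M x - pr m x * cos (W κ k x) with hL
      set P : ℝ := (π - x + W κ k x + κ) / 2 with hPd
      set Q : ℝ := (π - x - W κ k x - κ) / 2 with hQd
      have hPQ : P + Q = π - x := by rw [hPd, hQd]; ring
      have hQ2 : Q ≤ π / 2 := by rw [← eQ]; linarith
      have hL0 : 0 ≤ L := hA.2.2.1.trans hx0
      have hL1 : L ≤ 34 / 1000 := hx1.trans hx'
      have hd' : dist 0 a ≤ L + 2 * pr m x * sin P := by
        have h1 := dist_triangle (0 : ℂ) ((L : ℝ) : ℂ) a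
        have h2 : dist (0 : ℂ) ((L : ℝ) : ℂ) = L := by
          rw [dist_comm, dist_zero_right]
          rw [Complex.norm_real, norm_eq_abs, abs_of_nonneg hL0]
        rw [h2, c1] at h1
        exact h1
      have hsP : 0 < sin P := sin_pos_of_pos_of_lt_pi hPp (by linarith [hxm.1])
      have hsQ : 0 < sin Q := sin_pos_of_pos_of_lt_pi hQp (by linarith [hxm.1])
      refine hHS _ _ _ hWf.2.2.le hsP.le hsQ.le ?_
      apply core hPp hQp (by linarith [hxm.1]) hQ2
      by_contra hc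
      push Not at hc
      have h5 : 2 * pr m x * sin P ≤ 2 * (5174 / 10000) * sin P :=
        mul_le_mul_of_nonneg_right (by linarith) hsP.le
      nlinarith
  exact hmono (left_mem_Icc.2 hle) (right_mem_Icc.2 hle) hle

end DT.SB
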