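import Pool.Agent.Work.MP_74021c_co.SB.Stmts

/-!
# Block SB, item D1
-/

set_option autoImplicit false

open Real Set

namespace DT.SB

namespace IX_D1

/-- a function which vanishes at zero and has a nonnegative derivative -/
lemma nonneg_of_deriv (f f' : ℝ → ℝ) (h0 : f 0 = 0) (hd : ∀ x, HasDerivAt f (f' x) x)
    (hn : ∀ x, 0 ≤ x → 0 ≤ f' x) (x : ℝ) (hx : 0 ≤ x) : 0 ≤ f x := by
  have hm : MonotoneOn f (Ici 0) := by
    refine monotoneOn_of_deriv_nonneg (convex_Ici 0)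
      (fun y _ => (hd y).continuousAt.continuousWithinAt)
      (fun y _ => (hd y).differentiableAt.differentiableWithinAt) ?_
    intro y hy
    rw [interior_Ici, mem_Ioi] at hy
    rw [(hd y).deriv]
    exact hn y hy.le
  have h1 := hm (mem_Ici.mpr le_rfl) (mem_Ici.mpr hx) hx
  rwa [h0] at h1

lemma cos_le (x : ℝ) (hx : 0 ≤ x) : 0 ≤ 1 - x ^ 2 / 2 + x ^ 4 / 24 - cos x := by
  refine nonneg_of_deriv (fun x => 1 - x ^ 2 / 2 + x ^ 4 / 24 - cos x)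
    (fun x => sin x - (x - x ^ 3 / 6)) (by simp) (fun y => ?_) (fun y hy => ?_) x hx
  · have h1 := ((((hasDerivAt_id y).pow 2).div_const 2).const_sub 1).add
      (((hasDerivAt_id y).pow 4).div_const 24)
    have h2 := h1.sub (hasDerivAt_cos y)
    refine h2.congr_deriv ?_
    simp only [id]
    push_cast
    ring
  · have := sin_ge_sub_cube hy
    linarith

lemma sin_le' (x : ℝ) (hx : 0 ≤ x) : 0 ≤ x - x ^ 3 / 6 + x ^ 5 / 120 - sin x := by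
  refine nonneg_of_deriv (fun x => x - x ^ 3 / 6 + x ^ 5 / 120 - sin x)
    (fun x => 1 - x ^ 2 / 2 + x ^ 4 / 24 - cos x) (by simp) (fun y => ?_)
    (fun y hy => cos_le y hy) x hx
  have h1 := ((hasDerivAt_id y).sub (((hasDerivAt_id y).pow 3).div_const 6)).add
    (((hasDerivAt_id y).pow 5).div_const 120)
  have h2 := h1.sub (hasDerivAt_sin y)
  refine h2.congr_deriv ?_
  simp only [id]
  push_cast
  ring

lemma sc_le (x : ℝ) (hx : 0 ≤ x) :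
    0 ≤ x ^ 3 / 3 - x ^ 5 / 30 + x ^ 7 / 840 - (sin x - x * cos x) := by
  refine nonneg_of_deriv (fun x => x ^ 3 / 3 - x ^ 5 / 30 + x ^ 7 / 840 - (sin x - x * cos x))
    (fun x => x * (x - x ^ 3 / 6 + x ^ 5 / 120 - sin x)) (by simp) (fun y => ?_)
    (fun y hy => mul_nonneg hy (sin_le' y hy)) x hx
  have h1 := ((((hasDerivAt_id y).pow 3).div_const 3).sub (((hasDerivAt_id y).pow 5).div_const 30)).add
    (((hasDerivAt_id y).pow 7).div_const 840)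
  have h2 := h1.sub ((hasDerivAt_sin y).sub ((hasDerivAt_id y).mul (hasDerivAt_cos y)))
  refine h2.congr_deriv ?_
  simp only [id]
  push_cast
  ring

lemma poly1 (q : ℝ) (h0 : 0 ≤ q) (h1 : q ≤ 4/5) :
    13 / 5 * (q ^ 2 / 3 - q ^ 4 / 30 + q ^ 6 / 840) ≤
      (743 / 100 - q) * (7 / 500 + q ^ 3 / 6 - q ^ 5 / 120) * (1 - q ^ 2 / 6) := by
  have h2 : ∀ u v : ℝ, 0 ≤ u → 0 ≤ v → 0 ≤ (650125 / 1048576) * u ^ 0 * v ^ 8 +
      (641375 / 131072) * u ^ 1 * v ^ 7 +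
      (10633115 / 786432) * u ^ 2 * v ^ 6 +
      (6634145 / 393216) * u ^ 3 * v ^ 5 +
      (14496625 / 1572864) * u ^ 4 * v ^ 4 +
      (1765549 / 1179648) * u ^ 5 * v ^ 3 +
      (9000451 / 16515072) * u ^ 6 * v ^ 2 +
      (196802087 / 206438400) * u ^ 7 * v ^ 1 +
      (171211937 / 550502400) * u ^ 8 * v ^ 0 := by
    intro u v hu hv
    positivity
  have h3 := h2 (q - 0) (4/5 - q) (by linarith) (by linarith)
  have h4 : (743 / 100 - q) * (7 / 500 + q ^ 3 / 6 - q ^ 5 / 120) * (1 - q ^ 2 / 6) -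
      13 / 5 * (q ^ 2 / 3 - q ^ 4 / 30 + q ^ 6 / 840) = (650125 / 1048576) * (q - 0) ^ 0 * (4/5 - q) ^ 8 +
      (641375 / 131072) * (q - 0) ^ 1 * (4/5 - q) ^ 7 +
      (10633115 / 786432) * (q - 0) ^ 2 * (4/5 - q) ^ 6 +
      (6634145 / 393216) * (q - 0) ^ 3 * (4/5 - q) ^ 5 +
      (14496625 / 1572864) * (q - 0) ^ 4 * (4/5 - q) ^ 4 +
      (1765549 / 1179648) * (q - 0) ^ 5 * (4/5 - q) ^ 3 +
      (9000451 / 16515072) * (q - 0) ^ 6 * (4/5 - q) ^ 2 +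
      (196802087 / 206438400) * (q - 0) ^ 7 * (4/5 - q) ^ 1 +
      (171211937 / 550502400) * (q - 0) ^ 8 * (4/5 - q) ^ 0 := by
    ring
  rw [← h4] at h3
  linarith

lemma poly2 (q : ℝ) (h0 : 4/5 ≤ q) (h1 : q ≤ 8/5) :
    13 / 5 * (q ^ 2 / 3 - q ^ 4 / 30 + q ^ 6 / 840) ≤
      (743 / 100 - q) * (7 / 500 + q ^ 3 / 6 - q ^ 5 / 120) * (1 - q ^ 2 / 6) := by
  have h2 : ∀ u v : ℝ, 0 ≤ u → 0 ≤ v → 0 ≤ (171211937 / 550502400) * u ^ 0 * v ^ 8 +
      (23727701 / 5898240) * u ^ 1 * v ^ 7 +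
      (9096355547 / 412876800) * u ^ 2 * v ^ 6 +
      (13273326683 / 206438400) * u ^ 3 * v ^ 5 +
      (1988243441 / 18350080) * u ^ 4 * v ^ 4 +
      (7408614023 / 68812800) * u ^ 5 * v ^ 3 +
      (1011607271 / 16515072) * u ^ 6 * v ^ 2 +
      (3706761857 / 206438400) * u ^ 7 * v ^ 1 +
      (3287212603 / 1651507200) * u ^ 8 * v ^ 0 := by
    intro u v hu hv
    positivity
  have h3 := h2 (q - 4/5) (8/5 - q) (by linarith) (by linarith)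
  have h4 : (743 / 100 - q) * (7 / 500 + q ^ 3 / 6 - q ^ 5 / 120) * (1 - q ^ 2 / 6) -
      13 / 5 * (q ^ 2 / 3 - q ^ 4 / 30 + q ^ 6 / 840) = (171211937 / 550502400) * (q - 4/5) ^ 0 * (8/5 - q) ^ 8 +
      (23727701 / 5898240) * (q - 4/5) ^ 1 * (8/5 - q) ^ 7 +
      (9096355547 / 412876800) * (q - 4/5) ^ 2 * (8/5 - q) ^ 6 +
      (13273326683 / 206438400) * (q - 4/5) ^ 3 * (8/5 - q) ^ 5 +
      (1988243441 / 18350080) * (q - 4/5) ^ 4 * (8/5 - q) ^ 4 +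
      (7408614023 / 68812800) * (q - 4/5) ^ 5 * (8/5 - q) ^ 3 +
      (1011607271 / 16515072) * (q - 4/5) ^ 6 * (8/5 - q) ^ 2 +
      (3706761857 / 206438400) * (q - 4/5) ^ 7 * (8/5 - q) ^ 1 +
      (3287212603 / 1651507200) * (q - 4/5) ^ 8 * (8/5 - q) ^ 0 := by
    ring
  rw [← h4] at h3
  linarith

end IX_D1

open IX_D1 in
theorem pr_D1 : S_D1 := by
  intro q hq0 hq1
  have hpi : π < 3.15 := Real.pi_lt_d2
  have hq2 : q ≤ 8 / 5 := by linarith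
  have h1 := sc_le q hq0.le
  have h2 := sin_le' q hq0.le
  have h3 := sin_ge_sub_cube hq0.le
  have hP : 13 / 5 * (q ^ 2 / 3 - q ^ 4 / 30 + q ^ 6 / 840) ≤
      (743 / 100 - q) * (7 / 500 + q ^ 3 / 6 - q ^ 5 / 120) * (1 - q ^ 2 / 6) := by
    rcases le_total q (4 / 5) with h | h
    · exact poly1 q hq0.le h
    · exact poly2 q h hq2
  have hS : 0 ≤ 1 - q ^ 2 / 6 := by nlinarith
  have hC : 0 ≤ 7 / 500 + q ^ 3 / 6 - q ^ 5 / 120 := by
    have h4 : 0 ≤ q ^ 3 := by positivity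
    have h5 : q ^ 2 ≤ 3 := by nlinarith
    nlinarith [mul_nonneg h4 (sub_nonneg.mpr h5)]
  have hA : 0 ≤ 743 / 100 - q := by linarith
  have hC2 : 7 / 500 + q ^ 3 / 6 - q ^ 5 / 120 ≤ q - sin q + 7 / 500 := by linarith
  have hS2 : q * (1 - q ^ 2 / 6) ≤ sin q := by nlinarith
  have hS3 : 0 ≤ q * (1 - q ^ 2 / 6) := mul_nonneg hq0.le hS
  calc 13 / 5 * (sin q - q * cos q)
      ≤ 13 / 5 * (q ^ 3 / 3 - q ^ 5 / 30 + q ^ 7 / 840) := by linarith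
    _ = q * (13 / 5 * (q ^ 2 / 3 - q ^ 4 / 30 + q ^ 6 / 840)) := by ring
    _ ≤ q * ((743 / 100 - q) * (7 / 500 + q ^ 3 / 6 - q ^ 5 / 120) * (1 - q ^ 2 / 6)) :=
        mul_le_mul_of_nonneg_left hP hq0.le
    _ = ((743 / 100 - q) * (7 / 500 + q ^ 3 / 6 - q ^ 5 / 120)) * (q * (1 - q ^ 2 / 6)) := by ring
    _ ≤ ((743 / 100 - q) * (q - sin q + 7 / 500)) * sin q := by
        refine mul_le_mul (mul_le_mul_of_nonneg_left hC2 hA) hS2 hS3 ?_
        exact mul_nonneg hA (hC.trans hC2)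

end DT.SB
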