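import Pool.Agent.Work.MP_74021c_co.SB.Stmts

/-!
# Block SB, item GI: a generic point
-/

set_option autoImplicit false

open Real Set

namespace DT.SB

namespace IX_GI

theorem cr_rot (a b c : ℂ) : cr a b c = cr b c a := by
  unfold cr
  simp only [Complex.sub_re, Complex.sub_im]
  ring

theorem cr_swap (a b c : ℂ) : cr a b c = -cr b a c := by
  unfold cr
  simp only [Complex.sub_re, Complex.sub_im]
  ring

theorem open1 (a : ℂ) : IsOpen {z : ℂ | z ≠ a} := isOpen_ne

theorem dense1 (a : ℂ) : Dense {z : ℂ | z ≠ a} := dense_compl_singleton a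

theorem cont_cr (a b : ℂ) : Continuous (fun z => cr a b z) := by
  unfold cr
  fun_prop

theorem open2 (a b : ℂ) : IsOpen {z : ℂ | a ≠ b → cr a b z ≠ 0} := by
  by_cases h : a = b
  · have : {z : ℂ | a ≠ b → cr a b z ≠ 0} = univ := by
      ext z
      simp [h]
    rw [this]
    exact isOpen_univ
  · have : {z : ℂ | a ≠ b → cr a b z ≠ 0} = {z | cr a b z ≠ 0} := by
      ext z
      simp [h]
    rw [this]
    exact isOpen_ne_fun (cont_cr a b) continuous_const

theorem cr_move (a b z : ℂ) (s : ℝ) :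
    cr a b (z + (s : ℂ) * (Complex.I * (b - a))) = cr a b z + s * Complex.normSq (b - a) := by
  unfold cr
  rw [Complex.normSq_apply]
  simp only [Complex.add_re, Complex.add_im, Complex.mul_re, Complex.mul_im, Complex.ofReal_re,
    Complex.ofReal_im, Complex.I_re, Complex.I_im, Complex.sub_re, Complex.sub_im]
  ring

theorem dense2 (a b : ℂ) : Dense {z : ℂ | a ≠ b → cr a b z ≠ 0} := by
  rw [Metric.dense_iff]
  intro z ε hε
  by_cases hz : cr a b z ≠ 0
  · exact ⟨z, Metric.mem_ball_self hε, fun _ => hz⟩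
  push Not at hz
  by_cases h : a = b
  · exact ⟨z, Metric.mem_ball_self hε, fun h' => absurd h h'⟩
  have hba : b - a ≠ 0 := fun h' => h (sub_eq_zero.1 h').symm
  have hn : 0 < ‖b - a‖ := norm_pos_iff.2 hba
  have hs : 0 < ε / (2 * ‖b - a‖) := by positivity
  refine ⟨z + ((ε / (2 * ‖b - a‖) : ℝ) : ℂ) * (Complex.I * (b - a)), ?_, fun _ => ?_⟩
  · rw [Metric.mem_ball, dist_eq_norm, add_sub_cancel_left, norm_mul, norm_mul, Complex.norm_I,
      one_mul, Complex.norm_real, Real.norm_eq_abs, abs_of_pos hs]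
    have : ε / (2 * ‖b - a‖) * ‖b - a‖ = ε / 2 := by
      field_simp
    rw [this]
    linarith
  · rw [cr_move, hz, zero_add]
    exact mul_ne_zero hs.ne' (fun h' => hba (Complex.normSq_eq_zero.1 h'))

/-- the centre is unique -/
theorem centre {a b c : ℂ} (h : cr a b c ≠ 0) {o o' : ℂ} (h1 : dist o a = dist o b)
    (h2 : dist o a = dist o c) (h1' : dist o' a = dist o' b) (h2' : dist o' a = dist o' c) :
    o = o' := by
  have key : ∀ (o p q : ℂ), dist o p = dist o q →
      (o.re - p.re) ^ 2 + (o.im - p.im) ^ 2 = (o.re - q.re) ^ 2 + (o.im - q.im) ^ 2 := by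
    intro o p q h
    have h5 : dist o p ^ 2 = dist o q ^ 2 := by rw [h]
    rw [Complex.dist_eq, Complex.dist_eq, ← Complex.normSq_eq_norm_sq,
      ← Complex.normSq_eq_norm_sq, Complex.normSq_apply, Complex.normSq_apply, Complex.sub_re,
      Complex.sub_im, Complex.sub_re, Complex.sub_im] at h5
    linarith
  have e1 := key o a b h1
  have e2 := key o a c h2
  have e3 := key o' a b h1'
  have e4 := key o' a c h2'
  unfold cr at h
  simp only [Complex.sub_re, Complex.sub_im] at h
  have f1 : (o.re - o'.re) * (b.re - a.re) + (o.im - o'.im) * (b.im - a.im) = 0 := by linarith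
  have f2 : (o.re - o'.re) * (c.re - a.re) + (o.im - o'.im) * (c.im - a.im) = 0 := by linarith
  have g1 : (o.re - o'.re) * ((b.re - a.re) * (c.im - a.im) - (b.im - a.im) * (c.re - a.re)) = 0 := by
    linear_combination (c.im - a.im) * f1 - (b.im - a.im) * f2
  have g2 : (o.im - o'.im) * ((b.re - a.re) * (c.im - a.im) - (b.im - a.im) * (c.re - a.re)) = 0 := by
    linear_combination (b.re - a.re) * f2 - (c.re - a.re) * f1
  have hd : (b.re - a.re) * (c.im - a.im) - (b.im - a.im) * (c.re - a.re) ≠ 0 := by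
    intro h'
    apply h
    linarith
  apply Complex.ext
  · have := (mul_eq_zero.1 g1).resolve_right hd
    linarith
  · have := (mul_eq_zero.1 g2).resolve_right hd
    linarith

/-- points on no circle through `a, b, c` -/
def P (a b c : ℂ) : Set ℂ := {z | cr a b c ≠ 0 → a ≠ b →
  ∀ (o : ℂ) (r : ℝ), dist o a = r → dist o b = r → dist o c = r → dist o z ≠ r}

theorem P_cases (a b c : ℂ) : P a b c = univ ∨ ∃ (o : ℂ) (r : ℝ), r ≠ 0 ∧
    P a b c = (Metric.sphere o r)ᶜ := by
  by_cases h : cr a b c ≠ 0 ∧ a ≠ b ∧ ∃ (o : ℂ) (r : ℝ), dist o a = r ∧ dist o b = r ∧ dist o c = r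
  · obtain ⟨h1, h2, o, r, h3, h4, h5⟩ := h
    right
    refine ⟨o, r, ?_, ?_⟩
    · intro hr
      rw [hr] at h3 h4
      exact h2 ((dist_eq_zero.1 h3).symm.trans (dist_eq_zero.1 h4))
    · ext z
      rw [mem_compl_iff, Metric.mem_sphere]
      constructor
      · intro hz h6
        exact hz h1 h2 o r h3 h4 h5 (by rw [dist_comm]; exact h6)
      · intro hz _ _ o' r' h3' h4' h5' h6
        have ho : o' = o := centre h1 (h3'.trans h4'.symm) (h3'.trans h5'.symm)
          (h3.trans h4.symm) (h3.trans h5.symm)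
        apply hz
        rw [dist_comm, ← ho, h6, ← h3', ho, h3]
  · left
    ext z
    constructor
    · intro _
      trivial
    · intro _ h1 h2 o r h3 h4 h5
      exact absurd ⟨h1, h2, o, r, h3, h4, h5⟩ h

theorem open3 (a b c : ℂ) : IsOpen (P a b c) := by
  rcases P_cases a b c with h | ⟨o, r, _, h⟩
  · rw [h]
    exact isOpen_univ
  · rw [h]
    exact Metric.isClosed_sphere.isOpen_compl

theorem dense3 (a b c : ℂ) : Dense (P a b c) := by
  rcases P_cases a b c with h | ⟨o, r, hr, h⟩
  · rw [h]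
    exact dense_univ
  · rw [h, ← interior_eq_empty_iff_dense_compl]
    exact interior_sphere o hr

end IX_GI

open IX_GI in
theorem pr_GI : S_GI := by
  intro S h3 h4 t δ hδ
  have hd : Dense (⋂ i : S × S × S, ({z : ℂ | z ≠ i.1.1} ∩
      ({z : ℂ | i.1.1 ≠ i.2.1.1 → cr i.1.1 i.2.1.1 z ≠ 0} ∩ P i.1.1 i.2.1.1 i.2.2.1))) := by
    refine dense_iInter_of_isOpen (fun i => ?_) (fun i => ?_)
    · exact (open1 _).inter ((open2 _ _).inter (open3 _ _ _))
    · exact (dense1 _).inter_of_isOpen_left ((dense2 _ _).inter_of_isOpen_left (dense3 _ _ _)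
        (open2 _ _)) (open1 _)
  obtain ⟨x, hx, hxt⟩ := hd.exists_dist_lt t hδ
  rw [mem_iInter] at hx
  have hL : ∀ a ∈ S, ∀ b ∈ S, a ≠ b → cr a b x ≠ 0 := fun a ha b hb hab =>
    (hx (⟨a, ha⟩, ⟨b, hb⟩, ⟨a, ha⟩)).2.1 hab
  have hC : ∀ a ∈ S, ∀ b ∈ S, ∀ c ∈ S, a ≠ b → a ≠ c → b ≠ c → ∀ (o : ℂ) (r : ℝ),
      dist o a = r → dist o b = r → dist o c = r → dist o x ≠ r :=
    fun a ha b hb c hc hab hac hbc =>
      (hx (⟨a, ha⟩, ⟨b, hb⟩, ⟨c, hc⟩)).2.2 (h3 a ha b hb c hc hab hac hbc) hab
  refine ⟨x, by rw [dist_comm]; exact hxt, ?_, ?_⟩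
  · intro a ha b hb c hc hab hac hbc
    by_cases hax : a = x
    · have hb' := (Finset.mem_insert.1 hb).resolve_left (fun h => hab (hax.trans h.symm))
      have hc' := (Finset.mem_insert.1 hc).resolve_left (fun h => hac (hax.trans h.symm))
      rw [cr_rot, hax]
      exact hL b hb' c hc' hbc
    have ha' := (Finset.mem_insert.1 ha).resolve_left hax
    by_cases hbx : b = x
    · have hc' := (Finset.mem_insert.1 hc).resolve_left (fun h => hbc (hbx.trans h.symm))
      rw [cr_rot, cr_rot, hbx]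
      exact hL c hc' a ha' hac.symm
    have hb' := (Finset.mem_insert.1 hb).resolve_left hbx
    by_cases hcx : c = x
    · rw [hcx]
      exact hL a ha' b hb' hab
    have hc' := (Finset.mem_insert.1 hc).resolve_left hcx
    exact h3 a ha' b hb' c hc' hab hac hbc
  · intro a ha b hb c hc d hd' hab hac had hbc hbd hcd
    rintro ⟨o, r, ea, eb, ec, ed⟩
    by_cases hax : a = x
    · have hb' := (Finset.mem_insert.1 hb).resolve_left (fun h => hab (hax.trans h.symm))
      have hc' := (Finset.mem_insert.1 hc).resolve_left (fun h => hac (hax.trans h.symm))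
      have hd'' := (Finset.mem_insert.1 hd').resolve_left (fun h => had (hax.trans h.symm))
      exact hC b hb' c hc' d hd'' hbc hbd hcd o r eb ec ed (by rw [← hax]; exact ea)
    have ha' := (Finset.mem_insert.1 ha).resolve_left hax
    by_cases hbx : b = x
    · have hc' := (Finset.mem_insert.1 hc).resolve_left (fun h => hbc (hbx.trans h.symm))
      have hd'' := (Finset.mem_insert.1 hd').resolve_left (fun h => hbd (hbx.trans h.symm))
      exact hC a ha' c hc' d hd'' hac had hcd o r ea ec ed (by rw [← hbx]; exact eb)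
    have hb' := (Finset.mem_insert.1 hb).resolve_left hbx
    by_cases hcx : c = x
    · have hd'' := (Finset.mem_insert.1 hd').resolve_left (fun h => hcd (hcx.trans h.symm))
      exact hC a ha' b hb' d hd'' hab had hbd o r ea eb ed (by rw [← hcx]; exact ec)
    have hc' := (Finset.mem_insert.1 hc).resolve_left hcx
    by_cases hdx : d = x
    · exact hC a ha' b hb' c hc' hab hac hbc o r ea eb ec (by rw [← hdx]; exact ed)
    have hd'' := (Finset.mem_insert.1 hd').resolve_left hdx
    exact h4 a ha' b hb' c hc' d hd'' hab hac had hbc hbd hcd ⟨o, r, ea, eb, ec, ed⟩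

end DT.SB
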