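import Pool.Agent.Work.MP_74021c_co.SB.Stmts

/-!
# Block SB, item LL: the left lemma
-/

set_option autoImplicit false

open Real Set

namespace DT.SB

namespace IX_LL

lemma LB_mono {o : ℂ} {r : ℝ} {b : ℂ} {D D' : ℝ} (h : D' ≤ D) (hb : LB o r b D) : LB o r b D' := by
  obtain ⟨w, q, h1, h2, h3, h4, h5, h6, h7, h8⟩ := hb
  exact ⟨w, q, h1, h2, h3, h4, h5, h6, h7, h.trans h8⟩

end IX_LL

open IX_LL

theorem pr_LL (hCF : S_CF) (hMO : S_MO) (hBIG : S_BIG) (hL0 : S_L0) (hLM : S_LM) (hAL : S_AL)
    (hAM : S_AM) (hHD : S_HD) (hMA : S_MA) : S_LL := by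
  intro S G n a b o r hX hC hUp
  obtain ⟨hAx, hL00, hFw⟩ := hCF S G n a b o r hX hC
  have hmono := hMO S G n a b o r hX hC
  have hbig := hBIG S G n a b o r hX hC
  -- lower points on a circle of the chain
  have low : ∀ j ≤ n + 1, ∀ u ∈ S, ∀ v ∈ S, u ≠ v → dist (o j) u = r j → dist (o j) v = r j →
      u.im ≤ 0 → v.im ≤ 0 → G u v := by
    intro j hj u hu v hv huv h1 h2 h3 h4
    have hd : dist u v ≤ 1 := by
      rcases le_or_gt (r j) (1 / 2) with h | h
      · have h5 := dist_triangle u (o j) v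
        rw [dist_comm u (o j), h1, h2] at h5
        linarith
      · exact hMA u v (o j) (r j) (hAx j hj) (hUp j hj h).le h1 h2 h3 h4
    exact hX.edge u hu v hv huv hd (o j) (r j) h1 h2 (hC.emp j hj)
  -- pencil step
  have pencil : ∀ i ≤ n, (¬ LP a b i) → xL (o (i + 1)) (r (i + 1)) ≤ 34 / 1000 →
      ∀ D, Reach G 0 (b i) D → LB (o i) (r i) (b i) D →
      ∃ D', Reach G 0 (b i) D' ∧ LB (o (i + 1)) (r (i + 1)) (b i) D' := by
    intro i hi hLP hxL D hR hLB
    have hA0 := hAx i (by omega)
    have hA1 := hAx (i + 1) (by omega)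
    have hF := hFw i hi
    obtain ⟨ha, hb, h1, h2, h3, h4, h5⟩ := hF
    have hr := (hbig i (by omega)).1
    have hr1 := (hbig (i + 1) (by omega)).1
    have hF := hFw i hi
    have hne : a i ≠ b i := by
      intro h
      rw [h] at ha
      linarith
    rcases le_or_gt (dist (a i) (b i)) 1 with hab | hab
    · by_cases hc : dist 0 (a i) + dist (a i) 1 ≤ 8 / 5 ∧ dist 0 (a i) < 1
      · obtain ⟨D1, hR1, hD1⟩ := hX.ih0 (a i) (hC.aS i hi) hc.1 hc.2
        have hG : G (a i) (b i) := hX.edge (a i) (hC.aS i hi) (b i) (hC.bS i hi) hne hab (o i) (r i)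
          h1 h2 (hC.emp i (by omega))
        have hR2 := Reach.step hR1 hG
        rcases le_total D (D1 + dist (a i) (b i)) with h | h
        · exact ⟨D, hR, hAL _ _ _ _ _ _ D hF hA0 hA1 hr hr1 (by linarith) hLB⟩
        · exact ⟨D1 + dist (a i) (b i), hR2, hAL _ _ _ _ _ _ _ hF hA0 hA1 hr hr1 (by linarith)
            (LB_mono h hLB)⟩
      · have hfar : 21 / 100 ≤ dist 0 (a i) := by
          by_contra h
          push Not at h
          apply hc
          have h6 := dist_triangle (a i) 0 1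
          rw [dist_comm (a i) 0] at h6
          have h7 : dist (0 : ℂ) 1 = 1 := by simp
          rw [h7] at h6
          constructor <;> linarith
        have h0 : 0 ≤ (o i).im := by
          by_contra h
          push Not at h
          have h6 := hHD (a i) (o i) (r i) hA0 h.le h1 ha
          exact hc ⟨h6.2.2, h6.1⟩
        have h0' : 0 ≤ (o (i + 1)).im := by
          by_contra h
          push Not at h
          have h6 := hHD (a i) (o (i + 1)) (r (i + 1)) hA1 h.le h3 ha
          exact hc ⟨h6.2.2, h6.1⟩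
        exact ⟨D, hR, hAM _ _ _ _ _ _ D hF hA0 hA1 hr hr1 h0 h0' hxL hfar hLB⟩
    · have hri : 1 / 2 < r i := by
        have h6 := dist_triangle (a i) (o i) (b i)
        rw [dist_comm (a i) (o i), h1, h2] at h6
        linarith
      have hri' : 1 / 2 < r (i + 1) := by
        have h6 := dist_triangle (a i) (o (i + 1)) (b i)
        rw [dist_comm (a i) (o (i + 1)), h3, h4] at h6
        linarith
      have hfar : 21 / 100 ≤ dist 0 (a i) := by
        by_contra h
        push Not at h
        exact hLP ⟨hab, h⟩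
      exact ⟨D, hR, hAM _ _ _ _ _ _ D hF hA0 hA1 hr hr1 (hUp i (by omega) hri).le
        (hUp (i + 1) (by omega) hri').le hxL hfar hLB⟩
  -- the first statement for all `i`
  have main : ∀ i ≤ n, (∀ j < i, ¬ LP a b j) → xL (o i) (r i) ≤ 34 / 1000 →
      ∃ D, Reach G 0 (b i) D ∧ LB (o i) (r i) (b i) D := by
    intro i
    induction i with
    | zero =>
      intro _ _ _
      have hb0 := hC.bneg 0 (by omega)
      have hne : (0 : ℂ) ≠ b 0 := by
        intro h
        rw [← h] at hb0
        simp at hb0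
      have hG := low 0 (by omega) 0 hX.zero (b 0) (hC.bS 0 (by omega)) hne hC.o0
        (hC.ob 0 (by omega)) (by simp) hb0.le
      have hR := Reach.step (Reach.refl (Adj := G) (p := 0)) hG
      rw [zero_add] at hR
      exact ⟨_, hR, hL0 (b 0) (o 0) (r 0) (hAx 0 (by omega)).1 (hAx 0 (by omega)).2.1
        (hC.ob 0 (by omega)) hb0 hL00⟩
    | succ i ih =>
      intro hi hLP hxL
      have hxL0 : xL (o i) (r i) ≤ 34 / 1000 := (hmono i (i + 1) (by omega) (by omega)).1.trans hxL
      obtain ⟨D, hR, hLB⟩ := ih (by omega) (fun j hj => hLP j (by omega)) hxL0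
      obtain ⟨D', hR', hLB'⟩ := pencil i (by omega) (hLP i (by omega)) hxL D hR hLB
      rcases hC.step i (by omega) with ⟨hs, hcr⟩ | ⟨hs, hcr⟩
      · have hne : b i ≠ b (i + 1) := by
          intro h
          rw [← h] at hcr
          unfold cr at hcr
          simp at hcr
        have hG := low (i + 1) (by omega) (b i) (hC.bS i (by omega)) (b (i + 1))
          (hC.bS (i + 1) hi) hne (hC.ob' i (by omega)) (hC.ob (i + 1) hi)
          (hC.bneg i (by omega)).le (hC.bneg (i + 1) hi).le
        exact ⟨_, Reach.step hR' hG, hLM (a i) (b i) (b (i + 1)) (o (i + 1)) (r (i + 1)) D'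
          (hC.oa' i (by omega)) (hC.ob' i (by omega)) (hC.ob (i + 1) hi) (hC.apos i (by omega))
          (hC.bneg i (by omega)) (hC.bneg (i + 1) hi) hcr hLB'⟩
      · rw [hs]
        exact ⟨D', hR', hLB'⟩
  intro i hi
  refine ⟨main i hi, ?_⟩
  intro hLP hxL
  have hxL0 : xL (o i) (r i) ≤ 34 / 1000 := (hmono i (i + 1) (by omega) (by omega)).1.trans hxL
  obtain ⟨D, hR, hLB⟩ := main i hi (fun j hj => hLP j hj.le) hxL0
  exact pencil i hi (hLP i le_rfl) hxL D hR hLB

end DT.SB
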