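import Pool.Agent.Work.MP_74021c_co.SB.Stmts

/-!
# Block SB, item PEN: parametrization of a pencil
-/

set_option autoImplicit false

open Real Set

namespace DT.SB

namespace IX_PEN

lemma onC {a b : ℂ} {κ k m M : ℝ} (hκ : |κ| < π / 2) (hk : |k| < cos κ) (hm : 0 < m)
    (ha1 : a.re = M + m * sin κ) (ha2 : a.im = m * (k + cos κ)) (hb1 : b.re = M - m * sin κ)
    (hb2 : b.im = m * (k - cos κ)) (ω : ℝ) (hω : ω ∈ Ioo 0 π) :
    OnC (pc κ m M ω) (pr m ω) (W κ k ω) (pp κ k ω) (pq κ k ω) a b := by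
  have hs : 0 < sin ω := sin_pos_of_mem_Ioo hω
  obtain ⟨hw1, hw2, hw3, hw4⟩ := W_range hκ hk hω
  rw [abs_le] at hw3 hw4
  have e1 : 2 * pp κ k ω - W κ k ω = ω - κ := by unfold pp; ring
  have e2 : 2 * pq κ k ω + W κ k ω = ω + κ := by unfold pq; ring
  have hrs : pr m ω * sin ω = m := by unfold pr; exact div_mul_cancel₀ _ hs.ne'
  have hcc : pc κ m M ω = M - pr m ω * cos ω * cos κ := by
    unfold pc pr
    ring
  have hs2 := sin_sq_add_cos_sq ω
  refine ⟨div_pos hm hs, hw1, ?_, ?_, ?_, ?_, ?_, ?_, ?_, ?_⟩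
  · unfold pp; linarith
  · unfold pp; linarith
  · unfold pq; linarith
  · unfold pq; linarith
  · rw [e1, cos_sub, hcc, ha1]
    linear_combination (-sin κ) * hrs
  · rw [e1, sin_sub, hw2, ha2]
    linear_combination (-(k + cos κ)) * hrs
  · rw [e2, cos_add, hcc, hb1]
    linear_combination (sin κ) * hrs
  · rw [e2, sin_add, hw2, hb2]
    linear_combination (-(k - cos κ)) * hrs

lemma mem {a b o : ℂ} {κ k m M r s : ℝ} (hκ : |κ| < π / 2) (hk : |k| < cos κ) (hm : 0 < m)
    (ha1 : a.re = M + m * sin κ) (ha2 : a.im = m * (k + cos κ)) (hb1 : b.re = M - m * sin κ)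
    (hb2 : b.im = m * (k - cos κ)) (h1 : dist o a = r) (h2 : dist o b = r)
    (hs : s = (o.re - M) * cos κ - (o.im - m * k) * sin κ) :
    Mem κ k m M (π / 2 + arctan (s / m)) o r := by
  have hsc1 : sin κ ^ 2 + cos κ ^ 2 = 1 := sin_sq_add_cos_sq κ
  have g1 : dist o a ^ 2 = r ^ 2 := by rw [h1]
  have g2 : dist o b ^ 2 = r ^ 2 := by rw [h2]
  rw [G2b_dist, ha1, ha2] at g1
  rw [G2b_dist, hb1, hb2] at g2
  have hperp : (o.re - M) * sin κ + (o.im - m * k) * cos κ = 0 := by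
    have : 4 * m * ((o.re - M) * sin κ + (o.im - m * k) * cos κ) = 0 := by
      linear_combination g2 - g1
    rcases mul_eq_zero.1 this with h0 | h0
    · linarith
    · exact h0
  have hore : o.re = M + s * cos κ := by
    rw [hs]
    linear_combination sin κ * hperp - (o.re - M) * hsc1
  have hoim : o.im = m * k - s * sin κ := by
    rw [hs]
    linear_combination cos κ * hperp - (o.im - m * k) * hsc1
  have hr2 : r ^ 2 = s ^ 2 + m ^ 2 := by
    rw [← g1, hore, hoim]
    linear_combination (s ^ 2 + m ^ 2) * hsc1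
  have hr0 : 0 ≤ r := by rw [← h1]; exact dist_nonneg
  have hr : 0 < r := by
    refine lt_of_le_of_ne hr0 fun h0 => ?_
    rw [← h0] at hr2
    have e1 : 0 < m ^ 2 := by positivity
    have e2 : 0 ≤ s ^ 2 := sq_nonneg s
    have e3 : (0 : ℝ) ^ 2 = 0 := by norm_num
    linarith
  have hωm : π / 2 + arctan (s / m) ∈ Ioo 0 π := by
    have e1 := neg_pi_div_two_lt_arctan (s / m)
    have e2 := arctan_lt_pi_div_two (s / m)
    constructor <;> linarith
  have hsq : sqrt (1 + (s / m) ^ 2) = r / m := by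
    have e1 : 1 + (s / m) ^ 2 = (r / m) ^ 2 := by
      rw [div_pow, div_pow, hr2, add_div, div_self (pow_ne_zero 2 hm.ne')]
      ring
    rw [e1, sqrt_sq (by positivity)]
  set ω : ℝ := π / 2 + arctan (s / m) with hω
  have hsω : sin ω = m / r := by
    rw [hω, sin_add, sin_pi_div_two, cos_pi_div_two, cos_arctan, hsq]
    field_simp
    ring
  have hcω : cos ω = -(s / r) := by
    rw [hω, cos_add, sin_pi_div_two, cos_pi_div_two, sin_arctan, hsq]
    field_simp
    ring
  have hrs : r * sin ω = m := by rw [hsω, mul_div_cancel₀ _ hr.ne']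
  have hrc : r * cos ω = -s := by rw [hcω, mul_neg, mul_div_cancel₀ _ hr.ne']
  have hs0 : 0 < sin ω := sin_pos_of_mem_Ioo hωm
  obtain ⟨hw1, hw2, hw3, hw4⟩ := W_range hκ hk hωm
  have hpr : pr m ω = r := by
    unfold pr
    rw [← hrs, mul_div_cancel_right₀ _ hs0.ne']
  refine ⟨hωm, hpr.symm, ?_, ?_⟩
  · have : pc κ m M ω = M - pr m ω * cos ω * cos κ := by
      unfold pc pr
      ring
    rw [this, hpr, hore]
    linear_combination (cos κ) * hrc
  · rw [hw2, hoim]
    linear_combination (-k) * hrs - sin κ * hrc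

end IX_PEN

theorem pr_PEN : S_PEN := by
  intro a b o r o' r' hF
  obtain ⟨ha, hb, h1, h2, h3, h4, h5⟩ := hF
  have hne : a ≠ b := by
    intro h
    rw [h] at ha
    linarith
  have hd : 0 < dist a b := dist_pos.mpr hne
  set m : ℝ := dist a b / 2 with hm
  have hm0 : 0 < m := by rw [hm]; linarith
  have hm2 : (2 * m) ^ 2 = (a.re - b.re) ^ 2 + (a.im - b.im) ^ 2 := by
    rw [← G2b_dist a b, hm]
    ring
  have hy : 0 < a.im - b.im := by linarith
  have hx : |(a.re - b.re) / (2 * m)| < 1 := by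
    rw [abs_div, abs_of_pos (by linarith : (0 : ℝ) < 2 * m), div_lt_one (by linarith)]
    apply abs_lt_of_sq_lt_sq _ (by linarith)
    rw [hm2]
    nlinarith
  obtain ⟨hx1, hx2⟩ := abs_lt.1 hx
  set κ : ℝ := arcsin ((a.re - b.re) / (2 * m)) with hκd
  have hsκ : sin κ = (a.re - b.re) / (2 * m) := sin_arcsin hx1.le hx2.le
  have hκ : |κ| < π / 2 := abs_lt.2 ⟨neg_pi_div_two_lt_arcsin.2 hx1, arcsin_lt_pi_div_two.2 hx2⟩
  have hcp : 0 < cos κ := cos_pos_of_mem_Ioo ⟨(abs_lt.1 hκ).1, (abs_lt.1 hκ).2⟩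
  have hs2 : 2 * m * sin κ = a.re - b.re := by
    rw [hsκ, mul_div_cancel₀ _ (by linarith : (2 * m : ℝ) ≠ 0)]
  have hc2 : 2 * m * cos κ = a.im - b.im := by
    have e1 : (2 * m * cos κ) ^ 2 = (a.im - b.im) ^ 2 := by
      have e2 := sin_sq_add_cos_sq κ
      have e3 : (2 * m * sin κ) ^ 2 = (a.re - b.re) ^ 2 := by rw [hs2]
      linear_combination (2 * m) ^ 2 * e2 + hm2 - e3
    exact (pow_left_inj₀ (by positivity) hy.le two_ne_zero).1 e1
  set M : ℝ := (a.re + b.re) / 2 with hM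
  set k : ℝ := (a.im + b.im) / (2 * m) with hkd
  have hk2 : 2 * m * k = a.im + b.im := by
    rw [hkd, mul_div_cancel₀ _ (by linarith : (2 * m : ℝ) ≠ 0)]
  have hk : |k| < cos κ := by
    rw [abs_lt]
    constructor
    · by_contra hc
      have : 2 * m * k ≤ 2 * m * (-cos κ) := mul_le_mul_of_nonneg_left (not_lt.1 hc) (by linarith)
      linarith
    · by_contra hc
      have : 2 * m * cos κ ≤ 2 * m * k := mul_le_mul_of_nonneg_left (not_lt.1 hc) (by linarith)
      linarith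
  have ha1 : a.re = M + m * sin κ := by rw [hM]; linarith
  have ha2 : a.im = m * (k + cos κ) := by linarith
  have hb1 : b.re = M - m * sin κ := by rw [hM]; linarith
  have hb2 : b.im = m * (k - cos κ) := by linarith
  refine ⟨κ, k, m, M, π / 2 + arctan (((o.re - M) * cos κ - (o.im - m * k) * sin κ) / m),
    π / 2 + arctan (((o'.re - M) * cos κ - (o'.im - m * k) * sin κ) / m),
    ⟨hκ, hk, hm0, by rw [hm]; ring, fun ω hω => IX_PEN.onC hκ hk hm0 ha1 ha2 hb1 hb2 ω hω⟩,
    IX_PEN.mem hκ hk hm0 ha1 ha2 hb1 hb2 h1 h2 rfl,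
    IX_PEN.mem hκ hk hm0 ha1 ha2 hb1 hb2 h3 h4 rfl, ?_⟩
  have h6 : (o.re - M) * cos κ - (o.im - m * k) * sin κ ≤
      (o'.re - M) * cos κ - (o'.im - m * k) * sin κ := by
    rw [← hs2, ← hc2] at h5
    have h7 : 0 ≤ 2 * m * (((o'.re - M) * cos κ - (o'.im - m * k) * sin κ) -
        ((o.re - M) * cos κ - (o.im - m * k) * sin κ)) := by
      calc (0 : ℝ) ≤ _ := h5
        _ = _ := by ring
    have h8 := nonneg_of_mul_nonneg_right h7 (by linarith)
    linarith
  have h9 := arctan_mono (div_le_div_of_nonneg_right h6 hm0.le)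
  linarith

end DT.SB
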